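import Mathlib

/-!
# The Dirichlet series of a nontrivial Dirichlet character converges to `L(s, χ)` for `Re s > 0`
-/

namespace Pool.Agent.Work.MP_92f640_nt

open Finset Filter Topology Complex

section
variable {q : ℕ} [NeZero q] (χ : DirichletCharacter ℂ q)

theorem char_sum_period (hχ : χ ≠ 1) (N : ℕ) : ∑ n ∈ Finset.Ioc N (N + q), χ (n : ZMod q) = 0 := by
  induction N with
  | zero =>
    rw [Nat.zero_add]
    have h1 : ∑ n ∈ Finset.range q, χ (n : ZMod q) = 0 := by
      rw [← MulChar.sum_eq_zero_of_ne_one hχ, ← Fin.sum_univ_eq_sum_range (fun n => χ (n : ZMod q))]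
      refine Fintype.sum_bijective (fun i : Fin q => ((i : ℕ) : ZMod q)) ?_ _ _ (fun _ => rfl)
      rw [Fintype.bijective_iff_injective_and_card]
      constructor
      · intro a b hab
        simp only at hab
        rw [ZMod.natCast_eq_natCast_iff] at hab
        have := Nat.ModEq.eq_of_lt_of_lt hab a.2 b.2
        exact Fin.ext this
      · simp [ZMod.card]
    have h2 : Finset.Ioc 0 q = (Finset.Ico 1 (q + 1)) := by
      ext; simp only [Finset.mem_Ioc, Finset.mem_Ico]; omega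
    rw [h2]
    have hq : 0 < q := Nat.pos_of_ne_zero (NeZero.ne q)
    rw [Finset.sum_Ico_succ_top (by omega)]
    have h3 : Finset.range q = Finset.Ico 0 q := by
      ext; simp only [Finset.mem_range, Finset.mem_Ico]; omega
    rw [h3, ← Finset.sum_Ioo_add_eq_sum_Ico hq] at h1
    have h4 : Finset.Ioo 0 q = Finset.Ico 1 q := by
      ext; simp only [Finset.mem_Ioo, Finset.mem_Ico]; omega
    rw [h4] at h1
    simpa using h1
  | succ N ih =>
    have hq : 0 < q := Nat.pos_of_ne_zero (NeZero.ne q)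
    have h1 : Finset.Ioc N (N + 1 + q) = insert (N + 1) (Finset.Ioc (N + 1) (N + 1 + q)) := by
      ext; simp only [Finset.mem_Ioc, Finset.mem_insert]; omega
    have h2 : Finset.Ioc N (N + 1 + q) = insert (N + 1 + q) (Finset.Ioc N (N + q)) := by
      ext; simp only [Finset.mem_Ioc, Finset.mem_insert]; omega
    have h3 : ∑ n ∈ Finset.Ioc N (N + 1 + q), χ (n : ZMod q)
        = χ ((N + 1 : ℕ) : ZMod q) + ∑ n ∈ Finset.Ioc (N + 1) (N + 1 + q), χ (n : ZMod q) := by
      rw [h1, Finset.sum_insert (by simp only [Finset.mem_Ioc]; omega)]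
    have h4 : ∑ n ∈ Finset.Ioc N (N + 1 + q), χ (n : ZMod q)
        = χ ((N + 1 + q : ℕ) : ZMod q) + ∑ n ∈ Finset.Ioc N (N + q), χ (n : ZMod q) := by
      rw [h2, Finset.sum_insert (by simp only [Finset.mem_Ioc]; omega)]
    have h5 : ((N + 1 + q : ℕ) : ZMod q) = ((N + 1 : ℕ) : ZMod q) := by push_cast; simp
    rw [h5] at h4
    rw [h4, ih] at h3
    simpa using h3.symm

theorem char_sum_bound (hχ : χ ≠ 1) (N : ℕ) : ‖∑ n ∈ Finset.Ioc 0 N, χ (n : ZMod q)‖ ≤ q := by
  have hq : 0 < q := Nat.pos_of_ne_zero (NeZero.ne q)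
  induction N using Nat.strong_induction_on with
  | _ N ih =>
    by_cases h : N ≤ q
    · calc ‖∑ n ∈ Finset.Ioc 0 N, χ (n : ZMod q)‖ ≤ ∑ n ∈ Finset.Ioc 0 N, ‖χ (n : ZMod q)‖ :=
          norm_sum_le _ _
        _ ≤ ∑ n ∈ Finset.Ioc 0 N, (1 : ℝ) :=
          Finset.sum_le_sum (fun n _ => DirichletCharacter.norm_le_one χ _)
        _ = N := by simp
        _ ≤ q := by exact_mod_cast h
    · push Not at h
      have h1 := char_sum_period χ hχ (N - q)
      rw [show N - q + q = N by omega] at h1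
      have h2 := Finset.sum_Ioc_consecutive (fun n => χ ((n : ℕ) : ZMod q)) (Nat.zero_le (N - q))
        (show N - q ≤ N by omega)
      rw [← h2, h1, add_zero]
      exact ih (N - q) (by omega)

end

/-- difference of consecutive powers -/
theorem norm_cpow_sub_le {s : ℂ} (hs : 0 < s.re) {n : ℕ} (hn : 0 < n) :
    ‖((n + 1 : ℕ) : ℂ) ^ (-s) - (n : ℂ) ^ (-s)‖ ≤ ‖s‖ * (n : ℝ) ^ (-(s.re + 1)) := by
  have hnR : (0 : ℝ) < n := by exact_mod_cast hn
  have h := norm_image_sub_le_of_norm_deriv_le_segment' (f := fun t : ℝ => (t : ℂ) ^ (-s))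
    (f' := fun t : ℝ => -s * (t : ℂ) ^ (-s - 1)) (C := ‖s‖ * (n : ℝ) ^ (-(s.re + 1)))
    (a := (n : ℝ)) (b := (n : ℝ) + 1) ?_ ?_ ((n : ℝ) + 1) ?_
  · push_cast at h ⊢
    simpa using h
  · intro t ht
    have ht0 : (0 : ℝ) < t := lt_of_lt_of_le hnR ht.1
    have hne : (-s : ℂ) ≠ 0 := by
      intro h
      have : (-s : ℂ).re = 0 := by rw [h]; simp
      simp at this
      linarith
    have h1 := (hasDerivAt_ofReal_cpow_const (x := t) ht0.ne' (r := -s) hne)
    exact h1.hasDerivWithinAt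
  · intro t ht
    have ht0 : (0 : ℝ) < t := lt_of_lt_of_le hnR ht.1
    rw [norm_mul, norm_neg, Complex.norm_cpow_eq_rpow_re_of_pos ht0]
    apply mul_le_mul_of_nonneg_left _ (norm_nonneg _)
    simp only [sub_re, neg_re, one_re]
    rw [show -s.re - 1 = -(s.re + 1) by ring]
    apply Real.rpow_le_rpow_of_nonpos hnR ht.1
    linarith
  · exact ⟨by linarith, le_refl _⟩

section
variable {q : ℕ} [NeZero q] (χ : DirichletCharacter ℂ q)

/-- the terms of the rearranged series -/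
noncomputable def abelTerm (s : ℂ) (n : ℕ) : ℂ :=
  (∑ k ∈ Finset.Ioc 0 (n + 1), χ (k : ZMod q)) *
    (((n + 1 : ℕ) : ℂ) ^ (-s) - ((n + 2 : ℕ) : ℂ) ^ (-s))

theorem abelTerm_norm_le (hχ : χ ≠ 1) {s : ℂ} (hs : 0 < s.re) (n : ℕ) :
    ‖abelTerm χ s n‖ ≤ q * (‖s‖ * ((n + 1 : ℕ) : ℝ) ^ (-(s.re + 1))) := by
  unfold abelTerm
  rw [norm_mul]
  have h1 := char_sum_bound χ hχ (n + 1)
  have h2 := norm_cpow_sub_le hs (n := n + 1) (by omega)
  rw [norm_sub_rev] at h2
  exact mul_le_mul h1 h2 (norm_nonneg _) (by positivity)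

theorem partial_sum_eq (s : ℂ) (N : ℕ) :
    ∑ n ∈ Finset.Ioc 0 N, χ (n : ZMod q) * (n : ℂ) ^ (-s)
      = ∑ n ∈ Finset.range N, abelTerm χ s n
        + (∑ k ∈ Finset.Ioc 0 N, χ (k : ZMod q)) * ((N + 1 : ℕ) : ℂ) ^ (-s) := by
  induction N with
  | zero => simp
  | succ N ih =>
    rw [Finset.sum_Ioc_succ_top (by omega), ih, Finset.sum_range_succ,
      Finset.sum_Ioc_succ_top (by omega)]
    unfold abelTerm
    rw [Finset.sum_Ioc_succ_top (by omega)]
    push_cast
    rw [show (N : ℂ) + 1 + 1 = N + 2 by ring]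
    ring

theorem summable_abelTerm (hχ : χ ≠ 1) {s : ℂ} (hs : 0 < s.re) :
    Summable (fun n => abelTerm χ s n) := by
  have h1 : Summable (fun n : ℕ => ((n + 1 : ℕ) : ℝ) ^ (-(s.re + 1))) := by
    have := (Real.summable_nat_rpow (p := -(s.re + 1))).2 (by linarith)
    exact (summable_nat_add_iff 1).2 this
  have h2 : Summable (fun n : ℕ => (q : ℝ) * (‖s‖ * ((n + 1 : ℕ) : ℝ) ^ (-(s.re + 1)))) :=
    (h1.mul_left _).mul_left _
  exact Summable.of_norm_bounded h2 (fun n => abelTerm_norm_le χ hχ hs n)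

theorem tendsto_partial (hχ : χ ≠ 1) {s : ℂ} (hs : 0 < s.re) :
    Tendsto (fun N : ℕ => ∑ n ∈ Finset.Ioc 0 N, χ (n : ZMod q) * (n : ℂ) ^ (-s)) atTop
      (𝓝 (∑' n, abelTerm χ s n)) := by
  have h1 := (summable_abelTerm χ hχ hs).hasSum.tendsto_sum_nat
  have h2 : Tendsto (fun N : ℕ => (∑ k ∈ Finset.Ioc 0 N, χ (k : ZMod q)) *
      ((N + 1 : ℕ) : ℂ) ^ (-s)) atTop (𝓝 0) := by
    rw [tendsto_zero_iff_norm_tendsto_zero]
    have h3 : Tendsto (fun N : ℕ => (q : ℝ) * ((N + 1 : ℕ) : ℝ) ^ (-s.re)) atTop (𝓝 0) := by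
      rw [show (0 : ℝ) = q * 0 by simp]
      apply Tendsto.const_mul
      have h4 := (tendsto_rpow_neg_atTop hs).comp (tendsto_natCast_atTop_atTop (R := ℝ))
      exact (tendsto_add_atTop_iff_nat 1).2 h4
    refine squeeze_zero (fun N => norm_nonneg _) (fun N => ?_) h3
    rw [norm_mul]
    have h5 := char_sum_bound χ hχ N
    have h6 : ‖((N + 1 : ℕ) : ℂ) ^ (-s)‖ = ((N + 1 : ℕ) : ℝ) ^ (-s.re) := by
      rw [← Complex.ofReal_natCast, Complex.norm_cpow_eq_rpow_re_of_pos (by positivity)]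
      simp
    rw [h6]
    gcongr
  have h3 := h1.add h2
  rw [add_zero] at h3
  refine h3.congr (fun N => ?_)
  rw [partial_sum_eq]

theorem differentiableOn_abel (hχ : χ ≠ 1) :
    DifferentiableOn ℂ (fun s => ∑' n, abelTerm χ s n) {s : ℂ | 0 < s.re} := by
  intro s hs
  simp only [Set.mem_ofPred_eq] at hs
  -- local neighbourhood
  set U : Set ℂ := {w : ℂ | s.re / 2 < w.re} ∩ Metric.ball 0 (‖s‖ + 1) with hU
  have hUo : IsOpen U := (isOpen_lt continuous_const Complex.continuous_re).inter Metric.isOpen_ball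
  have hsU : s ∈ U := by
    refine ⟨?_, ?_⟩
    · simp only [Set.mem_ofPred_eq]; linarith
    · rw [mem_ball_zero_iff]; linarith
  have h1 : Summable (fun n : ℕ => ((n + 1 : ℕ) : ℝ) ^ (-(s.re / 2 + 1))) := by
    have := (Real.summable_nat_rpow (p := -(s.re / 2 + 1))).2 (by linarith)
    exact (summable_nat_add_iff 1).2 this
  have h2 : Summable (fun n : ℕ => (q : ℝ) * ((‖s‖ + 1) *
      ((n + 1 : ℕ) : ℝ) ^ (-(s.re / 2 + 1)))) :=
    (h1.mul_left _).mul_left _
  have h3 := differentiableOn_tsum_of_summable_norm (F := fun n s => abelTerm χ s n) h2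
    (fun n => ?_) hUo (fun n w hw => ?_)
  · exact ((h3 s hsU).differentiableAt (hUo.mem_nhds hsU)).differentiableWithinAt
  · intro w _
    apply DifferentiableAt.differentiableWithinAt
    unfold abelTerm
    have e1 : ((n + 1 : ℕ) : ℂ) ≠ 0 := by exact_mod_cast Nat.succ_ne_zero n
    have e2 : ((n + 2 : ℕ) : ℂ) ≠ 0 := by exact_mod_cast Nat.succ_ne_zero (n + 1)
    apply DifferentiableAt.const_mul
    apply DifferentiableAt.sub
    · exact (differentiableAt_id.neg).const_cpow (Or.inl e1)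
    · exact (differentiableAt_id.neg).const_cpow (Or.inl e2)
  · obtain ⟨hw1, hw2⟩ := hw
    simp only [Set.mem_ofPred_eq] at hw1
    rw [mem_ball_zero_iff] at hw2
    have hw0 : 0 < w.re := by linarith
    refine (abelTerm_norm_le χ hχ hw0 n).trans ?_
    have h4 : ((n + 1 : ℕ) : ℝ) ^ (-(w.re + 1)) ≤ ((n + 1 : ℕ) : ℝ) ^ (-(s.re / 2 + 1)) := by
      apply Real.rpow_le_rpow_of_exponent_le
      · push_cast; linarith [(Nat.cast_nonneg n : (0 : ℝ) ≤ n)]
      · linarith
    gcongr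

theorem abel_eq_LFunction (hχ : χ ≠ 1) {s : ℂ} (hs : 0 < s.re) :
    ∑' n, abelTerm χ s n = DirichletCharacter.LFunction χ s := by
  have hU : IsOpen {s : ℂ | 0 < s.re} := isOpen_lt continuous_const Complex.continuous_re
  have hUc : IsPreconnected {s : ℂ | 0 < s.re} := (convex_halfSpace_re_gt 0).isPreconnected
  have h1 : AnalyticOnNhd ℂ (fun s => ∑' n, abelTerm χ s n) {s : ℂ | 0 < s.re} :=
    (differentiableOn_abel χ hχ).analyticOnNhd hU
  have h2 : AnalyticOnNhd ℂ (DirichletCharacter.LFunction χ) {s : ℂ | 0 < s.re} :=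
    (DirichletCharacter.differentiable_LFunction hχ).differentiableOn.analyticOnNhd hU
  have h2mem : (2 : ℂ) ∈ {s : ℂ | 0 < s.re} := by simp
  refine h1.eqOn_of_preconnected_of_eventuallyEq h2 hUc h2mem ?_ hs
  have h3 : ∀ᶠ w in 𝓝 (2 : ℂ), 1 < w.re := by
    apply (isOpen_lt continuous_const Complex.continuous_re).mem_nhds
    simp
  filter_upwards [h3] with w hw
  have hw0 : 0 < w.re := by linarith
  rw [DirichletCharacter.LFunction_eq_LSeries χ hw]
  have h4 := tendsto_partial χ hχ hw0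
  have h5 : Tendsto (fun N : ℕ => ∑ n ∈ Finset.Ioc 0 N, χ (n : ZMod q) * (n : ℂ) ^ (-w)) atTop
      (𝓝 (LSeries (fun n => χ (n : ZMod q)) w)) := by
    have h6 := (DirichletCharacter.LSeriesSummable_of_one_lt_re χ hw).hasSum.tendsto_sum_nat
    have h7 := (tendsto_add_atTop_iff_nat 1).2 h6
    refine h7.congr (fun N => ?_)
    rw [Finset.sum_range_succ']
    simp only [LSeries.term_zero, add_zero]
    have h8 : Finset.Ioc 0 N = (Finset.range N).map ⟨fun i => i + 1, fun a b h => by simpa using h⟩ := by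
      ext n
      simp only [Finset.mem_Ioc, Finset.mem_map, Finset.mem_range, Function.Embedding.coeFn_mk]
      constructor
      · rintro ⟨h9, h10⟩; exact ⟨n - 1, by omega, by omega⟩
      · rintro ⟨a, h9, rfl⟩; omega
    rw [h8, Finset.sum_map]
    apply Finset.sum_congr rfl
    intro n _
    simp only [Function.Embedding.coeFn_mk]
    rw [LSeries.term_of_ne_zero (Nat.succ_ne_zero n), Complex.cpow_neg]
    rfl
  exact tendsto_nhds_unique h4 h5

/-- The partial sums converge to the value of the L-function for `Re s > 0`. -/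
theorem tendsto_LFunction (hχ : χ ≠ 1) {s : ℂ} (hs : 0 < s.re) :
    Tendsto (fun N : ℕ => ∑ n ∈ Finset.Ioc 0 N, χ (n : ZMod q) * (n : ℂ) ^ (-s)) atTop
      (𝓝 (DirichletCharacter.LFunction χ s)) := by
  rw [← abel_eq_LFunction χ hχ hs]
  exact tendsto_partial χ hχ hs

end

end Pool.Agent.Work.MP_92f640_nt
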