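import Mathlib

/-!
Combinatorial facts on integers coprime to 210 used for the reduction of Q1.
-/

namespace Pool.Agent.Work.MP_92f640_nt

/-- The integers `k` with `F / 2 < k ≤ F` that are coprime to `210`. -/
def rough (F : ℕ) : Finset ℕ :=
  (Finset.Ioc (F / 2) F).filter (fun k => Nat.Coprime k 210)

theorem coprime_add_mul (k j : ℕ) : Nat.Coprime (k + 210 * j) 210 ↔ Nat.Coprime k 210 := by
  rw [Nat.coprime_add_mul_left_left]

theorem card_Ioc_shift (a b : ℕ) :
    ((Finset.Ioc (a + 210) (b + 210)).filter (fun k => Nat.Coprime k 210)).card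
      = ((Finset.Ioc a b).filter (fun k => Nat.Coprime k 210)).card := by
  rw [← Finset.map_add_right_Ioc, Finset.filter_map, Finset.card_map]
  congr 1
  apply Finset.filter_congr
  intro k _
  simpa using coprime_add_mul k 1

theorem card_period (a : ℕ) :
    ((Finset.Ioc a (a + 210)).filter (fun k => Nat.Coprime k 210)).card = 48 := by
  have h := Nat.filter_coprime_Ico_eq_totient 210 (a + 1)
  have h2 : Finset.Ico (a + 1) (a + 1 + 210) = Finset.Ioc a (a + 210) := by
    ext k; simp only [Finset.mem_Ico, Finset.mem_Ioc]; omega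
  rw [h2] at h
  have h3 : Nat.totient 210 = 48 := by decide +kernel
  rw [h3] at h
  rw [← h]
  congr 1
  apply Finset.filter_congr
  intro k _
  exact Nat.coprime_comm

theorem card_rough_add (F : ℕ) : (rough (F + 420)).card = (rough F).card + 48 := by
  unfold rough
  have hd : (F + 420) / 2 = F / 2 + 210 := by omega
  rw [hd]
  have hsplit : Finset.Ioc (F / 2 + 210) (F + 420)
      = Finset.Ioc (F / 2 + 210) (F + 210) ∪ Finset.Ioc (F + 210) (F + 210 + 210) := by
    ext k; simp only [Finset.mem_Ioc, Finset.mem_union]; omega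
  rw [hsplit, Finset.filter_union, Finset.card_union_of_disjoint]
  · rw [card_Ioc_shift, card_period]
  · rw [Finset.disjoint_left]
    intro k hk hk'
    simp only [Finset.mem_filter, Finset.mem_Ioc] at hk hk'
    omega

theorem rough_small : ∀ F ∈ Finset.Ico 200 620, 8 * (rough F).card ≤ F := by
  decide +kernel

theorem rough_large (F : ℕ) (hF : 200 ≤ F) : 8 * (rough F).card ≤ F := by
  induction F using Nat.strong_induction_on with
  | _ F ih =>
    by_cases h : F < 620
    · exact rough_small F (by simp; omega)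
    · have h1 := ih (F - 420) (by omega) (by omega)
      have h2 := card_rough_add (F - 420)
      rw [show F - 420 + 420 = F by omega] at h2
      omega

theorem rough_quarter_small : ∀ F ∈ Finset.Ico 2 200, 4 * (rough F).card ≤ F := by
  decide +kernel

theorem rough_quarter (F : ℕ) (hF : 2 ≤ F) : 4 * (rough F).card ≤ F := by
  by_cases h : F < 200
  · exact rough_quarter_small F (by simp; omega)
  · have := rough_large F (by omega)
    omega

/-- The nine local conditions: pairs `(K, b)`. -/
def localList : List (Finset ℕ × ℕ) :=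
  [({11, 13}, 1), ({11, 13, 17, 19}, 2), ({13, 17, 19, 23}, 2), ({17, 19, 23, 29, 31}, 3),
   ({23, 29, 31, 37, 41, 43}, 5), ({29, 31, 37, 41, 43, 47}, 5),
   ({31, 37, 41, 43, 47, 53, 59, 61}, 7), ({37, 41, 43, 47, 53, 59, 61, 67, 71}, 8),
   ({41, 43, 47, 53, 59, 61, 67, 71, 73, 79}, 9)]

/-- For each `F < 200`, either the trivial bound is enough, or one of the nine conditions (or the
scaled first one) is. -/
theorem rough_cases : ∀ F ∈ Finset.Ico 4 200,
    (8 * (rough F).card ≤ F) ∨
    (∃ P ∈ localList, 8 * (P.2 + (rough F \ P.1).card) ≤ F) ∨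
    (F = 199 ∧ 8 * (1 + (rough F \ {121, 143}).card) ≤ F) := by
  decide +kernel

/-- Real-variable version: integers in `(Y/2, Y]`. -/
theorem mem_rough_of_real {Y : ℝ} {k : ℕ} (h1 : Y / 2 < k) (h2 : (k : ℝ) ≤ Y)
    (hk : Nat.Coprime k 210) : k ∈ rough ⌊Y⌋₊ := by
  have hkF : k ≤ ⌊Y⌋₊ := Nat.le_floor h2
  unfold rough
  simp only [Finset.mem_filter, Finset.mem_Ioc]
  refine ⟨⟨?_, hkF⟩, hk⟩
  have hY : (0:ℝ) ≤ Y := le_trans (by positivity) h2
  have h3 : (⌊Y⌋₊ : ℝ) ≤ Y := Nat.floor_le hY
  have h4 : (⌊Y⌋₊ : ℝ) < 2 * k := by linarith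
  have h5 : ⌊Y⌋₊ < 2 * k := by exact_mod_cast h4
  omega

end Pool.Agent.Work.MP_92f640_nt
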