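import Mathlib

/-!
# Definitions for Q1
-/

namespace Pool.Agent.Work.MP_92f640_nt

/-- `g(n)`: the number of ordered pairs of primes with sum `n`. -/
def goldbachCount (n : ℕ) : ℕ :=
  ((Finset.range (n + 1)).filter (fun p : ℕ => p.Prime ∧ (n - p).Prime)).card

/-- `n` is exceptional for `δ` if `g(n) < δ n / log² n`. -/
def Bad (δ : ℝ) (n : ℕ) : Prop :=
  (goldbachCount n : ℝ) < δ * (n : ℝ) / (Real.log (n : ℝ)) ^ 2

open Classical in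
/-- The even multiples `n` of `q` in `(x/2, x]` that are exceptional for `δ`. -/
noncomputable def exceptions (δ x : ℝ) (q : ℕ) : Finset ℕ :=
  (Finset.Icc 1 ⌊x⌋₊).filter (fun n : ℕ => x / 2 < (n : ℝ) ∧ Even n ∧ q ∣ n ∧ Bad δ n)

theorem mem_exceptions {δ x : ℝ} {q n : ℕ} :
    n ∈ exceptions δ x q ↔ (1 ≤ n ∧ n ≤ ⌊x⌋₊) ∧ x / 2 < (n : ℝ) ∧ Even n ∧ q ∣ n ∧ Bad δ n := by
  classical
  unfold exceptions
  rw [Finset.mem_filter, Finset.mem_Icc]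

/-- The assertion of Q1 restricted to the moduli `q ≤ x ^ ε`. -/
def Q1UpTo (ε : ℝ) : Prop :=
  ∃ δ : ℝ, 0 < δ ∧ ∃ x₀ : ℝ, ∀ x : ℝ, x₀ ≤ x → ∀ q : ℕ, 1 ≤ q → (q : ℝ) ≤ x / 4 →
    (q : ℝ) ≤ x ^ ε → ((exceptions δ x q).card : ℝ) ≤ x / (8 * (q : ℝ))

end Pool.Agent.Work.MP_92f640_nt
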