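import Mathlib

/-!
# Elementary summation lemmas
-/

namespace Pool.Agent.Work.MP_92f640_nt

open Finset

/-- Abel summation bound. -/
theorem abel_bound (f : ℕ → ℝ) {Q : ℝ} (hsum : ∀ N, |∑ n ∈ Finset.Ioc 0 N, f n| ≤ Q)
    (g : ℕ → ℝ) {B : ℕ} (N : ℕ) (hanti : ∀ b, B < b → g (b + 1) ≤ g b)
    (hg0 : ∀ b, B < b → 0 ≤ g b) :
    |∑ b ∈ Finset.Ioc B N, f b * g b| ≤ 2 * Q * g (B + 1) := by
  have hQ : 0 ≤ Q := le_trans (abs_nonneg _) (hsum 0)
  have hgB : 0 ≤ g (B + 1) := hg0 _ (by omega)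
  set S : ℕ → ℝ := fun N => ∑ n ∈ Finset.Ioc 0 N, f n with hS
  have hSs : ∀ N, S (N + 1) = S N + f (N + 1) := by
    intro N
    simp only [hS]
    rw [Finset.sum_Ioc_succ_top (by omega)]
  rcases Nat.lt_or_ge B N with hBN | hBN
  · -- main induction
    have key : ∀ N, B + 1 ≤ N →
        |∑ b ∈ Finset.Ioc B N, f b * g b - (S N - S B) * g N| ≤ 2 * Q * (g (B + 1) - g N) := by
      intro N hN
      induction N, hN using Nat.le_induction with
      | base =>
        rw [Finset.sum_Ioc_succ_top (le_refl B)]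
        rw [hSs]
        simp
      | succ N hN ih =>
        rw [Finset.sum_Ioc_succ_top (by omega), hSs]
        have h1 : ∑ k ∈ Finset.Ioc B N, f k * g k + f (N + 1) * g (N + 1)
            - (S N + f (N + 1) - S B) * g (N + 1)
          = (∑ k ∈ Finset.Ioc B N, f k * g k - (S N - S B) * g N)
            + (S N - S B) * (g N - g (N + 1)) := by ring
        rw [h1]
        have h2 : |(S N - S B) * (g N - g (N + 1))| ≤ 2 * Q * (g N - g (N + 1)) := by
          have h3 : 0 ≤ g N - g (N + 1) := by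
            have := hanti N (by omega); linarith
          rw [abs_mul, abs_of_nonneg h3]
          apply mul_le_mul_of_nonneg_right _ h3
          have := hsum N
          have := hsum B
          calc |S N - S B| ≤ |S N| + |S B| := abs_sub _ _
            _ ≤ 2 * Q := by linarith
        calc _ ≤ _ := abs_add_le _ _
          _ ≤ 2 * Q * (g (B + 1) - g N) + 2 * Q * (g N - g (N + 1)) := add_le_add ih h2
          _ = _ := by ring
    have h1 := key N hBN
    have h2 : |(S N - S B) * g N| ≤ 2 * Q * g N := by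
      have h3 := hg0 N hBN
      rw [abs_mul, abs_of_nonneg h3]
      apply mul_le_mul_of_nonneg_right _ h3
      have := hsum N
      have := hsum B
      calc |S N - S B| ≤ |S N| + |S B| := abs_sub _ _
        _ ≤ 2 * Q := by linarith
    calc |∑ b ∈ Finset.Ioc B N, f b * g b|
        = |(∑ b ∈ Finset.Ioc B N, f b * g b - (S N - S B) * g N) + (S N - S B) * g N| := by
          congr 1; ring
      _ ≤ _ := abs_add_le _ _
      _ ≤ 2 * Q * (g (B + 1) - g N) + 2 * Q * g N := add_le_add h1 h2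
      _ = _ := by ring
  · rw [Finset.Ioc_eq_empty_of_le hBN, Finset.sum_empty, abs_zero]
    positivity

/-- `g_s(m) = ∑_{a ≤ m} a^{-s}`. -/
noncomputable def gs (s : ℝ) (m : ℕ) : ℝ := ∑ a ∈ Finset.Ioc 0 m, (a : ℝ) ^ (-s)

theorem gs_mono (s : ℝ) {m n : ℕ} (h : m ≤ n) : gs s m ≤ gs s n := by
  unfold gs
  apply Finset.sum_le_sum_of_subset_of_nonneg
  · intro a ha
    rw [Finset.mem_Ioc] at ha ⊢
    exact ⟨ha.1, ha.2.trans h⟩
  · intro i _ _; positivity

theorem gs_nonneg (s : ℝ) (m : ℕ) : 0 ≤ gs s m := by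
  unfold gs
  exact Finset.sum_nonneg (fun i _ => by positivity)

theorem gs_succ (s : ℝ) (m : ℕ) : gs s (m + 1) = gs s m + ((m + 1 : ℕ) : ℝ) ^ (-s) := by
  unfold gs
  rw [Finset.sum_Ioc_succ_top (by omega)]

/-! ### the case `0 < β < 1` -/

theorem rpow_step_upper {β x : ℝ} (hβ0 : 0 < β) (hβ1 : β < 1) (hx : 0 < x) :
    (x + 1) ^ (1 - β) ≤ x ^ (1 - β) + (1 - β) * x ^ (-β) := by
  have h1 := rpow_one_add_le_one_add_mul_self (s := 1 / x) (p := 1 - β)
    (by have : 0 < 1 / x := by positivity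
        linarith) (by linarith) (by linarith)
  have h2 : (x + 1) ^ (1 - β) = x ^ (1 - β) * (1 + 1 / x) ^ (1 - β) := by
    rw [← Real.mul_rpow hx.le (by positivity)]
    congr 1
    field_simp
  have h3 : x ^ (-β) = x ^ (1 - β) * (1 / x) := by
    rw [show (-β) = (1 - β) - 1 by ring, Real.rpow_sub_one hx.ne']
    ring
  rw [h2, h3]
  calc x ^ (1 - β) * (1 + 1 / x) ^ (1 - β) ≤ x ^ (1 - β) * (1 + (1 - β) * (1 / x)) := by gcongr
    _ = _ := by ring

theorem rpow_step_lower {β x : ℝ} (hβ0 : 0 < β) (hβ1 : β < 1) (hx : 0 ≤ x) :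
    x ^ (1 - β) + (1 - β) * (x + 1) ^ (-β) ≤ (x + 1) ^ (1 - β) := by
  have hx1 : 0 < x + 1 := by linarith
  have h1 := rpow_one_add_le_one_add_mul_self (s := -(1 / (x + 1))) (p := 1 - β)
    (by have : 1 / (x + 1) ≤ 1 := by
          rw [div_le_one hx1]; linarith
        linarith) (by linarith) (by linarith)
  have h2 : x ^ (1 - β) = (x + 1) ^ (1 - β) * (1 + -(1 / (x + 1))) ^ (1 - β) := by
    rw [← Real.mul_rpow hx1.le]
    · congr 1
      field_simp
      ring
    · have : 1 / (x + 1) ≤ 1 := by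
        rw [div_le_one hx1]; linarith
      linarith
  have h3 : (x + 1) ^ (-β) = (x + 1) ^ (1 - β) * (1 / (x + 1)) := by
    rw [show (-β) = (1 - β) - 1 by ring, Real.rpow_sub_one hx1.ne']
    ring
  rw [h2, h3]
  have h4 : (x + 1) ^ (1 - β) * (1 + -(1 / (x + 1))) ^ (1 - β)
      ≤ (x + 1) ^ (1 - β) * (1 + (1 - β) * -(1 / (x + 1))) := by gcongr
  calc _ ≤ (x + 1) ^ (1 - β) * (1 + (1 - β) * -(1 / (x + 1)))
        + (1 - β) * ((x + 1) ^ (1 - β) * (1 / (x + 1))) := by linarith
    _ = _ := by ring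

/-- comparison of `gs` at two points, upper bound -/
theorem gs_diff_upper {β : ℝ} (hβ0 : 0 < β) (hβ1 : β < 1) {m n : ℕ} (h : m ≤ n) :
    (1 - β) * (gs β n - gs β m) ≤ (n : ℝ) ^ (1 - β) - (m : ℝ) ^ (1 - β) := by
  induction n, h using Nat.le_induction with
  | base => simp
  | succ n hn ih =>
    rw [gs_succ]
    have h1 := rpow_step_lower hβ0 hβ1 (x := (n : ℝ)) (by positivity)
    push_cast
    linarith

/-- comparison of `gs` at two points, lower bound -/
theorem gs_diff_lower {β : ℝ} (hβ0 : 0 < β) (hβ1 : β < 1) {m n : ℕ} (hm : 0 < m) (h : m ≤ n) :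
    (n : ℝ) ^ (1 - β) - (m : ℝ) ^ (1 - β) - (1 - β) * (m : ℝ) ^ (-β)
      ≤ (1 - β) * (gs β n - gs β m) := by
  have key : ((n : ℝ) + 1) ^ (1 - β) - ((m : ℝ) + 1) ^ (1 - β)
      ≤ (1 - β) * (gs β n - gs β m) := by
    induction n, h using Nat.le_induction with
    | base => simp
    | succ n hn ih =>
      rw [gs_succ]
      have h1 := rpow_step_upper hβ0 hβ1 (x := (n : ℝ) + 1) (by positivity)
      push_cast
      linarith
  have h1 := rpow_step_upper hβ0 hβ1 (x := (m : ℝ)) (by positivity)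
  have h2 : (n : ℝ) ^ (1 - β) ≤ ((n : ℝ) + 1) ^ (1 - β) := by
    apply Real.rpow_le_rpow (by positivity) (by linarith) (by linarith)
  linarith

/-- the constant `κ` -/
noncomputable def kap (β : ℝ) (z : ℕ) : ℝ := (1 - β) * gs β z - (z : ℝ) ^ (1 - β)

theorem gs_one (β : ℝ) : gs β 1 = 1 := by
  unfold gs; simp

theorem kap_abs_le {β : ℝ} (hβ0 : 0 < β) (hβ1 : β < 1) {z : ℕ} (hz : 0 < z) : |kap β z| ≤ 1 := by
  have h1 := gs_diff_upper hβ0 hβ1 (m := 1) (n := z) hz
  have h2 := gs_diff_lower hβ0 hβ1 (m := 1) (n := z) one_pos hz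
  rw [gs_one] at h1 h2
  simp only [Nat.cast_one, Real.one_rpow] at h1 h2
  unfold kap
  rw [abs_le]
  constructor <;> nlinarith

/-- main comparison: for `t` real with `m = ⌊t⌋ ≤ z`. -/
theorem gs_floor_approx {β : ℝ} (hβ0 : 0 < β) (hβ1 : β < 1) {z m : ℕ} {t : ℝ} (hm : 0 < m)
    (hmz : m ≤ z) (h1 : (m : ℝ) ≤ t) (h2 : t ≤ m + 1) :
    |(1 - β) * gs β m - t ^ (1 - β) - kap β z| ≤ (m : ℝ) ^ (-β) := by
  have h3 := gs_diff_upper hβ0 hβ1 hmz
  have h4 := gs_diff_lower hβ0 hβ1 hm hmz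
  have h5 := rpow_step_upper hβ0 hβ1 (x := (m : ℝ)) (by positivity)
  have h6 : (m : ℝ) ^ (1 - β) ≤ t ^ (1 - β) :=
    Real.rpow_le_rpow (by positivity) h1 (by linarith)
  have h7 : t ^ (1 - β) ≤ ((m : ℝ) + 1) ^ (1 - β) :=
    Real.rpow_le_rpow (le_trans (by positivity) h1) h2 (by linarith)
  have h8 : 0 < (m : ℝ) ^ (-β) := by positivity
  have h9 : (1 - β) * (m : ℝ) ^ (-β) ≤ (m : ℝ) ^ (-β) := by nlinarith
  unfold kap
  rw [abs_le]
  constructor <;> nlinarith

/-- `(1-β) g_β(m) ≤ m^{1-β}`. -/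
theorem gs_le {β : ℝ} (hβ0 : 0 < β) (hβ1 : β < 1) {m : ℕ} (hm : 0 < m) :
    (1 - β) * gs β m ≤ (m : ℝ) ^ (1 - β) := by
  have h1 := gs_diff_upper hβ0 hβ1 (m := 1) (n := m) hm
  rw [gs_one] at h1
  simp only [Nat.cast_one, Real.one_rpow] at h1
  nlinarith

/-! ### the case `s = 1` -/

theorem gs1_succ (m : ℕ) : gs 1 (m + 1) = gs 1 m + 1 / ((m : ℝ) + 1) := by
  rw [gs_succ, Real.rpow_neg_one]
  push_cast
  rw [one_div]

theorem log_step_upper {x : ℝ} (hx : 0 < x) : Real.log (x + 1) ≤ Real.log x + 1 / x := by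
  have h : Real.log (x + 1) = Real.log x + Real.log (1 + 1 / x) := by
    rw [← Real.log_mul hx.ne' (by positivity)]
    congr 1
    field_simp
  rw [h]
  have h2 := Real.log_le_sub_one_of_pos (x := 1 + 1 / x) (by positivity)
  linarith

theorem log_step_lower {x : ℝ} (hx : 0 < x) : Real.log x + 1 / (x + 1) ≤ Real.log (x + 1) := by
  have h : Real.log x = Real.log (x + 1) + Real.log (1 - 1 / (x + 1)) := by
    rw [← Real.log_mul (by positivity)]
    · congr 1
      field_simp
      ring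
    · have : 1 / (x + 1) < 1 := by
        rw [div_lt_one (by positivity)]; linarith
      linarith
  rw [h]
  have h2 := Real.log_le_sub_one_of_pos (x := 1 - 1 / (x + 1)) (by
    have : 1 / (x + 1) < 1 := by
        rw [div_lt_one (by positivity)]; linarith
    linarith)
  linarith

theorem gs1_diff_upper {m n : ℕ} (hm : 0 < m) (h : m ≤ n) :
    gs 1 n - gs 1 m ≤ Real.log n - Real.log m := by
  induction n, h using Nat.le_induction with
  | base => simp
  | succ n hn ih =>
    rw [gs1_succ]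
    have hn0 : (0 : ℝ) < n := by
      have : 0 < n := by omega
      exact_mod_cast this
    have h1 := log_step_lower hn0
    push_cast
    linarith

theorem gs1_diff_lower {m n : ℕ} (h : m ≤ n) :
    Real.log ((n : ℝ) + 1) - Real.log ((m : ℝ) + 1) ≤ gs 1 n - gs 1 m := by
  induction n, h using Nat.le_induction with
  | base => simp
  | succ n hn ih =>
    rw [gs1_succ]
    have h1 := log_step_upper (x := (n : ℝ) + 1) (by positivity)
    push_cast
    linarith

theorem gs1_le_log {m : ℕ} (hm : 0 < m) : gs 1 m ≤ 1 + Real.log m := by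
  have h1 := gs1_diff_upper (m := 1) (n := m) one_pos hm
  rw [gs_one] at h1
  simp only [Nat.cast_one, Real.log_one] at h1
  linarith

/-- comparison of harmonic sums at `y/b` and `z/b` with `log (y/z)`. -/
theorem gs1_floor_approx {y z b : ℕ} (hb : 0 < b) (hbz : b ≤ z) (hzy : z ≤ y) :
    |gs 1 (y / b) - gs 1 (z / b) - (Real.log y - Real.log z)| ≤ 1 / ((z / b : ℕ) : ℝ) := by
  set m : ℕ := z / b with hm
  set n : ℕ := y / b with hn
  have hm0 : 0 < m := Nat.div_pos hbz hb
  have hmn : m ≤ n := Nat.div_le_div_right hzy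
  have hmR : (0 : ℝ) < m := by exact_mod_cast hm0
  have hnR : (0 : ℝ) < n := by
    have : 0 < n := by omega
    exact_mod_cast this
  have hbR : (0 : ℝ) < b := by exact_mod_cast hb
  have hz0 : (0 : ℝ) < z := by
    have : 0 < z := by omega
    exact_mod_cast this
  have hy0 : (0 : ℝ) < y := by
    have : 0 < y := by omega
    exact_mod_cast this
  -- b m ≤ z < b (m+1)
  have e1 : (b : ℝ) * m ≤ z := by exact_mod_cast Nat.mul_div_le z b
  have e2 : (z : ℝ) ≤ b * (m + 1) := by
    have : z < b * (z / b + 1) := Nat.lt_mul_div_succ z hb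
    exact_mod_cast this.le
  have e3 : (b : ℝ) * n ≤ y := by exact_mod_cast Nat.mul_div_le y b
  have e4 : (y : ℝ) ≤ b * (n + 1) := by
    have : y < b * (y / b + 1) := Nat.lt_mul_div_succ y hb
    exact_mod_cast this.le
  have l1 : Real.log b + Real.log m ≤ Real.log z := by
    rw [← Real.log_mul hbR.ne' hmR.ne']
    exact Real.log_le_log (by positivity) e1
  have l2 : Real.log z ≤ Real.log b + Real.log (m + 1) := by
    rw [← Real.log_mul hbR.ne' (by positivity)]
    exact Real.log_le_log (by positivity) e2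
  have l3 : Real.log b + Real.log n ≤ Real.log y := by
    rw [← Real.log_mul hbR.ne' hnR.ne']
    exact Real.log_le_log (by positivity) e3
  have l4 : Real.log y ≤ Real.log b + Real.log (n + 1) := by
    rw [← Real.log_mul hbR.ne' (by positivity)]
    exact Real.log_le_log (by positivity) e4
  have h1 := gs1_diff_upper hm0 hmn
  have h2 := gs1_diff_lower hmn
  have h3 := log_step_upper hmR
  rw [abs_le]
  constructor <;> linarith

end Pool.Agent.Work.MP_92f640_nt
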