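import Mathlib
import Pool.Agent.Work.MP_92f640_nt.Abel

/-!
# The function `1 * χ` for a real character
-/

namespace Pool.Agent.Work.MP_92f640_nt

open Finset

/-- The elementary properties of a real character used below. -/
structure IsRChar (f : ArithmeticFunction ℝ) (Q : ℝ) : Prop where
  map_one : f 1 = 1
  map_mul : ∀ m n, f (m * n) = f m * f n
  val : ∀ n, f n = 0 ∨ f n = 1 ∨ f n = -1
  sum_le : ∀ N, |∑ n ∈ Finset.Ioc 0 N, f n| ≤ Q

/-- `1 * f`. -/
noncomputable def rr (f : ArithmeticFunction ℝ) : ArithmeticFunction ℝ :=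
  f * (ArithmeticFunction.zeta : ArithmeticFunction ℝ)

theorem rr_apply (f : ArithmeticFunction ℝ) (n : ℕ) : rr f n = ∑ d ∈ n.divisors, f d := by
  unfold rr
  rw [ArithmeticFunction.coe_mul_zeta_apply]

variable {f : ArithmeticFunction ℝ} {Q : ℝ}

theorem IsRChar.abs_f_le (hf : IsRChar f Q) (n : ℕ) : |f n| ≤ 1 := by
  rcases hf.val n with h | h | h <;> rw [h] <;> norm_num

theorem IsRChar.Q_nonneg (hf : IsRChar f Q) : 0 ≤ Q := (abs_nonneg _).trans (hf.sum_le 0)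

theorem IsRChar.Q_ge_one (hf : IsRChar f Q) : 1 ≤ Q := by
  have h := hf.sum_le 1
  simp [hf.map_one] at h
  exact h

theorem IsRChar.isMult (hf : IsRChar f Q) : f.IsMultiplicative :=
  ⟨hf.map_one, fun {m n} _ => hf.map_mul m n⟩

theorem IsRChar.rr_isMult (hf : IsRChar f Q) : (rr f).IsMultiplicative :=
  hf.isMult.mul ArithmeticFunction.isMultiplicative_zeta.natCast

theorem IsRChar.map_pow (hf : IsRChar f Q) (n k : ℕ) : f (n ^ k) = f n ^ k := by
  induction k with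
  | zero => simp [hf.map_one]
  | succ k ih => rw [pow_succ, hf.map_mul, ih, pow_succ]

theorem IsRChar.rr_prime_pow_nonneg (hf : IsRChar f Q) {p : ℕ} (hp : p.Prime) (k : ℕ) :
    0 ≤ rr f (p ^ k) := by
  rw [rr_apply, Nat.sum_divisors_prime_pow hp]
  simp_rw [hf.map_pow]
  rcases hf.val p with h | h | h
  · rw [h]
    apply Finset.sum_nonneg
    intro i _; positivity
  · rw [h]
    apply Finset.sum_nonneg
    intro i _; positivity
  · rw [h, neg_one_geom_sum]
    split_ifs <;> norm_num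

theorem IsRChar.rr_nonneg (hf : IsRChar f Q) (n : ℕ) : 0 ≤ rr f n := by
  rcases Nat.eq_zero_or_pos n with h | h
  · rw [h]; simp
  · rw [hf.rr_isMult.multiplicative_factorization _ h.ne']
    unfold Finsupp.prod
    apply Finset.prod_nonneg
    intro p hp
    apply hf.rr_prime_pow_nonneg
    rw [Nat.support_factorization] at hp
    exact Nat.prime_of_mem_primeFactors hp

theorem IsRChar.rr_one (hf : IsRChar f Q) : rr f 1 = 1 := hf.rr_isMult.1

theorem IsRChar.rr_prime (hf : IsRChar f Q) {p : ℕ} (hp : p.Prime) : rr f p = 1 + f p := by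
  rw [rr_apply, hp.sum_divisors]
  rw [hf.map_one]
  ring

/-- weighted sums of `1 * f`. -/
noncomputable def US (f : ArithmeticFunction ℝ) (s : ℝ) (N : ℕ) : ℝ :=
  ∑ n ∈ Finset.Ioc 0 N, rr f n * (n : ℝ) ^ (-s)

theorem US_eq (f : ArithmeticFunction ℝ) {s : ℝ} (hs : s ≠ 0) (N : ℕ) :
    US f s N = ∑ b ∈ Finset.Ioc 0 N, f b * ((b : ℝ) ^ (-s) * gs s (N / b)) := by
  let F : ArithmeticFunction ℝ := ⟨fun n => f n * (n : ℝ) ^ (-s), by simp⟩
  let Z : ArithmeticFunction ℝ := ⟨fun n => (n : ℝ) ^ (-s), by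
    simp [Real.zero_rpow (neg_ne_zero.2 hs)]⟩
  have h1 := ArithmeticFunction.sum_Ioc_mul_eq_sum_sum F Z N
  have h2 : ∀ n ∈ Finset.Ioc 0 N, (F * Z) n = rr f n * (n : ℝ) ^ (-s) := by
    intro n hn
    rw [Finset.mem_Ioc] at hn
    unfold rr
    rw [ArithmeticFunction.mul_apply, ArithmeticFunction.mul_apply, Finset.sum_mul]
    apply Finset.sum_congr rfl
    intro x hx
    rw [Nat.mem_divisorsAntidiagonal] at hx
    have hx1 : x.1 ≠ 0 := by
      rintro h; rw [h] at hx; simp at hx; omega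
    have hx2 : x.2 ≠ 0 := by
      rintro h; rw [h] at hx; simp at hx; omega
    change f x.1 * (x.1 : ℝ) ^ (-s) * (x.2 : ℝ) ^ (-s) = _
    rw [← hx.1, ArithmeticFunction.natCoe_apply, ArithmeticFunction.zeta_apply, if_neg hx2]
    push_cast
    rw [Real.mul_rpow (by positivity) (by positivity)]
    ring
  unfold US
  rw [← Finset.sum_congr rfl h2, h1]
  apply Finset.sum_congr rfl
  intro b _
  change f b * (b : ℝ) ^ (-s) * gs s (N / b) = _
  ring

theorem IsRChar.US_mono (hf : IsRChar f Q) (s : ℝ) {m n : ℕ} (h : m ≤ n) :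
    US f s m ≤ US f s n := by
  unfold US
  apply Finset.sum_le_sum_of_subset_of_nonneg
  · intro a ha
    rw [Finset.mem_Ioc] at ha ⊢
    exact ⟨ha.1, ha.2.trans h⟩
  · intro i _ _
    exact mul_nonneg (hf.rr_nonneg i) (by positivity)

theorem IsRChar.one_le_US (hf : IsRChar f Q) (s : ℝ) {N : ℕ} (hN : 1 ≤ N) : 1 ≤ US f s N := by
  refine le_trans ?_ (hf.US_mono s hN)
  unfold US
  simp [hf.rr_one]

/-- the function `b ↦ b^{-s} g_s(N/b)` is antitone -/
theorem anti_aux {s : ℝ} (hs : 0 < s) (N b : ℕ) (hb : 0 < b) :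
    (((b + 1 : ℕ) : ℝ)) ^ (-s) * gs s (N / (b + 1)) ≤ ((b : ℝ)) ^ (-s) * gs s (N / b) := by
  have h1 : (((b + 1 : ℕ) : ℝ)) ^ (-s) ≤ ((b : ℝ)) ^ (-s) := by
    apply Real.rpow_le_rpow_of_nonpos
    · exact_mod_cast hb
    · push_cast; linarith
    · linarith
  have h2 : gs s (N / (b + 1)) ≤ gs s (N / b) := gs_mono s (Nat.div_le_div_left (by omega) hb)
  have := gs_nonneg s (N / (b + 1))
  have h3 : (0 : ℝ) ≤ (((b + 1 : ℕ) : ℝ)) ^ (-s) := by positivity
  have h4 : (0 : ℝ) ≤ ((b : ℝ)) ^ (-s) := by positivity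
  exact mul_le_mul h1 h2 this h4

theorem IsRChar.tail_bound (hf : IsRChar f Q) {s : ℝ} (hs : 0 < s) (N w M : ℕ) :
    |∑ b ∈ Finset.Ioc w M, f b * ((b : ℝ) ^ (-s) * gs s (N / b))|
      ≤ 2 * Q * ((((w + 1 : ℕ) : ℝ)) ^ (-s) * gs s (N / (w + 1))) := by
  apply abel_bound (fun b => f b) hf.sum_le (fun b => (b : ℝ) ^ (-s) * gs s (N / b)) M
  · intro b hb
    exact anti_aux hs N b (by omega)
  · intro b _
    exact mul_nonneg (by positivity) (gs_nonneg _ _)

theorem sum_split (w N : ℕ) (h : w ≤ N) (g : ℕ → ℝ) :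
    ∑ b ∈ Finset.Ioc 0 N, g b = ∑ b ∈ Finset.Ioc 0 w, g b + ∑ b ∈ Finset.Ioc w N, g b := by
  rw [← Finset.sum_Ioc_consecutive g (Nat.zero_le w) h]

/-- lower bound for `b ⌊w²/b⌋` -/
theorem mul_div_ge {w b : ℕ} (hw : 2 ≤ w) (hbw : b ≤ w) (hb : 0 < b) :
    (w : ℝ) ^ 2 / 2 ≤ (b : ℝ) * ((w ^ 2 / b : ℕ) : ℝ) := by
  have h1 : w ^ 2 < b * (w ^ 2 / b + 1) := Nat.lt_mul_div_succ (w ^ 2) hb
  have h2 : (w : ℝ) ^ 2 < (b : ℝ) * (((w ^ 2 / b : ℕ) : ℝ) + 1) := by exact_mod_cast h1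
  have h3 : (b : ℝ) ≤ w := by exact_mod_cast hbw
  have h4 : (2 : ℝ) ≤ w := by exact_mod_cast hw
  nlinarith

/-- (B1) -/
theorem IsRChar.US_diff_le (hf : IsRChar f Q) {L : ℝ} {w y : ℕ} (hw : 2 ≤ w) (hy : w ^ 2 ≤ y)
    (hL : |L - ∑ b ∈ Finset.Ioc 0 w, f b * (b : ℝ) ^ (-(1 : ℝ))| ≤ 2 * Q / w) :
    US f 1 y - US f 1 (w ^ 2) ≤ L * (Real.log y - Real.log ((w ^ 2 : ℕ) : ℝ))
      + (6 * Q * Real.log y + 4 * Q + 2) / w := by
  have hQ := hf.Q_nonneg
  have hwR : (2 : ℝ) ≤ w := by exact_mod_cast hw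
  have hw0 : (0 : ℝ) < w := by linarith
  have hwz : w ≤ w ^ 2 := by nlinarith
  have hz0 : 0 < w ^ 2 := by positivity
  have hy0 : 0 < y := by omega
  have hyR : (1 : ℝ) ≤ y := by exact_mod_cast hy0
  have hlogy : 0 ≤ Real.log y := Real.log_nonneg hyR
  have hzR : (1 : ℝ) ≤ ((w ^ 2 : ℕ) : ℝ) := by exact_mod_cast hz0
  have hlogz : 0 ≤ Real.log ((w ^ 2 : ℕ) : ℝ) := Real.log_nonneg hzR
  have hzy : ((w ^ 2 : ℕ) : ℝ) ≤ y := by exact_mod_cast hy
  have hlogzy : Real.log ((w ^ 2 : ℕ) : ℝ) ≤ Real.log y := Real.log_le_log (by linarith) hzy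
  set z : ℕ := w ^ 2 with hz
  set X : ℝ := ∑ b ∈ Finset.Ioc 0 w, f b * (b : ℝ) ^ (-(1 : ℝ)) with hX
  rw [US_eq f one_ne_zero, US_eq f one_ne_zero, sum_split w y (hwz.trans hy), sum_split w z hwz]
  have hA : ∑ b ∈ Finset.Ioc 0 w, f b * ((b : ℝ) ^ (-(1 : ℝ)) * gs 1 (y / b))
      - ∑ b ∈ Finset.Ioc 0 w, f b * ((b : ℝ) ^ (-(1 : ℝ)) * gs 1 (z / b))
      ≤ X * (Real.log y - Real.log z) + 2 / w := by
    rw [← Finset.sum_sub_distrib, hX, Finset.sum_mul]
    have h1 : ∀ b ∈ Finset.Ioc 0 w, f b * ((b : ℝ) ^ (-(1 : ℝ)) * gs 1 (y / b))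
        - f b * ((b : ℝ) ^ (-(1 : ℝ)) * gs 1 (z / b))
        ≤ f b * (b : ℝ) ^ (-(1 : ℝ)) * (Real.log y - Real.log z) + 2 / (w : ℝ) ^ 2 := by
      intro b hb
      rw [Finset.mem_Ioc] at hb
      have hbR : (0 : ℝ) < b := by exact_mod_cast hb.1
      have h2 := gs1_floor_approx (y := y) (z := z) hb.1 (hb.2.trans hwz) hy
      have h3 := mul_div_ge hw hb.2 hb.1
      have hm0 : 0 < z / b := Nat.div_pos (hb.2.trans hwz) hb.1
      have hmR : (0 : ℝ) < ((z / b : ℕ) : ℝ) := by exact_mod_cast hm0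
      have h4 : f b * ((b : ℝ) ^ (-(1 : ℝ)) * gs 1 (y / b))
        - f b * ((b : ℝ) ^ (-(1 : ℝ)) * gs 1 (z / b))
        = f b * (b : ℝ) ^ (-(1 : ℝ)) * (Real.log y - Real.log z)
          + f b * (b : ℝ) ^ (-(1 : ℝ)) *
            (gs 1 (y / b) - gs 1 (z / b) - (Real.log y - Real.log z)) := by ring
      rw [h4]
      have h5 : f b * (b : ℝ) ^ (-(1 : ℝ)) *
            (gs 1 (y / b) - gs 1 (z / b) - (Real.log y - Real.log z)) ≤ 2 / (w : ℝ) ^ 2 := by
        refine (le_abs_self _).trans ?_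
        rw [abs_mul, abs_mul, Real.rpow_neg_one]
        have h6 : |((b : ℝ))⁻¹| = ((b : ℝ))⁻¹ := abs_of_pos (by positivity)
        rw [h6]
        calc |f b| * ((b : ℝ))⁻¹ * |gs 1 (y / b) - gs 1 (z / b) - (Real.log y - Real.log z)|
            ≤ 1 * ((b : ℝ))⁻¹ * (1 / ((z / b : ℕ) : ℝ)) := by
              have := hf.abs_f_le b
              gcongr
          _ = 1 / ((b : ℝ) * ((z / b : ℕ) : ℝ)) := by field_simp
          _ ≤ 1 / ((w : ℝ) ^ 2 / 2) := by
              apply one_div_le_one_div_of_le (by positivity) h3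
          _ = 2 / (w : ℝ) ^ 2 := by field_simp
      linarith
    refine (Finset.sum_le_sum h1).trans ?_
    rw [Finset.sum_add_distrib, Finset.sum_const, Nat.card_Ioc, nsmul_eq_mul, Nat.sub_zero]
    have h7 : (w : ℝ) * (2 / (w : ℝ) ^ 2) = 2 / w := by field_simp
    rw [h7]
  have hB := hf.tail_bound one_pos y w y
  have hC := hf.tail_bound one_pos z w z
  have hbd : ∀ N : ℕ, w < N → (((w + 1 : ℕ) : ℝ)) ^ (-(1 : ℝ)) * gs 1 (N / (w + 1))
      ≤ (1 + Real.log N) / w := by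
    intro N hN
    rw [Real.rpow_neg_one]
    have hN' : 0 < N / (w + 1) := Nat.div_pos hN (by omega)
    have h1 := gs1_le_log hN'
    have h2 : Real.log ((N / (w + 1) : ℕ) : ℝ) ≤ Real.log N := by
      apply Real.log_le_log (by exact_mod_cast hN')
      exact_mod_cast Nat.div_le_self N (w + 1)
    have hNR : (1 : ℝ) ≤ N := by
      have : 1 ≤ N := by omega
      exact_mod_cast this
    have hlogN := Real.log_nonneg hNR
    have h3 : (((w + 1 : ℕ) : ℝ))⁻¹ ≤ ((w : ℝ))⁻¹ := by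
      apply inv_anti₀ hw0
      push_cast; linarith
    calc (((w + 1 : ℕ) : ℝ))⁻¹ * gs 1 (N / (w + 1)) ≤ ((w : ℝ))⁻¹ * (1 + Real.log N) := by
          apply mul_le_mul h3 (by linarith) (gs_nonneg _ _) (by positivity)
      _ = (1 + Real.log N) / w := by rw [inv_mul_eq_div]
  have hwy : w < y := by nlinarith
  have hwz' : w < z := by nlinarith
  have hB' := hB.trans (mul_le_mul_of_nonneg_left (hbd y hwy) (by positivity))
  have hC' := hC.trans (mul_le_mul_of_nonneg_left (hbd z hwz') (by positivity))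
  have hB2 := (le_abs_self _).trans hB'
  have hC2 := (neg_abs_le _).trans' (neg_le_neg hC')
  have hLX : X * (Real.log y - Real.log z) ≤ L * (Real.log y - Real.log z)
      + 2 * Q / w * Real.log y := by
    have h1 := (abs_le.1 hL).1
    have h2 : 0 ≤ Real.log y - Real.log z := by linarith
    have h3 : X - L ≤ 2 * Q / w := by linarith
    have h4 : 0 ≤ 2 * Q / w := by positivity
    nlinarith
  have hCz : 2 * Q * ((1 + Real.log z) / w) ≤ 2 * Q * ((1 + Real.log y) / w) := by gcongr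
  have hfin : (6 * Q * Real.log y + 4 * Q + 2) / w
      = 2 * Q / w * Real.log y + 2 / w + 2 * Q * ((1 + Real.log y) / w)
        + 2 * Q * ((1 + Real.log y) / w) := by
    field_simp; ring
  rw [hfin]
  linarith

/-- (B2) -/
theorem IsRChar.L_le (hf : IsRChar f Q) {L β : ℝ} (hβ0 : 0 < β) (hβ1 : β < 1) {w : ℕ}
    (hw : 2 ≤ w)
    (hL : |L - ∑ b ∈ Finset.Ioc 0 w, f b * (b : ℝ) ^ (-(1 : ℝ))| ≤ 2 * Q / w)
    (h0 : |∑ b ∈ Finset.Ioc 0 w, f b * (b : ℝ) ^ (-β)| ≤ 2 * Q * (w : ℝ) ^ (-β)) :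
    L ≤ (1 - β) * US f 1 (w ^ 2) + (6 * Q + 2) / w := by
  have hQ := hf.Q_nonneg
  have hwR : (2 : ℝ) ≤ w := by exact_mod_cast hw
  have hw0 : (0 : ℝ) < w := by linarith
  have hw1 : (1 : ℝ) ≤ w := by linarith
  have hwz : w ≤ w ^ 2 := by nlinarith
  have hz0 : 0 < w ^ 2 := by positivity
  set z : ℕ := w ^ 2 with hz
  have hzR : (z : ℝ) = (w : ℝ) ^ 2 := by rw [hz]; push_cast; ring
  have hzpos : (0 : ℝ) < z := by exact_mod_cast hz0
  set X : ℝ := ∑ b ∈ Finset.Ioc 0 w, f b * (b : ℝ) ^ (-(1 : ℝ)) with hX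
  set Lw : ℝ := ∑ b ∈ Finset.Ioc 0 w, f b * (b : ℝ) ^ (-β) with hLw
  -- powers of w
  have hpow : ∀ a : ℝ, (z : ℝ) ^ a = (w : ℝ) ^ (2 * a) := by
    intro a
    rw [hzR, ← Real.rpow_natCast, ← Real.rpow_mul hw0.le]
    norm_num
  set W : ℝ := (w : ℝ) ^ (1 - 2 * β) with hW
  have hWpos : 0 < W := by positivity
  have hmain : (z : ℝ) ^ (1 - β) * L ≤ (1 - β) * US f β z + (6 * Q + 2) * W := by
    have h1 : (1 - β) * US f β z = ∑ b ∈ Finset.Ioc 0 w, f b * ((b : ℝ) ^ (-β) *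
        ((1 - β) * gs β (z / b)))
        + (1 - β) * ∑ b ∈ Finset.Ioc w z, f b * ((b : ℝ) ^ (-β) * gs β (z / b)) := by
      rw [US_eq f hβ0.ne', sum_split w z hwz, mul_add, Finset.mul_sum]
      congr 1
      apply Finset.sum_congr rfl
      intro b _; ring
    have h2 : ∑ b ∈ Finset.Ioc 0 w, f b * ((b : ℝ) ^ (-β) * ((1 - β) * gs β (z / b)))
        = (z : ℝ) ^ (1 - β) * X + kap β z * Lw
          + ∑ b ∈ Finset.Ioc 0 w, f b * ((b : ℝ) ^ (-β) *
            ((1 - β) * gs β (z / b) - ((z : ℝ) / b) ^ (1 - β) - kap β z)) := by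
      rw [hX, hLw, Finset.mul_sum, Finset.mul_sum, ← Finset.sum_add_distrib,
        ← Finset.sum_add_distrib]
      apply Finset.sum_congr rfl
      intro b hb
      rw [Finset.mem_Ioc] at hb
      have hbR : (0 : ℝ) < b := by exact_mod_cast hb.1
      have h3 : (b : ℝ) ^ (-β) * ((z : ℝ) / b) ^ (1 - β)
          = (z : ℝ) ^ (1 - β) * (b : ℝ) ^ (-(1 : ℝ)) := by
        rw [Real.div_rpow hzpos.le hbR.le, div_eq_mul_inv, ← Real.rpow_neg hbR.le,
          ← mul_assoc, mul_comm ((b : ℝ) ^ (-β)), mul_assoc, ← Real.rpow_add hbR]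
        congr 2
        ring
      linear_combination (f b) * h3
    have h3 : |∑ b ∈ Finset.Ioc 0 w, f b * ((b : ℝ) ^ (-β) *
            ((1 - β) * gs β (z / b) - ((z : ℝ) / b) ^ (1 - β) - kap β z))| ≤ 2 * W := by
      refine (Finset.abs_sum_le_sum_abs _ _).trans ?_
      have h4 : ∀ b ∈ Finset.Ioc 0 w, |f b * ((b : ℝ) ^ (-β) *
            ((1 - β) * gs β (z / b) - ((z : ℝ) / b) ^ (1 - β) - kap β z))|
            ≤ 2 * (w : ℝ) ^ (-(2 * β)) := by
        intro b hb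
        rw [Finset.mem_Ioc] at hb
        have hbR : (0 : ℝ) < b := by exact_mod_cast hb.1
        have hm0 : 0 < z / b := Nat.div_pos (hb.2.trans hwz) hb.1
        have hmR : (0 : ℝ) < ((z / b : ℕ) : ℝ) := by exact_mod_cast hm0
        have e1 : ((z / b : ℕ) : ℝ) ≤ (z : ℝ) / b := Nat.cast_div_le
        have e2 : (z : ℝ) / b ≤ ((z / b : ℕ) : ℝ) + 1 := by
          rw [div_le_iff₀ hbR]
          have : z < b * (z / b + 1) := Nat.lt_mul_div_succ z hb.1
          have h5 : (z : ℝ) < (b : ℝ) * (((z / b : ℕ) : ℝ) + 1) := by exact_mod_cast this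
          linarith
        have h5 := gs_floor_approx hβ0 hβ1 (z := z) (m := z / b) (t := (z : ℝ) / b) hm0
          (Nat.div_le_self z b) e1 e2
        rw [abs_mul, abs_mul, abs_of_pos (show (0 : ℝ) < (b : ℝ) ^ (-β) by positivity)]
        have h6 := mul_div_ge hw hb.2 hb.1
        calc |f b| * ((b : ℝ) ^ (-β) * |(1 - β) * gs β (z / b) - ((z : ℝ) / b) ^ (1 - β)
              - kap β z|)
            ≤ 1 * ((b : ℝ) ^ (-β) * (((z / b : ℕ) : ℝ)) ^ (-β)) := by
              have := hf.abs_f_le b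
              gcongr
          _ = ((b : ℝ) * ((z / b : ℕ) : ℝ)) ^ (-β) := by
              rw [one_mul, Real.mul_rpow hbR.le hmR.le]
          _ ≤ ((w : ℝ) ^ 2 / 2) ^ (-β) := by
              apply Real.rpow_le_rpow_of_nonpos (by positivity) h6 (by linarith)
          _ = (2 : ℝ) ^ β * (w : ℝ) ^ (-(2 * β)) := by
              rw [Real.div_rpow (by positivity) (by norm_num), ← Real.rpow_natCast,
                ← Real.rpow_mul hw0.le, div_eq_mul_inv, ← Real.rpow_neg (by norm_num)]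
              rw [mul_comm]
              congr 2
              · ring
              · push_cast; ring
          _ ≤ 2 * (w : ℝ) ^ (-(2 * β)) := by
              have : (2 : ℝ) ^ β ≤ (2 : ℝ) ^ (1 : ℝ) :=
                Real.rpow_le_rpow_of_exponent_le (by norm_num) hβ1.le
              rw [Real.rpow_one] at this
              gcongr
      refine (Finset.sum_le_sum h4).trans ?_
      rw [Finset.sum_const, Nat.card_Ioc, nsmul_eq_mul, Nat.sub_zero]
      apply le_of_eq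
      rw [hW, show (1 - 2 * β) = 1 + (-(2 * β)) by ring, Real.rpow_add hw0, Real.rpow_one]
      ring
    have h4 : |(1 - β) * ∑ b ∈ Finset.Ioc w z, f b * ((b : ℝ) ^ (-β) * gs β (z / b))|
        ≤ 2 * Q * W := by
      rw [abs_mul, abs_of_pos (by linarith : 0 < 1 - β)]
      have h5 := hf.tail_bound hβ0 z w z
      have hm0 : 0 < z / (w + 1) := Nat.div_pos (by nlinarith) (by omega)
      have h6 := gs_le hβ0 hβ1 hm0
      have h7 : (((z / (w + 1) : ℕ) : ℝ)) ≤ w := by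
        have : z / (w + 1) ≤ w := by
          rw [Nat.div_le_iff_le_mul_add_pred (by omega)]
          nlinarith
        exact_mod_cast this
      have h8 : (((z / (w + 1) : ℕ) : ℝ)) ^ (1 - β) ≤ (w : ℝ) ^ (1 - β) :=
        Real.rpow_le_rpow (by positivity) h7 (by linarith)
      have h9 : (((w + 1 : ℕ) : ℝ)) ^ (-β) ≤ (w : ℝ) ^ (-β) := by
        apply Real.rpow_le_rpow_of_nonpos hw0
        · push_cast; linarith
        · linarith
      calc (1 - β) * |∑ b ∈ Finset.Ioc w z, f b * ((b : ℝ) ^ (-β) * gs β (z / b))|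
          ≤ (1 - β) * (2 * Q * ((((w + 1 : ℕ) : ℝ)) ^ (-β) * gs β (z / (w + 1)))) := by
            apply mul_le_mul_of_nonneg_left h5 (by linarith)
        _ = 2 * Q * ((((w + 1 : ℕ) : ℝ)) ^ (-β) * ((1 - β) * gs β (z / (w + 1)))) := by ring
        _ ≤ 2 * Q * ((w : ℝ) ^ (-β) * (w : ℝ) ^ (1 - β)) := by
            apply mul_le_mul_of_nonneg_left _ (by positivity)
            apply mul_le_mul h9 (h6.trans h8) _ (by positivity)
            apply mul_nonneg (by linarith) (gs_nonneg _ _)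
        _ = 2 * Q * W := by
            rw [← Real.rpow_add hw0, hW]
            congr 2
            ring
    have h5 : |kap β z * Lw| ≤ 2 * Q * W := by
      rw [abs_mul]
      have h6 := kap_abs_le hβ0 hβ1 hz0
      have h7 : (w : ℝ) ^ (-β) ≤ W := by
        rw [hW]
        apply Real.rpow_le_rpow_of_exponent_le hw1
        linarith
      calc |kap β z| * |Lw| ≤ 1 * (2 * Q * (w : ℝ) ^ (-β)) := by gcongr
        _ ≤ 2 * Q * W := by
          rw [one_mul]; gcongr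
    have h6 : (z : ℝ) ^ (1 - β) * L ≤ (z : ℝ) ^ (1 - β) * X + 2 * Q * W := by
      have h7 := (abs_le.1 hL).2
      have h8 : L ≤ X + 2 * Q / w := by linarith
      calc (z : ℝ) ^ (1 - β) * L ≤ (z : ℝ) ^ (1 - β) * (X + 2 * Q / w) := by gcongr
        _ = (z : ℝ) ^ (1 - β) * X + 2 * Q * W := by
          rw [mul_add]
          congr 1
          rw [hpow, hW, show (1 - 2 * β) = (2 * (1 - β)) - 1 by ring, Real.rpow_sub_one hw0.ne']
          ring
    have h7 := (abs_le.1 h3).1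
    have h8 := (abs_le.1 h4).1
    have h9 := (abs_le.1 h5).1
    rw [h1, h2]
    nlinarith
  -- compare US β with US 1
  have hcmp : US f β z ≤ (z : ℝ) ^ (1 - β) * US f 1 z := by
    unfold US
    rw [Finset.mul_sum]
    apply Finset.sum_le_sum
    intro n hn
    rw [Finset.mem_Ioc] at hn
    have hnR : (0 : ℝ) < n := by exact_mod_cast hn.1
    have h1 : (n : ℝ) ^ (-β) ≤ (z : ℝ) ^ (1 - β) * (n : ℝ) ^ (-(1 : ℝ)) := by
      have h2 : (n : ℝ) ^ (-β) = (n : ℝ) ^ (1 - β) * (n : ℝ) ^ (-(1 : ℝ)) := by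
        rw [← Real.rpow_add hnR]; congr 1; ring
      rw [h2]
      apply mul_le_mul_of_nonneg_right _ (by positivity)
      apply Real.rpow_le_rpow hnR.le _ (by linarith)
      exact_mod_cast hn.2
    calc rr f n * (n : ℝ) ^ (-β) ≤ rr f n * ((z : ℝ) ^ (1 - β) * (n : ℝ) ^ (-(1 : ℝ))) :=
          mul_le_mul_of_nonneg_left h1 (hf.rr_nonneg n)
      _ = _ := by ring
  have hzb : 0 < (z : ℝ) ^ (1 - β) := by positivity
  have hWz : W = (z : ℝ) ^ (1 - β) * (w : ℝ)⁻¹ := by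
    rw [hpow, hW, show (1 - 2 * β) = (2 * (1 - β)) - 1 by ring, Real.rpow_sub_one hw0.ne',
      div_eq_mul_inv]
  have hfin : (z : ℝ) ^ (1 - β) * L
      ≤ (z : ℝ) ^ (1 - β) * ((1 - β) * US f 1 z + (6 * Q + 2) / w) := by
    calc (z : ℝ) ^ (1 - β) * L ≤ (1 - β) * US f β z + (6 * Q + 2) * W := hmain
      _ ≤ (1 - β) * ((z : ℝ) ^ (1 - β) * US f 1 z) + (6 * Q + 2) * W := by
          have : 0 ≤ 1 - β := by linarith
          gcongr
      _ = _ := by rw [hWz]; ring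
  exact le_of_mul_le_mul_left hfin hzb

end Pool.Agent.Work.MP_92f640_nt
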