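import Mathlib
import Pool.Agent.Work.MP_92f640_nt.Lambda

/-!
# Primes with `f p = 1` and the sums of `1 * f`
-/

namespace Pool.Agent.Work.MP_92f640_nt

open Finset

variable {f : ArithmeticFunction ℝ} {Q : ℝ}

open Classical in
/-- primes `p ∈ (a, b]` with `f p = 1`. -/
noncomputable def splitPrimes (f : ArithmeticFunction ℝ) (a b : ℕ) : Finset ℕ :=
  (Finset.Ioc a b).filter (fun p => p.Prime ∧ f p = 1)

theorem mem_splitPrimes {a b p : ℕ} :
    p ∈ splitPrimes f a b ↔ (a < p ∧ p ≤ b) ∧ p.Prime ∧ f p = 1 := by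
  classical
  unfold splitPrimes
  rw [Finset.mem_filter, Finset.mem_Ioc]

/-- (B3) -/
theorem IsRChar.prime_sum_le (hf : IsRChar f Q) {z y : ℕ} (hz : 1 ≤ z) (hzy : z ≤ y) :
    2 * (∑ p ∈ splitPrimes f z y, ((p : ℝ))⁻¹) * US f 1 z ≤ US f 1 (y * z) - US f 1 z := by
  classical
  have h1 : US f 1 (y * z) - US f 1 z
      = ∑ n ∈ Finset.Ioc z (y * z), rr f n * (n : ℝ) ^ (-(1 : ℝ)) := by
    unfold US
    rw [sum_split z (y * z) (by nlinarith)]
    ring
  rw [h1]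
  have hinj : Set.InjOn (fun x : ℕ × ℕ => x.1 * x.2)
      ((splitPrimes f z y ×ˢ Finset.Ioc 0 z : Finset (ℕ × ℕ)) : Set (ℕ × ℕ)) := by
    rintro ⟨p, m⟩ hx ⟨p', m'⟩ hx' h
    simp only [Finset.coe_product, Set.mem_prod, Finset.mem_coe, mem_splitPrimes,
      Finset.mem_Ioc] at hx hx' h
    obtain ⟨⟨⟨a1, a2⟩, a3, a4⟩, a5, a6⟩ := hx
    obtain ⟨⟨⟨b1, b2⟩, b3, b4⟩, b5, b6⟩ := hx'
    have h2 : p ∣ p' * m' := h ▸ Dvd.intro m rfl
    have h3 : p = p' := by
      rcases (Nat.Prime.dvd_mul a3).1 h2 with h4 | h4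
      · exact (Nat.prime_dvd_prime_iff_eq a3 b3).1 h4
      · have := Nat.le_of_dvd b5 h4
        omega
    subst h3
    have h4 : m = m' := Nat.eq_of_mul_eq_mul_left a3.pos h
    rw [h4]
  have hsub : (splitPrimes f z y ×ˢ Finset.Ioc 0 z).image (fun x : ℕ × ℕ => x.1 * x.2)
      ⊆ Finset.Ioc z (y * z) := by
    intro n hn
    rw [Finset.mem_image] at hn
    obtain ⟨x, hx, rfl⟩ := hn
    rw [Finset.mem_product, mem_splitPrimes, Finset.mem_Ioc] at hx
    obtain ⟨⟨⟨a1, a2⟩, a3, a4⟩, a5, a6⟩ := hx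
    rw [Finset.mem_Ioc]
    constructor
    · nlinarith
    · exact Nat.mul_le_mul a2 a6
  calc 2 * (∑ p ∈ splitPrimes f z y, ((p : ℝ))⁻¹) * US f 1 z
      = ∑ x ∈ splitPrimes f z y ×ˢ Finset.Ioc 0 z,
          rr f (x.1 * x.2) * (((x.1 * x.2 : ℕ)) : ℝ) ^ (-(1 : ℝ)) := by
        rw [Finset.sum_product, mul_assoc, Finset.sum_mul, Finset.mul_sum]
        apply Finset.sum_congr rfl
        intro p hp
        unfold US
        rw [Finset.mul_sum, Finset.mul_sum]
        apply Finset.sum_congr rfl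
        intro m hm
        rw [mem_splitPrimes] at hp
        rw [Finset.mem_Ioc] at hm
        obtain ⟨⟨a1, a2⟩, a3, a4⟩ := hp
        have hcop : Nat.Coprime p m := by
          rw [Nat.Prime.coprime_iff_not_dvd a3]
          intro h
          have := Nat.le_of_dvd hm.1 h
          omega
        simp only
        rw [hf.rr_isMult.map_mul_of_coprime hcop, hf.rr_prime a3, a4, Real.rpow_neg_one,
          Real.rpow_neg_one]
        push_cast
        rw [mul_inv]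
        ring
    _ = ∑ n ∈ (splitPrimes f z y ×ˢ Finset.Ioc 0 z).image (fun x : ℕ × ℕ => x.1 * x.2),
          rr f n * (n : ℝ) ^ (-(1 : ℝ)) := by
        rw [Finset.sum_image hinj]
    _ ≤ _ := by
        apply Finset.sum_le_sum_of_subset_of_nonneg hsub
        intro i _ _
        exact mul_nonneg (hf.rr_nonneg i) (by positivity)

theorem telescope (u : ℕ → ℝ) {a b : ℕ} (h : a ≤ b) :
    ∑ t ∈ Finset.Ico a b, (u t - u (t + 1)) = u a - u b := by
  induction b, h using Nat.le_induction with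
  | base => simp
  | succ n hn ih => rw [Finset.sum_Ico_succ_top hn, ih]; ring

/-- From counts to the sum of reciprocals. -/
theorem recip_sum_ge {c : ℝ} (hc : 0 < c) {z : ℕ} (hz : 2 ≤ z)
    (hcount : ∀ t : ℕ, z ^ 2 ≤ t → t ≤ z ^ 4 → c * ((t : ℝ) / Real.log t) ≤
      (splitPrimes f 0 t).card)
    (hsmall : ∀ t : ℕ, z ^ 2 ≤ t → t ≤ z ^ 4 → (z : ℝ) ≤ c / 2 * ((t : ℝ) / Real.log t)) :
    c / 8 ≤ ∑ p ∈ splitPrimes f z (z ^ 4), ((p : ℝ))⁻¹ := by
  classical
  have hzR : (2 : ℝ) ≤ z := by exact_mod_cast hz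
  have hz0 : (0 : ℝ) < z := by linarith
  set y : ℕ := z ^ 4 with hy
  have hz2 : 4 ≤ z ^ 2 := by nlinarith
  have hzy : z ^ 2 ≤ y := by
    rw [hy]; exact Nat.pow_le_pow_right (by omega) (by norm_num)
  have hyR : (y : ℝ) = (z : ℝ) ^ 4 := by rw [hy]; push_cast; ring
  have hy0 : (0 : ℝ) < y := by rw [hyR]; positivity
  have hlogz : 0 < Real.log z := Real.log_pos (by linarith)
  have hlogy : Real.log y = 4 * Real.log z := by rw [hyR, Real.log_pow]; norm_num
  have h1 : ∀ p ∈ splitPrimes f z y, ∑ t ∈ Finset.Ico (z ^ 2) y,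
      (if p ≤ t then ((t : ℝ))⁻¹ - (((t + 1 : ℕ) : ℝ))⁻¹ else 0) ≤ ((p : ℝ))⁻¹ := by
    intro p hp
    rw [mem_splitPrimes] at hp
    obtain ⟨⟨a1, a2⟩, a3, _⟩ := hp
    rw [← Finset.sum_filter]
    have h2 : (Finset.Ico (z ^ 2) y).filter (fun t => p ≤ t) = Finset.Ico (max (z ^ 2) p) y := by
      ext t
      simp only [Finset.mem_filter, Finset.mem_Ico, max_le_iff]
      omega
    rw [h2]
    have hmax : max (z ^ 2) p ≤ y := max_le hzy a2
    rw [telescope (fun t => ((t : ℝ))⁻¹) hmax]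
    have h3 : (((max (z ^ 2) p : ℕ)) : ℝ)⁻¹ ≤ ((p : ℝ))⁻¹ := by
      apply inv_anti₀
      · exact_mod_cast a3.pos
      · exact_mod_cast le_max_right _ _
    have h4 : (0 : ℝ) ≤ ((y : ℝ))⁻¹ := by positivity
    linarith
  have h2 : ∑ t ∈ Finset.Ico (z ^ 2) y, (((t : ℝ))⁻¹ - (((t + 1 : ℕ) : ℝ))⁻¹) *
      (((splitPrimes f z y).filter (fun p => p ≤ t)).card : ℝ)
      ≤ ∑ p ∈ splitPrimes f z y, ((p : ℝ))⁻¹ := by
    refine le_trans (le_of_eq ?_) (Finset.sum_le_sum h1)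
    rw [Finset.sum_comm]
    apply Finset.sum_congr rfl
    intro t _
    rw [← Finset.sum_filter, Finset.sum_const, nsmul_eq_mul, mul_comm]
  refine le_trans ?_ h2
  have h3 : ∀ t ∈ Finset.Ico (z ^ 2) y, c / 2 / Real.log y * (1 / ((t : ℝ) + 1)) ≤
      (((t : ℝ))⁻¹ - (((t + 1 : ℕ) : ℝ))⁻¹) *
      (((splitPrimes f z y).filter (fun p => p ≤ t)).card : ℝ) := by
    intro t ht
    rw [Finset.mem_Ico] at ht
    have ht4 : 4 ≤ t := by omega
    have htR : (4 : ℝ) ≤ t := by exact_mod_cast ht4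
    have ht0 : (0 : ℝ) < t := by linarith
    have hlogt : 0 < Real.log t := Real.log_pos (by linarith)
    have hlogty : Real.log t ≤ Real.log y := by
      apply Real.log_le_log ht0
      exact_mod_cast ht.2.le
    have h4 := hcount t ht.1 ht.2.le
    have h5 := hsmall t ht.1 ht.2.le
    -- card of primes in (z, t]
    have h6 : ((splitPrimes f 0 t).card : ℝ) ≤ z +
        (((splitPrimes f z y).filter (fun p => p ≤ t)).card : ℝ) := by
      have h7 : splitPrimes f 0 t ⊆ Finset.Ioc 0 z ∪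
          (splitPrimes f z y).filter (fun p => p ≤ t) := by
        intro p hp
        rw [mem_splitPrimes] at hp
        rw [Finset.mem_union, Finset.mem_Ioc, Finset.mem_filter, mem_splitPrimes]
        by_cases h8 : p ≤ z
        · exact Or.inl ⟨hp.1.1, h8⟩
        · exact Or.inr ⟨⟨⟨by omega, by omega⟩, hp.2⟩, hp.1.2⟩
      have h8 := (Finset.card_le_card h7).trans (Finset.card_union_le _ _)
      rw [Nat.card_Ioc, Nat.sub_zero] at h8
      exact_mod_cast h8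
    have h7 : c / 2 * ((t : ℝ) / Real.log t) ≤
        (((splitPrimes f z y).filter (fun p => p ≤ t)).card : ℝ) := by
      linarith
    have h8 : ((t : ℝ))⁻¹ - (((t + 1 : ℕ) : ℝ))⁻¹ = 1 / ((t : ℝ) * (t + 1)) := by
      push_cast
      field_simp
      ring
    rw [h8]
    calc c / 2 / Real.log y * (1 / ((t : ℝ) + 1)) ≤ c / 2 / Real.log t * (1 / ((t : ℝ) + 1)) := by
          gcongr
      _ = 1 / ((t : ℝ) * (t + 1)) * (c / 2 * ((t : ℝ) / Real.log t)) := by
          field_simp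
      _ ≤ _ := by gcongr
  refine le_trans ?_ (Finset.sum_le_sum h3)
  rw [← Finset.mul_sum]
  have h4 : gs 1 y - gs 1 (z ^ 2) = ∑ t ∈ Finset.Ico (z ^ 2) y, (1 / ((t : ℝ) + 1)) := by
    have h5 := telescope (fun t => - gs 1 t) hzy
    have h6 : gs 1 y - gs 1 (z ^ 2) = - gs 1 (z ^ 2) - - gs 1 y := by ring
    rw [h6, ← h5]
    apply Finset.sum_congr rfl
    intro t _
    rw [gs1_succ]; ring
  rw [← h4]
  have h5 := gs1_diff_lower hzy
  have h6 : Real.log z ≤ Real.log ((y : ℝ) + 1) - Real.log (((z ^ 2 : ℕ) : ℝ) + 1) := by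
    have h7 : Real.log (((z ^ 2 : ℕ) : ℝ) + 1) ≤ 3 * Real.log z := by
      have h8 : 3 * Real.log z = Real.log ((z : ℝ) ^ 3) := by rw [Real.log_pow]; norm_num
      rw [h8]
      apply Real.log_le_log (by positivity)
      push_cast
      nlinarith [sq_nonneg ((z : ℝ))]
    have h8 : Real.log y ≤ Real.log ((y : ℝ) + 1) := Real.log_le_log hy0 (by linarith)
    linarith
  have h7 : Real.log z ≤ gs 1 y - gs 1 (z ^ 2) := h6.trans h5
  calc c / 8 = c / 2 / Real.log y * Real.log z := by rw [hlogy]; field_simp; norm_num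
    _ ≤ _ := by
      apply mul_le_mul_of_nonneg_left h7
      rw [hlogy]; positivity

/-- Combination for the zero. -/
theorem IsRChar.zero_bound (hf : IsRChar f Q) {L β c : ℝ} (hc : 0 < c) (hβ0 : 0 < β)
    (hβ1 : β < 1) {w : ℕ} (hw : 3 ≤ w)
    (hL : |L - ∑ b ∈ Finset.Ioc 0 w, f b * (b : ℝ) ^ (-(1 : ℝ))| ≤ 2 * Q / w)
    (h0 : |∑ b ∈ Finset.Ioc 0 w, f b * (b : ℝ) ^ (-β)| ≤ 2 * Q * (w : ℝ) ^ (-β))
    (hP : c / 8 ≤ ∑ p ∈ splitPrimes f (w ^ 2) ((w ^ 2) ^ 4), ((p : ℝ))⁻¹)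
    (hsm : 200 * Q * Real.log w / w ≤ c / 8) :
    c / 64 ≤ (1 - β) * Real.log w := by
  have hQ := hf.Q_ge_one
  have hwR : (3 : ℝ) ≤ w := by exact_mod_cast hw
  have hw0 : (0 : ℝ) < w := by linarith
  have hlogw : 1 ≤ Real.log w := by
    rw [← Real.log_exp 1]
    apply Real.log_le_log (Real.exp_pos 1)
    have := Real.exp_one_lt_d9
    linarith
  set z : ℕ := w ^ 2 with hz
  have hz1 : 1 ≤ z := Nat.one_le_pow _ _ (by omega)
  have hzy : z ≤ z ^ 4 := Nat.le_self_pow (by norm_num) z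
  have hB3 := hf.prime_sum_le hz1 hzy
  have hzyz : z ≤ z ^ 4 * z := Nat.le_mul_of_pos_left z (by positivity)
  have hB1 := hf.US_diff_le (L := L) (w := w) (y := z ^ 4 * z) (by omega) (by rw [← hz]; exact hzyz)
    hL
  rw [← hz] at hB1
  have hB2 := hf.L_le hβ0 hβ1 (by omega) hL h0
  rw [← hz] at hB2
  have hU := hf.one_le_US 1 hz1
  set P : ℝ := ∑ p ∈ splitPrimes f z (z ^ 4), ((p : ℝ))⁻¹ with hPdef
  set U : ℝ := US f 1 z with hUdef
  have hlogz : Real.log (z : ℝ) = 2 * Real.log w := by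
    rw [hz]; push_cast; rw [Real.log_pow]; norm_num
  have hlogyz : Real.log ((z ^ 4 * z : ℕ) : ℝ) = 10 * Real.log w := by
    have : ((z ^ 4 * z : ℕ) : ℝ) = (z : ℝ) ^ 5 := by push_cast; ring
    rw [this, Real.log_pow, hlogz]; push_cast; ring
  rw [hlogyz, hlogz] at hB1
  -- 2 P U ≤ L (8 log w) + E1
  have h1 : 2 * P * U ≤ L * (8 * Real.log w) + (6 * Q * (10 * Real.log w) + 4 * Q + 2) / w := by
    have : L * (10 * Real.log w - 2 * Real.log w) = L * (8 * Real.log w) := by ring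
    linarith
  have h2 : L * (8 * Real.log w) ≤ ((1 - β) * U + (6 * Q + 2) / w) * (8 * Real.log w) := by
    gcongr
  have h3 : 2 * P * U ≤ (1 - β) * U * (8 * Real.log w)
      + ((6 * Q + 2) * (8 * Real.log w) + (6 * Q * (10 * Real.log w) + 4 * Q + 2)) / w := by
    have : ((1 - β) * U + (6 * Q + 2) / w) * (8 * Real.log w)
      = (1 - β) * U * (8 * Real.log w) + ((6 * Q + 2) * (8 * Real.log w)) / w := by ring
    rw [add_div]
    linarith
  have h4 : ((6 * Q + 2) * (8 * Real.log w) + (6 * Q * (10 * Real.log w) + 4 * Q + 2)) / w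
      ≤ 200 * Q * Real.log w / w := by
    apply div_le_div_of_nonneg_right _ hw0.le
    nlinarith [mul_nonneg (sub_nonneg.2 hQ) (sub_nonneg.2 hlogw)]
  have h5 : 2 * P * U ≤ (1 - β) * U * (8 * Real.log w) + c / 8 := by linarith
  have h6 : c / 8 ≤ c / 8 * U := by nlinarith
  have hU0 : 0 < U := by linarith
  have h7 : 2 * P * U ≤ ((1 - β) * (8 * Real.log w) + c / 8) * U := by
    calc _ ≤ _ := h5
      _ ≤ (1 - β) * U * (8 * Real.log w) + c / 8 * U := by linarith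
      _ = _ := by ring
  have h8 : 2 * P ≤ (1 - β) * (8 * Real.log w) + c / 8 := le_of_mul_le_mul_right h7 hU0
  linarith

/-- Combination for the value at `1`. -/
theorem IsRChar.L_bound (hf : IsRChar f Q) {L c G : ℝ} (hc : 0 < c) {w : ℕ} (hw : 3 ≤ w)
    (hL : |L - ∑ b ∈ Finset.Ioc 0 w, f b * (b : ℝ) ^ (-(1 : ℝ))| ≤ 2 * Q / w)
    (hP : c / 8 ≤ ∑ p ∈ splitPrimes f (w ^ 2) ((w ^ 2) ^ 4), ((p : ℝ))⁻¹)
    (hG : G ≤ US f 1 (w ^ 2)) (hG0 : 1 ≤ G)
    (hsm : 200 * Q * Real.log w / w ≤ c / 8) :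
    c * G / 64 ≤ L * Real.log w := by
  have hQ := hf.Q_ge_one
  have hwR : (3 : ℝ) ≤ w := by exact_mod_cast hw
  have hw0 : (0 : ℝ) < w := by linarith
  have hlogw : 1 ≤ Real.log w := by
    rw [← Real.log_exp 1]
    apply Real.log_le_log (Real.exp_pos 1)
    have := Real.exp_one_lt_d9
    linarith
  set z : ℕ := w ^ 2 with hz
  have hz1 : 1 ≤ z := Nat.one_le_pow _ _ (by omega)
  have hzy : z ≤ z ^ 4 := Nat.le_self_pow (by norm_num) z
  have hB3 := hf.prime_sum_le hz1 hzy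
  have hzyz : z ≤ z ^ 4 * z := Nat.le_mul_of_pos_left z (by positivity)
  have hB1 := hf.US_diff_le (L := L) (w := w) (y := z ^ 4 * z) (by omega) (by rw [← hz]; exact hzyz)
    hL
  rw [← hz] at hB1
  set P : ℝ := ∑ p ∈ splitPrimes f z (z ^ 4), ((p : ℝ))⁻¹ with hPdef
  set U : ℝ := US f 1 z with hUdef
  have hlogz : Real.log (z : ℝ) = 2 * Real.log w := by
    rw [hz]; push_cast; rw [Real.log_pow]; norm_num
  have hlogyz : Real.log ((z ^ 4 * z : ℕ) : ℝ) = 10 * Real.log w := by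
    have : ((z ^ 4 * z : ℕ) : ℝ) = (z : ℝ) ^ 5 := by push_cast; ring
    rw [this, Real.log_pow, hlogz]; push_cast; ring
  rw [hlogyz, hlogz] at hB1
  have h1 : 2 * P * U ≤ L * (8 * Real.log w) + (6 * Q * (10 * Real.log w) + 4 * Q + 2) / w := by
    have : L * (10 * Real.log w - 2 * Real.log w) = L * (8 * Real.log w) := by ring
    linarith
  have h4 : (6 * Q * (10 * Real.log w) + 4 * Q + 2) / w ≤ 200 * Q * Real.log w / w := by
    apply div_le_div_of_nonneg_right _ hw0.le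
    nlinarith [mul_nonneg (sub_nonneg.2 hQ) (sub_nonneg.2 hlogw)]
  have h5 : 2 * (c / 8) * G ≤ 2 * P * U := by
    gcongr
  nlinarith

end Pool.Agent.Work.MP_92f640_nt
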