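import Mathlib
import Pool.Agent.Work.MP_92f640_nt.Lambda2
import Pool.Agent.Work.MP_92f640_nt.LConv

/-!
# From a real Dirichlet character to `IsRChar`
-/

namespace Pool.Agent.Work.MP_92f640_nt

open Finset Filter Topology

theorem IsRChar.approx {f : ArithmeticFunction ℝ} {Q : ℝ} (hf : IsRChar f Q) {σ L : ℝ}
    (hσ : 0 < σ)
    (hlim : Tendsto (fun N : ℕ => ∑ b ∈ Finset.Ioc 0 N, f b * (b : ℝ) ^ (-σ)) atTop (𝓝 L))
    {w : ℕ} (hw : 0 < w) :
    |L - ∑ b ∈ Finset.Ioc 0 w, f b * (b : ℝ) ^ (-σ)| ≤ 2 * Q * (w : ℝ) ^ (-σ) := by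
  have hwR : (0 : ℝ) < w := by exact_mod_cast hw
  have h1 : Tendsto (fun N : ℕ => |∑ b ∈ Finset.Ioc 0 N, f b * (b : ℝ) ^ (-σ)
      - ∑ b ∈ Finset.Ioc 0 w, f b * (b : ℝ) ^ (-σ)|) atTop
      (𝓝 |L - ∑ b ∈ Finset.Ioc 0 w, f b * (b : ℝ) ^ (-σ)|) :=
    (hlim.sub_const _).abs
  refine le_of_tendsto h1 ?_
  filter_upwards [eventually_ge_atTop w] with N hN
  rw [sum_split w N hN, add_sub_cancel_left]
  have h2 := abel_bound (fun b => f b) hf.sum_le (fun b => (b : ℝ) ^ (-σ)) (B := w) N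
    (by
      intro b hb
      apply Real.rpow_le_rpow_of_nonpos
      · have : 0 < b := by omega
        exact_mod_cast this
      · push_cast; linarith
      · linarith)
    (by intro b _; positivity)
  refine h2.trans ?_
  have h3 : (((w + 1 : ℕ)) : ℝ) ^ (-σ) ≤ (w : ℝ) ^ (-σ) := by
    apply Real.rpow_le_rpow_of_nonpos hwR
    · push_cast; linarith
    · linarith
  have := hf.Q_nonneg
  gcongr

section
variable {q : ℕ} [NeZero q] (χ : DirichletCharacter ℂ q)

/-- the real part of a Dirichlet character as an arithmetic function. -/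
noncomputable def reChar (χ : DirichletCharacter ℂ q) : ArithmeticFunction ℝ :=
  ⟨fun n => if n = 0 then 0 else (χ (n : ZMod q)).re, by simp⟩

theorem reChar_apply {n : ℕ} (hn : n ≠ 0) : reChar χ n = (χ (n : ZMod q)).re := by
  change (if n = 0 then 0 else (χ (n : ZMod q)).re) = _
  rw [if_neg hn]

theorem quad_eq_re (hχ : χ.IsQuadratic) (a : ZMod q) : χ a = ((χ a).re : ℂ) := by
  rcases hχ a with h | h | h <;> rw [h] <;> simp

theorem reChar_isRChar (hχ : χ.IsQuadratic) (hne : χ ≠ 1) : IsRChar (reChar χ) q where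
  map_one := by rw [reChar_apply χ one_ne_zero]; simp
  map_mul m n := by
    rcases Nat.eq_zero_or_pos m with hm | hm
    · subst hm; simp
    rcases Nat.eq_zero_or_pos n with hn | hn
    · subst hn; simp
    rw [reChar_apply χ hm.ne', reChar_apply χ hn.ne', reChar_apply χ (Nat.mul_pos hm hn).ne']
    push_cast
    rw [map_mul]
    rcases hχ (m : ZMod q) with h | h | h <;> rw [h] <;> simp
  val n := by
    rcases Nat.eq_zero_or_pos n with hn | hn
    · subst hn; simp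
    rw [reChar_apply χ hn.ne']
    rcases hχ (n : ZMod q) with h | h | h <;> rw [h] <;> simp
  sum_le N := by
    have h1 := char_sum_bound χ hne N
    have h2 : ∑ n ∈ Finset.Ioc 0 N, reChar χ n = (∑ n ∈ Finset.Ioc 0 N, χ (n : ZMod q)).re := by
      rw [Complex.re_sum]
      apply Finset.sum_congr rfl
      intro n hn
      rw [Finset.mem_Ioc] at hn
      rw [reChar_apply χ (by omega)]
    rw [h2]
    exact (Complex.abs_re_le_norm _).trans h1

theorem reChar_tendsto (hχ : χ.IsQuadratic) (hne : χ ≠ 1) {σ : ℝ} (hσ : 0 < σ) :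
    Tendsto (fun N : ℕ => ∑ b ∈ Finset.Ioc 0 N, reChar χ b * (b : ℝ) ^ (-σ)) atTop
      (𝓝 (DirichletCharacter.LFunction χ σ).re) := by
  have h1 := tendsto_LFunction χ hne (s := (σ : ℂ)) (by simpa using hσ)
  have h2 := (Complex.continuous_re.tendsto _).comp h1
  refine h2.congr (fun N => ?_)
  simp only [Function.comp_def]
  rw [Complex.re_sum]
  apply Finset.sum_congr rfl
  intro n hn
  rw [Finset.mem_Ioc] at hn
  have h3 : ((n : ℂ)) ^ (-(σ : ℂ)) = (((n : ℝ) ^ (-σ) : ℝ) : ℂ) := by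
    rw [Complex.ofReal_cpow (by positivity)]
    push_cast; rfl
  rw [reChar_apply χ (by omega), h3, Complex.re_mul_ofReal]

theorem reChar_one (hχ : χ.IsQuadratic) (hne : χ ≠ 1) {w : ℕ} (hw : 0 < w) :
    |(DirichletCharacter.LFunction χ 1).re
      - ∑ b ∈ Finset.Ioc 0 w, reChar χ b * (b : ℝ) ^ (-(1 : ℝ))| ≤ 2 * q / w := by
  have h1 := (reChar_isRChar χ hχ hne).approx one_pos (reChar_tendsto χ hχ hne one_pos) hw
  rw [Real.rpow_neg_one] at h1
  simpa [div_eq_mul_inv] using h1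

theorem reChar_zero (hχ : χ.IsQuadratic) (hne : χ ≠ 1) {β : ℝ} (hβ : 0 < β)
    (h0 : DirichletCharacter.LFunction χ β = 0) {w : ℕ} (hw : 0 < w) :
    |∑ b ∈ Finset.Ioc 0 w, reChar χ b * (b : ℝ) ^ (-β)| ≤ 2 * q * (w : ℝ) ^ (-β) := by
  have h1 := (reChar_isRChar χ hχ hne).approx hβ (reChar_tendsto χ hχ hne hβ) hw
  rw [h0] at h1
  simpa using h1

end

/-! ### lower bound for the sum of `(1 * χ)(n) / n` -/

theorem prod_one_sub_sq (N : ℕ) (hN : 2 ≤ N) :
    ∏ n ∈ Finset.Icc 2 N, (1 - 1 / (n : ℝ) ^ 2) = ((N : ℝ) + 1) / (2 * N) := by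
  induction N, hN using Nat.le_induction with
  | base => norm_num
  | succ n hn ih =>
    rw [Finset.prod_Icc_succ_top (by omega), ih]
    have : (n : ℝ) ≠ 0 := by positivity
    push_cast
    field_simp
    ring

theorem prod_one_sub_sq_ge (S : Finset ℕ) (hS : ∀ n ∈ S, 2 ≤ n) :
    1 / 2 ≤ ∏ n ∈ S, (1 - 1 / (n : ℝ) ^ 2) := by
  obtain ⟨N, hN2, hN⟩ : ∃ N, 2 ≤ N ∧ S ⊆ Finset.Icc 2 N := by
    refine ⟨max 2 (S.sup id), le_max_left _ _, ?_⟩
    intro n hn
    rw [Finset.mem_Icc]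
    exact ⟨hS n hn, (Finset.le_sup (f := id) hn).trans (le_max_right _ _)⟩
  have hpos : ∀ n ∈ Finset.Icc 2 N, 0 < 1 - 1 / (n : ℝ) ^ 2 ∧ 1 - 1 / (n : ℝ) ^ 2 ≤ 1 := by
    intro n hn
    rw [Finset.mem_Icc] at hn
    have h1 : (2 : ℝ) ≤ n := by exact_mod_cast hn.1
    have h2 : 1 / (n : ℝ) ^ 2 < 1 := by
      rw [div_lt_one (by positivity)]; nlinarith
    have h3 : 0 < 1 / (n : ℝ) ^ 2 := by positivity
    constructor <;> linarith
  have h1 := prod_one_sub_sq N hN2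
  have h2 : (1 : ℝ) / 2 ≤ ((N : ℝ) + 1) / (2 * N) := by
    have : (0 : ℝ) < N := by
      have : 0 < N := by omega
      exact_mod_cast this
    rw [div_le_div_iff₀ (by norm_num) (by positivity)]
    linarith
  rw [← h1] at h2
  refine h2.trans ?_
  rw [← Finset.prod_sdiff hN]
  have h3 : ∏ n ∈ Finset.Icc 2 N \ S, (1 - 1 / (n : ℝ) ^ 2) ≤ 1 := by
    apply Finset.prod_le_one
    · intro n hn; exact (hpos n (Finset.mem_sdiff.1 hn).1).1.le
    · intro n hn; exact (hpos n (Finset.mem_sdiff.1 hn).1).2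
  have h4 : 0 ≤ ∏ n ∈ S, (1 - 1 / (n : ℝ) ^ 2) := by
    apply Finset.prod_nonneg
    intro n hn; exact (hpos n (hN hn)).1.le
  calc _ ≤ 1 * ∏ n ∈ S, (1 - 1 / (n : ℝ) ^ 2) := by gcongr
    _ = _ := one_mul _

/-- `n ↦ 1/n` as an arithmetic function -/
noncomputable def invAF : ArithmeticFunction ℝ := ⟨fun n => ((n : ℝ))⁻¹, by simp⟩

theorem invAF_mult : invAF.IsMultiplicative := by
  refine ⟨by simp [invAF], ?_⟩
  intro m n _
  change (((m * n : ℕ)) : ℝ)⁻¹ = ((m : ℝ))⁻¹ * ((n : ℝ))⁻¹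
  push_cast
  rw [mul_inv]

/-- (B4) -/
theorem IsRChar.US_ge {f : ArithmeticFunction ℝ} {Q : ℝ} (hf : IsRChar f Q) {q z : ℕ}
    (hq : 0 < q) (hz : q ≤ z) (hcop : ∀ n, ¬ Nat.Coprime n q → f n = 0) :
    (q : ℝ) / Nat.totient q / 2 ≤ US f 1 z := by
  set r : ℕ := ∏ p ∈ q.primeFactors, p with hr
  have hrq : r ∣ q := Nat.prod_primeFactors_dvd q
  have hr0 : 0 < r := Nat.pos_of_dvd_of_pos hrq hq
  have hrle : r ≤ q := Nat.le_of_dvd hq hrq
  have hrf : r.primeFactors = q.primeFactors :=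
    Nat.primeFactors_prod (fun p hp => Nat.prime_of_mem_primeFactors hp)
  have hsq : Squarefree r := by
    apply Finset.squarefree_prod_of_pairwise_isCoprime
    · intro p hp p' hp' hpq
      exact (Nat.coprime_iff_isRelPrime).1 ((Nat.coprime_primes
        (Nat.prime_of_mem_primeFactors hp) (Nat.prime_of_mem_primeFactors hp')).2 hpq)
    · intro p hp
      exact (Nat.prime_of_mem_primeFactors hp).squarefree
  have h1 : ∀ m ∈ r.divisors, rr f m = 1 := by
    intro m hm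
    rw [rr_apply]
    have hm' := Nat.dvd_of_mem_divisors hm
    have hm0 : 0 < m := Nat.pos_of_dvd_of_pos hm' hr0
    rw [Finset.sum_eq_single 1]
    · exact hf.map_one
    · intro d hd hd1
      apply hcop
      intro hc
      have hdq : d ∣ q := (Nat.dvd_of_mem_divisors hd).trans (hm'.trans hrq)
      exact hd1 (Nat.Coprime.eq_one_of_dvd hc hdq)
    · intro h
      exact absurd (Nat.one_mem_divisors.2 hm0.ne') h
  have h2 : ∑ m ∈ r.divisors, ((m : ℝ))⁻¹ ≤ US f 1 z := by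
    unfold US
    have h3 : ∑ m ∈ r.divisors, ((m : ℝ))⁻¹ = ∑ m ∈ r.divisors, rr f m * (m : ℝ) ^ (-(1 : ℝ)) := by
      apply Finset.sum_congr rfl
      intro m hm
      rw [h1 m hm, Real.rpow_neg_one, one_mul]
    rw [h3]
    apply Finset.sum_le_sum_of_subset_of_nonneg
    · intro m hm
      have hm' := Nat.dvd_of_mem_divisors hm
      rw [Finset.mem_Ioc]
      exact ⟨Nat.pos_of_dvd_of_pos hm' hr0, (Nat.le_of_dvd hr0 hm').trans (hrle.trans hz)⟩
    · intro i _ _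
      exact mul_nonneg (hf.rr_nonneg i) (by positivity)
  refine le_trans ?_ h2
  have h3 := ArithmeticFunction.IsMultiplicative.prodPrimeFactors_one_add_of_squarefree
    invAF_mult hsq
  have h4 : ∑ m ∈ r.divisors, ((m : ℝ))⁻¹ = ∏ p ∈ q.primeFactors, (1 + ((p : ℝ))⁻¹) := by
    rw [← hrf]
    exact h3.symm
  rw [h4]
  have h5 := Nat.totient_eq_mul_prod_factors q
  have h6 : ((Nat.totient q : ℚ) : ℝ)
      = ((q * ∏ p ∈ q.primeFactors, (1 - (p : ℚ)⁻¹) : ℚ) : ℝ) := by rw [h5]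
  push_cast at h6
  have hφ : (0 : ℝ) < Nat.totient q := by exact_mod_cast Nat.totient_pos.2 hq
  have hqR : (0 : ℝ) < q := by exact_mod_cast hq
  have h7 := prod_one_sub_sq_ge q.primeFactors (fun p hp =>
    (Nat.prime_of_mem_primeFactors hp).two_le)
  have h8 : ∏ p ∈ q.primeFactors, (1 - 1 / (p : ℝ) ^ 2)
      = (∏ p ∈ q.primeFactors, (1 + ((p : ℝ))⁻¹)) * ∏ p ∈ q.primeFactors, (1 - ((p : ℝ))⁻¹) := by
    rw [← Finset.prod_mul_distrib]
    apply Finset.prod_congr rfl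
    intro p hp
    have : (p : ℝ) ≠ 0 := by
      have := (Nat.prime_of_mem_primeFactors hp).pos
      positivity
    field_simp
    ring
  rw [h8] at h7
  set A : ℝ := ∏ p ∈ q.primeFactors, (1 + ((p : ℝ))⁻¹)
  set B : ℝ := ∏ p ∈ q.primeFactors, (1 - ((p : ℝ))⁻¹)
  rw [h6] at hφ ⊢
  have hB : 0 < B := by
    by_contra h
    push Not at h
    nlinarith
  rw [div_div, div_le_iff₀ (by positivity)]
  nlinarith

end Pool.Agent.Work.MP_92f640_nt
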