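import Mathlib

/-!
# Residue classes on which a character changes sign along `a + b ≡ r`
-/

namespace Pool.Agent.Work.MP_92f640_nt

variable {q : ℕ} [NeZero q] (χ : DirichletCharacter ℂ q)

theorem exists_unit_of_primitive (hχ : χ.IsPrimitive) {d : ℕ} (hd : d ∣ q) (hdq : d < q) :
    ∃ U : ℕ, Nat.Coprime U q ∧ U ≡ 1 [MOD d] ∧ χ (U : ZMod q) ≠ 1 := by
  have h1 : ¬ χ.FactorsThrough d := by
    intro h
    have h2 : χ.conductor ≤ d := Nat.sInf_le h
    rw [DirichletCharacter.isPrimitive_def] at hχ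
    omega
  rw [DirichletCharacter.factorsThrough_iff_ker_unitsMap hd] at h1
  rw [SetLike.not_le_iff_exists] at h1
  obtain ⟨u, hu1, hu2⟩ := h1
  rw [MonoidHom.mem_ker] at hu1 hu2
  refine ⟨(u : ZMod q).val, ZMod.val_coe_unit_coprime u, ?_, ?_⟩
  · rw [← ZMod.natCast_eq_natCast_iff]
    have h3 : ((ZMod.unitsMap hd u : (ZMod d)ˣ) : ZMod d) = 1 := by rw [hu1]; rfl
    rw [ZMod.unitsMap_val] at h3
    rw [ZMod.natCast_val, h3]
    simp
  · rw [ZMod.natCast_zmod_val]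
    intro h
    apply hu2
    rw [Units.ext_iff]
    simpa using h

theorem char_of_dvd {a b U : ℕ} (h : (q : ℤ) ∣ (b : ℤ) + a * U) :
    χ (b : ZMod q) = χ (-1) * (χ (a : ZMod q) * χ (U : ZMod q)) := by
  have h1 := (ZMod.intCast_zmod_eq_zero_iff_dvd ((b : ℤ) + a * U) q).2 h
  push_cast at h1
  have h2 : (b : ZMod q) = -1 * ((a : ZMod q) * (U : ZMod q)) := by
    linear_combination h1
  rw [h2, map_mul, map_mul]

theorem sq_one_of_dvd {U : ℕ} (h : (q : ℤ) ∣ (U : ℤ) * U - 1) (hne : χ (U : ZMod q) ≠ 1) :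
    χ (U : ZMod q) = -1 := by
  have h1 := (ZMod.intCast_zmod_eq_zero_iff_dvd ((U : ℤ) * U - 1) q).2 h
  push_cast at h1
  have h2 : (U : ZMod q) * (U : ZMod q) = 1 := by linear_combination h1
  have h3 : χ (U : ZMod q) * χ (U : ZMod q) = 1 := by rw [← map_mul, h2, map_one]
  have h4 : (χ (U : ZMod q) - 1) * (χ (U : ZMod q) + 1) = 0 := by linear_combination h3
  rcases mul_eq_zero.1 h4 with h5 | h5
  · exact absurd (by linear_combination h5) hne
  · linear_combination h5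

/-- The data needed for the sieve argument. -/
def SignClass (χ : DirichletCharacter ℂ q) (D M r : ℕ) : Prop :=
  Even D ∧ 0 < D ∧ D ∣ M ∧ 0 < M ∧ M ≤ 3 * D ∧ D ∣ r ∧ q ∣ M ∧ M ≤ 2 * q ∧
    ∀ a b : ℕ, Nat.Coprime a M → Nat.Coprime b M → a + b ≡ r [MOD M] →
      χ (b : ZMod q) = - χ (a : ZMod q)

theorem signClass_odd (hχ : χ.Odd) : SignClass χ (2 * q) (2 * q) 0 := by
  have hq : 0 < q := Nat.pos_of_ne_zero (NeZero.ne q)
  refine ⟨even_two_mul q, by positivity, dvd_rfl, by positivity, by omega, dvd_zero _,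
    Dvd.intro_left 2 rfl, le_refl _, ?_⟩
  intro a b _ _ hab
  have h1 : (2 * q : ℕ) ∣ a + b := (Nat.modEq_zero_iff_dvd).1 hab
  have h2 : q ∣ a + b := (Dvd.intro_left 2 rfl).trans h1
  have h3 : (q : ℤ) ∣ (b : ℤ) + a * (1 : ℕ) := by
    have : (q : ℤ) ∣ ((a + b : ℕ) : ℤ) := by exact_mod_cast h2
    convert this using 1
    push_cast; ring
  rw [char_of_dvd χ h3, hχ]
  simp

theorem signClass_four (hχ : χ.IsPrimitive) (he : χ.Even) (h4 : 4 ∣ q) :
    SignClass χ (q / 2) q (q / 2) := by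
  have hq : 0 < q := Nat.pos_of_ne_zero (NeZero.ne q)
  obtain ⟨k, hk⟩ := h4
  have hk0 : 0 < k := by omega
  have hd : q / 2 = 2 * k := by omega
  rw [hd]
  obtain ⟨U, hU1, hU2, hU3⟩ := exists_unit_of_primitive χ hχ (d := 2 * k)
    ⟨2, by omega⟩ (by omega)
  -- U = 1 + 2 k j
  obtain ⟨j, hj⟩ : ∃ j : ℤ, (U : ℤ) = 1 + 2 * k * j := by
    have h1 := (Nat.modEq_iff_dvd).1 hU2.symm
    obtain ⟨j, hj⟩ := h1
    refine ⟨j, ?_⟩
    push_cast at hj
    linarith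
  have hqk : (q : ℤ) = 4 * k := by rw [hk]; push_cast; ring
  have hjodd : ¬ (2 : ℤ) ∣ j := by
    rintro ⟨i, hi⟩
    apply hU3
    have h1 : (U : ZMod q) = 1 := by
      have h2 : (q : ℤ) ∣ (U : ℤ) - 1 := ⟨i, by rw [hj, hi, hqk]; ring⟩
      have h3 := (ZMod.intCast_zmod_eq_zero_iff_dvd ((U : ℤ) - 1) q).2 h2
      push_cast at h3
      linear_combination h3
    rw [h1, map_one]
  have hUm : χ (U : ZMod q) = -1 := by
    apply sq_one_of_dvd χ _ hU3
    refine ⟨j + k * j * j, ?_⟩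
    rw [hj, hqk]; ring
  refine ⟨even_two_mul k, by positivity, ⟨2, by omega⟩, hq, by omega, dvd_rfl, dvd_rfl,
    by omega, ?_⟩
  intro a b ha _ hab
  have haodd : ¬ (2 : ℤ) ∣ a := by
    intro h
    have h1 : 2 ∣ a := by exact_mod_cast h
    have h2 : 2 ∣ q := ⟨2 * k, by omega⟩
    have := Nat.dvd_gcd h1 h2
    rw [ha] at this
    omega
  obtain ⟨i, hi⟩ := (Nat.modEq_iff_dvd).1 hab.symm
  push_cast at hi
  have h3 : (q : ℤ) ∣ (b : ℤ) + a * U := by
    have h4 : (2 : ℤ) ∣ 1 + a * j := by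
      have h5 : ¬ (2 : ℤ) ∣ (a : ℤ) * j := by
        intro h
        rcases Int.prime_two.dvd_or_dvd h with h6 | h6
        · exact haodd h6
        · exact hjodd h6
      omega
    obtain ⟨l, hl⟩ := h4
    refine ⟨i + l, ?_⟩
    rw [hj]
    rw [hqk] at hi ⊢
    have h5 : (a : ℤ) * (1 + 2 * k * j) = a + 2 * k * (a * j) := by ring
    have h6 : (a : ℤ) * j = 2 * l - 1 := by linarith
    rw [h5, h6]
    linear_combination hi
  rw [char_of_dvd χ h3, he, hUm]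
  ring

theorem signClass_three (hχ : χ.IsPrimitive) (he : χ.Even) (h3 : 3 ∣ q) (h9 : ¬ 9 ∣ q) :
    SignClass χ (2 * (q / 3)) (2 * q) (2 * (q / 3)) := by
  have hq : 0 < q := Nat.pos_of_ne_zero (NeZero.ne q)
  obtain ⟨d, hd⟩ := h3
  have hd0 : 0 < d := by omega
  have hqd : q / 3 = d := by omega
  rw [hqd]
  have h3d : ¬ (3 : ℤ) ∣ d := by
    intro h
    have : 3 ∣ d := by exact_mod_cast h
    obtain ⟨e, he⟩ := this
    exact h9 ⟨e, by omega⟩
  obtain ⟨U, hU1, hU2, hU3⟩ := exists_unit_of_primitive χ hχ (d := d) ⟨3, by omega⟩ (by omega)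
  have hUd : (d : ℤ) ∣ (U : ℤ) - 1 := by
    have h1 := (Nat.modEq_iff_dvd).1 hU2.symm
    exact_mod_cast h1
  have hqk : (q : ℤ) = 3 * d := by rw [hd]; push_cast; ring
  have hcop3 : IsCoprime (3 : ℤ) (d : ℤ) := by
    rw [Int.prime_three.coprime_iff_not_dvd]
    exact h3d
  have hcomb : ∀ X : ℤ, (3 : ℤ) ∣ X → (d : ℤ) ∣ X → (q : ℤ) ∣ X := by
    intro X h1 h2
    rw [hqk]
    exact hcop3.mul_dvd h1 h2
  have hU3' : ¬ (3 : ℤ) ∣ (U : ℤ) - 1 := by
    intro h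
    apply hU3
    have h1 : (U : ZMod q) = 1 := by
      have h2 := hcomb _ h hUd
      have h3 := (ZMod.intCast_zmod_eq_zero_iff_dvd ((U : ℤ) - 1) q).2 h2
      push_cast at h3
      linear_combination h3
    rw [h1, map_one]
  have hU0 : ¬ (3 : ℤ) ∣ (U : ℤ) := by
    intro h
    have h1 : 3 ∣ U := by exact_mod_cast h
    have h2 : 3 ∣ q := ⟨d, hd⟩
    have := Nat.dvd_gcd h1 h2
    rw [hU1] at this
    omega
  have hUp : (3 : ℤ) ∣ (U : ℤ) + 1 := by omega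
  have hUm : χ (U : ZMod q) = -1 := by
    apply sq_one_of_dvd χ _ hU3
    apply hcomb
    · have : (U : ℤ) * U - 1 = (U + 1) * (U - 1) := by ring
      rw [this]; exact hUp.mul_right _
    · have : (U : ℤ) * U - 1 = (U - 1) * (U + 1) := by ring
      rw [this]; exact hUd.mul_right _
  refine ⟨even_two_mul d, by positivity, ⟨3, by omega⟩, by positivity, by omega, dvd_rfl,
    Dvd.intro_left 2 rfl, le_refl _, ?_⟩
  intro a b ha hb hab
  have hnd : ∀ c : ℕ, Nat.Coprime c (2 * q) → ¬ (3 : ℤ) ∣ c := by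
    intro c hc h
    have h1 : 3 ∣ c := by exact_mod_cast h
    have h2 : 3 ∣ 2 * q := ⟨2 * d, by omega⟩
    have := Nat.dvd_gcd h1 h2
    rw [hc] at this
    omega
  have ha3 := hnd a ha
  have hb3 := hnd b hb
  obtain ⟨i, hi⟩ := (Nat.modEq_iff_dvd).1 hab.symm
  push_cast at hi
  rw [hqk] at hi
  have hab3 : ¬ (3 : ℤ) ∣ (a : ℤ) + b := by
    intro h
    apply h3d
    have h6 : (a : ℤ) + b = 2 * d + 3 * (2 * d * i) := by linear_combination hi
    generalize (2 * (d : ℤ) * i) = X at h6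
    omega
  have hdab : (d : ℤ) ∣ (a : ℤ) + b := ⟨6 * i + 2, by linear_combination hi⟩
  have h4 : (q : ℤ) ∣ (b : ℤ) + a * U := by
    apply hcomb
    · have h5 : (3 : ℤ) ∣ (b : ℤ) - a := by
        clear hi hdab
        have e1 : (a : ℤ) % 3 = 1 ∨ (a : ℤ) % 3 = 2 := by omega
        have e2 : (b : ℤ) % 3 = 1 ∨ (b : ℤ) % 3 = 2 := by omega
        rcases e1 with e1 | e1 <;> rcases e2 with e2 | e2 <;> omega
      have : (b : ℤ) + a * U = (b - a) + a * (U + 1) := by ring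
      rw [this]
      exact dvd_add h5 (hUp.mul_left _)
    · have : (b : ℤ) + a * U = (a + b) + a * (U - 1) := by ring
      rw [this]
      exact dvd_add hdab (hUd.mul_left _)
  rw [char_of_dvd χ h4, he, hUm]
  ring

/-- the characters covered -/
theorem exists_signClass (h : χ.Odd ∨ (χ.IsPrimitive ∧ (4 ∣ q ∨ (3 ∣ q ∧ ¬ 9 ∣ q)))) :
    ∃ D M r, SignClass χ D M r := by
  rcases χ.even_or_odd with he | ho
  · rcases h with ho | ⟨hp, h4 | ⟨h3, h9⟩⟩
    · exact ⟨_, _, _, signClass_odd χ ho⟩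
    · exact ⟨_, _, _, signClass_four χ hp he h4⟩
    · exact ⟨_, _, _, signClass_three χ hp he h3 h9⟩
  · exact ⟨_, _, _, signClass_odd χ ho⟩

theorem four_dvd_of_two_dvd (hχ : χ.IsPrimitive) (h2 : 2 ∣ q) : 4 ∣ q := by
  have hq : 0 < q := Nat.pos_of_ne_zero (NeZero.ne q)
  by_contra h4
  obtain ⟨d, hd⟩ := h2
  obtain ⟨U, hU1, hU2, hU3⟩ := exists_unit_of_primitive χ hχ (d := d) ⟨2, by omega⟩ (by omega)
  apply hU3
  have hUodd : ¬ 2 ∣ U := by
    intro h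
    have h2 : 2 ∣ q := ⟨d, hd⟩
    have := Nat.dvd_gcd h h2
    rw [hU1] at this
    omega
  have h1 : U ≡ 1 [MOD 2] := by
    unfold Nat.ModEq; omega
  have hcop : Nat.Coprime 2 d := by
    rw [Nat.coprime_two_left]
    by_contra h
    rw [Nat.not_odd_iff_even] at h
    obtain ⟨e, he⟩ := h
    exact h4 ⟨e, by omega⟩
  have h5 := (Nat.modEq_and_modEq_iff_modEq_mul hcop).1 ⟨h1, hU2⟩
  rw [← hd] at h5
  have h6 : (U : ZMod q) = ((1 : ℕ) : ZMod q) := (ZMod.natCast_eq_natCast_iff _ _ _).2 h5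
  rw [h6]; simp

theorem not_nine_dvd (hχ : χ.IsPrimitive) (hquad : χ.IsQuadratic) : ¬ 9 ∣ q := by
  have hq : 0 < q := Nat.pos_of_ne_zero (NeZero.ne q)
  rintro ⟨e, he⟩
  obtain ⟨U, hU1, hU2, hU3⟩ := exists_unit_of_primitive χ hχ (d := 3 * e) ⟨3, by omega⟩ (by omega)
  apply hU3
  obtain ⟨j, hj⟩ := (Nat.modEq_iff_dvd).1 hU2.symm
  push_cast at hj
  have h1 : (q : ℤ) ∣ (U : ℤ) ^ 3 - 1 := by
    refine ⟨j + 3 * e * j ^ 2 + 3 * e ^ 2 * j ^ 3, ?_⟩
    have h2 : (U : ℤ) = 1 + 3 * e * j := by linarith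
    rw [h2, he]; push_cast; ring
  have h2 := (ZMod.intCast_zmod_eq_zero_iff_dvd ((U : ℤ) ^ 3 - 1) q).2 h1
  push_cast at h2
  have h3 : (U : ZMod q) ^ 3 = 1 := by linear_combination h2
  have h4 : χ (U : ZMod q) ^ 3 = 1 := by rw [← map_pow, h3, map_one]
  rcases hquad (U : ZMod q) with h | h | h
  · rw [h] at h4; norm_num at h4
  · exact h
  · rw [h] at h4; norm_num at h4

theorem ne_one_of_cond (h : χ.Odd ∨ (χ.IsPrimitive ∧ (4 ∣ q ∨ (3 ∣ q ∧ ¬ 9 ∣ q)))) : χ ≠ 1 := by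
  have hq : 0 < q := Nat.pos_of_ne_zero (NeZero.ne q)
  rintro rfl
  rcases h with h | ⟨h1, h2⟩
  · unfold DirichletCharacter.Odd at h
    rw [MulChar.one_apply (isUnit_one.neg)] at h
    norm_num at h
  · rw [DirichletCharacter.isPrimitive_def, DirichletCharacter.conductor_one] at h1
    omega

theorem cond_of_not_coprime_six (hquad : χ.IsQuadratic)
    (h : χ.Odd ∨ (χ.IsPrimitive ∧ ¬ Nat.Coprime q 6)) :
    χ.Odd ∨ (χ.IsPrimitive ∧ (4 ∣ q ∨ (3 ∣ q ∧ ¬ 9 ∣ q))) := by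
  rcases h with h | ⟨h1, h2⟩
  · exact Or.inl h
  · refine Or.inr ⟨h1, ?_⟩
    obtain ⟨p, hp, hpq, hp6⟩ := Nat.Prime.not_coprime_iff_dvd.1 h2
    have h3 : (6 : ℕ) = 2 * 3 := by norm_num
    rw [h3, Nat.Prime.dvd_mul hp, Nat.prime_dvd_prime_iff_eq hp Nat.prime_two,
      Nat.prime_dvd_prime_iff_eq hp Nat.prime_three] at hp6
    rcases hp6 with rfl | rfl
    · exact Or.inl (four_dvd_of_two_dvd χ h1 hpq)
    · exact Or.inr ⟨hpq, not_nine_dvd χ h1 hquad⟩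

end Pool.Agent.Work.MP_92f640_nt
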