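import Mathlib

/-!
# Selberg's upper bound sieve for primes in arithmetic progressions

A version of the Brun-Titchmarsh inequality with an absolute constant.
-/

namespace Pool.Agent.Work.MP_92f640_nt

open Finset

/-! ### Counting in residue classes -/

theorem abs_card_modEq_sub (N r v : ℕ) (hr : 0 < r) :
    |(((Finset.Ioc 0 N).filter (fun n => n ≡ v [MOD r])).card : ℝ) - (N : ℝ) / r| ≤ 1 := by
  have h := Nat.Ioc_filter_modEq_card 0 N hr v
  have hrQ : (0 : ℚ) < r := by exact_mod_cast hr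
  set x : ℚ := ((N : ℚ) - v) / r with hx
  set y : ℚ := (((0 : ℕ) : ℚ) - v) / r with hy
  have hxy : x - y = (N : ℚ) / r := by
    rw [hx, hy]; push_cast; field_simp; ring
  have hle : y ≤ x := by
    have : (0 : ℚ) ≤ (N : ℚ) / r := by positivity
    linarith
  have hfl : ⌊y⌋ ≤ ⌊x⌋ := Int.floor_le_floor hle
  rw [max_eq_left (by omega)] at h
  have hq : |((((Finset.Ioc 0 N).filter (fun n => n ≡ v [MOD r])).card : ℤ) : ℚ) - (N : ℚ) / r| ≤ 1 := by
    rw [h, ← hxy]
    push_cast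
    have h1 := Int.floor_le x
    have h2 := Int.lt_floor_add_one x
    have h3 := Int.floor_le y
    have h4 := Int.lt_floor_add_one y
    rw [abs_le]
    constructor <;> linarith
  have := (Rat.cast_le (K := ℝ)).2 hq
  push_cast at this
  exact this

theorem abs_card_modEq_dvd_sub (N D m a : ℕ) (hD : 0 < D) (hm : 0 < m) (hDm : Nat.Coprime D m) :
    |(((Finset.Ioc 0 N).filter (fun n => n ≡ a [MOD D] ∧ m ∣ n)).card : ℝ)
      - (N : ℝ) / (D * m)| ≤ 1 := by
  obtain ⟨c, hc1, hc2⟩ := Nat.chineseRemainder hDm a 0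
  have hset : (Finset.Ioc 0 N).filter (fun n => n ≡ a [MOD D] ∧ m ∣ n)
      = (Finset.Ioc 0 N).filter (fun n => n ≡ c [MOD (D * m)]) := by
    apply Finset.filter_congr
    intro n _
    rw [← Nat.modEq_and_modEq_iff_modEq_mul hDm]
    constructor
    · rintro ⟨h1, h2⟩
      exact ⟨h1.trans hc1.symm, ((Nat.modEq_zero_iff_dvd).2 h2).trans hc2.symm⟩
    · rintro ⟨h1, h2⟩
      exact ⟨h1.trans hc1, (Nat.modEq_zero_iff_dvd).1 (h2.trans hc2)⟩
  rw [hset]
  have := abs_card_modEq_sub N (D * m) c (by positivity)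
  push_cast at this
  exact this

/-! ### The weights -/

/-- squarefree `d ≤ R` coprime to `D` -/
def sqf (D R : ℕ) : Finset ℕ := (Finset.Icc 1 R).filter (fun d => Squarefree d ∧ Nat.Coprime d D)

theorem mem_sqf {D R d : ℕ} : d ∈ sqf D R ↔ (1 ≤ d ∧ d ≤ R) ∧ Squarefree d ∧ Nat.Coprime d D := by
  unfold sqf; rw [Finset.mem_filter, Finset.mem_Icc]

theorem one_mem_sqf {D R : ℕ} (hR : 1 ≤ R) : 1 ∈ sqf D R :=
  mem_sqf.2 ⟨⟨le_refl _, hR⟩, squarefree_one, Nat.coprime_one_left _⟩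

theorem mem_sqf_of_dvd {D R d e : ℕ} (hd : d ∈ sqf D R) (he : e ∣ d) : e ∈ sqf D R := by
  rw [mem_sqf] at hd ⊢
  obtain ⟨⟨h1, h2⟩, h3, h4⟩ := hd
  have hd0 : 0 < d := h1
  exact ⟨⟨Nat.pos_of_dvd_of_pos he hd0, (Nat.le_of_dvd hd0 he).trans h2⟩,
    h3.squarefree_of_dvd he, Nat.Coprime.coprime_dvd_left he h4⟩

/-- the sum of `1/φ(d)` over `sqf D R`. -/
noncomputable def Gsum (D R : ℕ) : ℝ := ∑ d ∈ sqf D R, ((Nat.totient d : ℝ))⁻¹

theorem one_le_Gsum {D R : ℕ} (hR : 1 ≤ R) : 1 ≤ Gsum D R := by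
  unfold Gsum
  have h := Finset.single_le_sum (f := fun d => ((Nat.totient d : ℝ))⁻¹)
    (fun i _ => by positivity) (one_mem_sqf (D := D) hR)
  simpa using h

theorem Gsum_pos {D R : ℕ} (hR : 1 ≤ R) : 0 < Gsum D R := lt_of_lt_of_le one_pos (one_le_Gsum hR)

/-- Selberg's weights -/
noncomputable def lam (D R d : ℕ) : ℝ :=
  (ArithmeticFunction.moebius d : ℝ) * d *
    (∑ l ∈ (sqf D R).filter (fun l => d ∣ l), ((Nat.totient l : ℝ))⁻¹) / Gsum D R

theorem lam_one {D R : ℕ} (hR : 1 ≤ R) : lam D R 1 = 1 := by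
  unfold lam
  have : (sqf D R).filter (fun l => 1 ∣ l) = sqf D R := by
    apply Finset.filter_true_of_mem
    intro l _; exact one_dvd l
  rw [this]
  simp only [ArithmeticFunction.moebius_apply_one, Int.cast_one, Nat.cast_one, one_mul]
  exact div_self (Gsum_pos hR).ne'

/-- `∑_{d ∣ k} μ(d) = [k = 1]`, real version -/
theorem sum_moebius_divisors (k : ℕ) :
    ∑ d ∈ k.divisors, (ArithmeticFunction.moebius d : ℝ) = if k = 1 then 1 else 0 := by
  have h : ((ArithmeticFunction.zeta : ArithmeticFunction ℝ) *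
      (ArithmeticFunction.moebius : ArithmeticFunction ℝ)) k = (1 : ArithmeticFunction ℝ) k := by
    rw [ArithmeticFunction.coe_zeta_mul_coe_moebius]
  rw [ArithmeticFunction.coe_zeta_mul_apply, ArithmeticFunction.one_apply] at h
  rw [← h]
  simp

/-- the inner Moebius sum: `∑_{l ∣ d ∣ m} μ(d) = μ(l) [m = l]` for `m` squarefree. -/
theorem sum_moebius_between {D R l m : ℕ} (hm : m ∈ sqf D R) :
    ∑ d ∈ (sqf D R).filter (fun d => l ∣ d ∧ d ∣ m), (ArithmeticFunction.moebius d : ℝ)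
      = if m = l then (ArithmeticFunction.moebius l : ℝ) else 0 := by
  by_cases hlm : l ∣ m
  · obtain ⟨k, rfl⟩ := hlm
    have hm' := mem_sqf.1 hm
    have hlk : 0 < l * k := hm'.1.1
    have hl0 : 0 < l := Nat.pos_of_mul_pos_right hlk
    have hk0 : 0 < k := Nat.pos_of_mul_pos_left hlk
    have hcop : Nat.Coprime l k := Nat.coprime_of_squarefree_mul hm'.2.1
    have hset : (sqf D R).filter (fun d => l ∣ d ∧ d ∣ l * k)
        = k.divisors.image (fun e => l * e) := by
      ext d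
      rw [Finset.mem_filter, Finset.mem_image]
      constructor
      · rintro ⟨_, ⟨e, rfl⟩, h2⟩
        refine ⟨e, ?_, rfl⟩
        rw [Nat.mem_divisors]
        exact ⟨Nat.dvd_of_mul_dvd_mul_left hl0 h2, hk0.ne'⟩
      · rintro ⟨e, he, rfl⟩
        have he' : l * e ∣ l * k := Nat.mul_dvd_mul_left l (Nat.dvd_of_mem_divisors he)
        exact ⟨mem_sqf_of_dvd hm he', Dvd.intro _ rfl, he'⟩
    rw [hset, Finset.sum_image (by
      intro a _ b _ hab
      exact Nat.eq_of_mul_eq_mul_left hl0 hab)]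
    have h1 : ∀ e ∈ k.divisors, (ArithmeticFunction.moebius (l * e) : ℝ)
        = (ArithmeticFunction.moebius l : ℝ) * (ArithmeticFunction.moebius e : ℝ) := by
      intro e he
      have hc : Nat.Coprime l e := Nat.Coprime.coprime_dvd_right (Nat.dvd_of_mem_divisors he) hcop
      rw [ArithmeticFunction.isMultiplicative_moebius.map_mul_of_coprime hc]
      push_cast; ring
    rw [Finset.sum_congr rfl h1, ← Finset.mul_sum, sum_moebius_divisors]
    by_cases hk : k = 1
    · subst hk; simp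
    · rw [if_neg hk, if_neg]
      · ring
      · intro h
        apply hk
        have : l * k = l * 1 := by rw [h, mul_one]
        exact Nat.eq_of_mul_eq_mul_left hl0 this
  · have hset : (sqf D R).filter (fun d => l ∣ d ∧ d ∣ m) = ∅ := by
      apply Finset.filter_false_of_mem
      rintro d _ ⟨h1, h2⟩
      exact hlm (h1.trans h2)
    rw [hset, Finset.sum_empty, if_neg]
    rintro rfl
    exact hlm dvd_rfl

/-- the diagonalising sums -/
theorem sum_lam_div {D R l : ℕ} (hR : 1 ≤ R) (hl : l ∈ sqf D R) :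
    ∑ d ∈ (sqf D R).filter (fun d => l ∣ d), lam D R d / d
      = (ArithmeticFunction.moebius l : ℝ) * ((Nat.totient l : ℝ))⁻¹ / Gsum D R := by
  have hG := (Gsum_pos (D := D) hR).ne'
  have h1 : ∀ d ∈ (sqf D R).filter (fun d => l ∣ d), lam D R d / d
      = ∑ m ∈ sqf D R, (if d ∣ m then
          (ArithmeticFunction.moebius d : ℝ) * (((Nat.totient m : ℝ))⁻¹ / Gsum D R) else 0) := by
    intro d hd
    have hd0 : (d : ℝ) ≠ 0 := by
      have := (mem_sqf.1 (Finset.mem_filter.1 hd).1).1.1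
      positivity
    unfold lam
    rw [Finset.sum_filter]
    rw [show (ArithmeticFunction.moebius d : ℝ) * d *
      (∑ a ∈ sqf D R, if d ∣ a then ((Nat.totient a : ℝ))⁻¹ else 0) / Gsum D R / d
      = ∑ a ∈ sqf D R, (ArithmeticFunction.moebius d : ℝ) *
          ((if d ∣ a then ((Nat.totient a : ℝ))⁻¹ else 0) / Gsum D R) by
        rw [← Finset.mul_sum, ← Finset.sum_div]; field_simp]
    apply Finset.sum_congr rfl
    intro m _
    split_ifs <;> simp
  rw [Finset.sum_congr rfl h1, Finset.sum_comm]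
  have h2 : ∀ m ∈ sqf D R, ∑ d ∈ (sqf D R).filter (fun d => l ∣ d), (if d ∣ m then
          (ArithmeticFunction.moebius d : ℝ) * (((Nat.totient m : ℝ))⁻¹ / Gsum D R) else 0)
      = if m = l then (ArithmeticFunction.moebius l : ℝ) * (((Nat.totient m : ℝ))⁻¹ / Gsum D R)
        else 0 := by
    intro m hm
    rw [← Finset.sum_filter, Finset.filter_filter, ← Finset.sum_mul, sum_moebius_between hm]
    split_ifs <;> simp
  rw [Finset.sum_congr rfl h2, Finset.sum_ite_eq' (sqf D R) l, if_pos hl]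
  ring

theorem sum_totient_gcd {D R d e : ℕ} (hd : d ∈ sqf D R) :
    ∑ l ∈ sqf D R, (if l ∣ d ∧ l ∣ e then (Nat.totient l : ℝ) else 0) = (Nat.gcd d e : ℝ) := by
  rw [← Finset.sum_filter]
  have hset : (sqf D R).filter (fun l => l ∣ d ∧ l ∣ e) = (Nat.gcd d e).divisors := by
    ext l
    rw [Finset.mem_filter, Nat.mem_divisors]
    constructor
    · rintro ⟨h1, h2, h3⟩
      refine ⟨Nat.dvd_gcd h2 h3, ?_⟩
      have hd0 : 0 < d := (mem_sqf.1 hd).1.1
      exact (Nat.gcd_pos_of_pos_left e hd0).ne'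
    · rintro ⟨h1, _⟩
      have h2 := h1.trans (Nat.gcd_dvd_left d e)
      exact ⟨mem_sqf_of_dvd hd h2, h2, h1.trans (Nat.gcd_dvd_right d e)⟩
  rw [hset]
  have := Nat.sum_totient (Nat.gcd d e)
  rw [← this]
  push_cast
  rw [this]

/-- the main term of the sieve -/
theorem main_sum {D R : ℕ} (hR : 1 ≤ R) :
    ∑ d ∈ sqf D R, ∑ e ∈ sqf D R, lam D R d * lam D R e / (Nat.lcm d e : ℝ) = (Gsum D R)⁻¹ := by
  have hG := (Gsum_pos (D := D) hR).ne'
  have h1 : ∀ d ∈ sqf D R, ∀ e ∈ sqf D R, lam D R d * lam D R e / (Nat.lcm d e : ℝ)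
      = ∑ l ∈ sqf D R, (Nat.totient l : ℝ) * ((if l ∣ d then lam D R d / d else 0) *
          (if l ∣ e then lam D R e / e else 0)) := by
    intro d hd e he
    have hd0 : (0 : ℝ) < d := by
      have := (mem_sqf.1 hd).1.1
      positivity
    have he0 : (0 : ℝ) < e := by
      have := (mem_sqf.1 he).1.1
      positivity
    have hlcm : (Nat.gcd d e : ℝ) * (Nat.lcm d e : ℝ) = d * e := by
      exact_mod_cast Nat.gcd_mul_lcm d e
    have hl0 : (0 : ℝ) < (Nat.lcm d e : ℝ) := by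
      have : 0 < Nat.lcm d e := Nat.lcm_pos (mem_sqf.1 hd).1.1 (mem_sqf.1 he).1.1
      positivity
    have h2 : lam D R d * lam D R e / (Nat.lcm d e : ℝ)
        = (Nat.gcd d e : ℝ) * (lam D R d / d * (lam D R e / e)) := by
      field_simp
      linear_combination (-(lam D R d * lam D R e)) * hlcm
    rw [h2, ← sum_totient_gcd hd (e := e), Finset.sum_mul]
    apply Finset.sum_congr rfl
    intro l _
    by_cases h3 : l ∣ d <;> by_cases h4 : l ∣ e <;> simp [h3, h4]
  have h2 : ∑ d ∈ sqf D R, ∑ e ∈ sqf D R, lam D R d * lam D R e / (Nat.lcm d e : ℝ)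
      = ∑ l ∈ sqf D R, (Nat.totient l : ℝ) *
        ((∑ d ∈ sqf D R, if l ∣ d then lam D R d / d else 0) *
        (∑ e ∈ sqf D R, if l ∣ e then lam D R e / e else 0)) := by
    rw [Finset.sum_congr rfl (fun d hd => Finset.sum_congr rfl (fun e he => h1 d hd e he))]
    simp_rw [Finset.sum_mul_sum, Finset.mul_sum]
    rw [Finset.sum_congr rfl (fun d _ => Finset.sum_comm)]
    rw [Finset.sum_comm]
  rw [h2]
  have h3 : ∀ l ∈ sqf D R, (Nat.totient l : ℝ) *
        ((∑ d ∈ sqf D R, if l ∣ d then lam D R d / d else 0) *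
        (∑ e ∈ sqf D R, if l ∣ e then lam D R e / e else 0))
      = ((Nat.totient l : ℝ))⁻¹ / (Gsum D R) ^ 2 := by
    intro l hl
    rw [← Finset.sum_filter, sum_lam_div hR hl]
    have hμ : ((ArithmeticFunction.moebius l : ℝ)) ^ 2 = 1 := by
      exact_mod_cast ArithmeticFunction.moebius_sq_eq_one_of_squarefree (mem_sqf.1 hl).2.1
    have hφ : (Nat.totient l : ℝ) ≠ 0 := by
      have : 0 < Nat.totient l := Nat.totient_pos.2 (mem_sqf.1 hl).1.1
      positivity
    rw [show (Nat.totient l : ℝ) * ((ArithmeticFunction.moebius l : ℝ) * ((Nat.totient l : ℝ))⁻¹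
        / Gsum D R * ((ArithmeticFunction.moebius l : ℝ) * ((Nat.totient l : ℝ))⁻¹ / Gsum D R))
      = ((ArithmeticFunction.moebius l : ℝ)) ^ 2 * (((Nat.totient l : ℝ) * ((Nat.totient l : ℝ))⁻¹)
        * ((Nat.totient l : ℝ))⁻¹ / (Gsum D R) ^ 2) by ring]
    rw [hμ, mul_inv_cancel₀ hφ]
    ring
  rw [Finset.sum_congr rfl h3, ← Finset.sum_div]
  change Gsum D R / (Gsum D R) ^ 2 = _
  field_simp

/-! ### Crude bound for the weights -/

theorem abs_lam_le {D R d : ℕ} (hR : 1 ≤ R) (hd : d ∈ sqf D R) : |lam D R d| ≤ (R : ℝ) ^ 2 := by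
  have hG1 := one_le_Gsum (D := D) hR
  have hG := Gsum_pos (D := D) hR
  have hμ : |(ArithmeticFunction.moebius d : ℝ)| ≤ 1 := by
    have := ArithmeticFunction.abs_moebius_le_one (n := d)
    exact_mod_cast this
  have hdR : (d : ℝ) ≤ R := by exact_mod_cast (mem_sqf.1 hd).1.2
  have hS0 : 0 ≤ ∑ l ∈ (sqf D R).filter (fun l => d ∣ l), ((Nat.totient l : ℝ))⁻¹ :=
    Finset.sum_nonneg (fun i _ => by positivity)
  have hS : ∑ l ∈ (sqf D R).filter (fun l => d ∣ l), ((Nat.totient l : ℝ))⁻¹ ≤ R := by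
    have h1 : ∀ l ∈ (sqf D R).filter (fun l => d ∣ l), ((Nat.totient l : ℝ))⁻¹ ≤ 1 := by
      intro l hl
      have : 0 < Nat.totient l := Nat.totient_pos.2 (mem_sqf.1 (Finset.mem_filter.1 hl).1).1.1
      have h2 : (1 : ℝ) ≤ Nat.totient l := by exact_mod_cast this
      exact inv_le_one_of_one_le₀ h2
    have h2 := Finset.sum_le_card_nsmul _ _ _ h1
    have h3 : ((sqf D R).filter (fun l => d ∣ l)).card ≤ R := by
      calc _ ≤ (sqf D R).card := Finset.card_filter_le _ _
        _ ≤ (Finset.Icc 1 R).card := Finset.card_filter_le _ _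
        _ = R := by simp
    have h4 : (((sqf D R).filter (fun l => d ∣ l)).card : ℝ) ≤ R := by exact_mod_cast h3
    rw [nsmul_eq_mul, mul_one] at h2
    linarith
  unfold lam
  rw [abs_div, abs_mul, abs_mul, abs_of_pos hG, abs_of_nonneg hS0, Nat.abs_cast,
    div_le_iff₀ hG]
  have hR0 : (0 : ℝ) ≤ R := by positivity
  have hd0 : (0 : ℝ) ≤ d := by positivity
  calc |(ArithmeticFunction.moebius d : ℝ)| * (d : ℝ) * _ ≤ 1 * (R : ℝ) * R := by
        gcongr
    _ = (R : ℝ) ^ 2 := by ring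
    _ ≤ (R : ℝ) ^ 2 * Gsum D R := by nlinarith [sq_nonneg (R : ℝ)]

theorem sum_abs_lam_le {D R : ℕ} (hR : 1 ≤ R) : ∑ d ∈ sqf D R, |lam D R d| ≤ (R : ℝ) ^ 3 := by
  have h2 := Finset.sum_le_card_nsmul (sqf D R) _ _ (fun d hd => abs_lam_le hR hd)
  have h3 : (sqf D R).card ≤ R := by
    calc (sqf D R).card ≤ (Finset.Icc 1 R).card := Finset.card_filter_le _ _
      _ = R := by simp
  have h4 : ((sqf D R).card : ℝ) ≤ R := by exact_mod_cast h3
  rw [nsmul_eq_mul] at h2
  calc _ ≤ ((sqf D R).card : ℝ) * (R : ℝ) ^ 2 := h2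
    _ ≤ R * (R : ℝ) ^ 2 := by gcongr
    _ = (R : ℝ) ^ 3 := by ring

/-! ### The sieve -/

/-- The sieve bound: number of primes in `(R, N]` congruent to `a` modulo `D`. -/
theorem sieve_bound {D R N a : ℕ} (hD : 0 < D) (hR : 1 ≤ R) :
    (((Finset.Ioc R N).filter (fun p => p.Prime ∧ p ≡ a [MOD D])).card : ℝ)
      ≤ (N : ℝ) / (D * Gsum D R) + (R : ℝ) ^ 6 := by
  have hG := Gsum_pos (D := D) hR
  -- the weighted sum
  have h1 : (((Finset.Ioc R N).filter (fun p => p.Prime ∧ p ≡ a [MOD D])).card : ℝ)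
      ≤ ∑ n ∈ (Finset.Ioc 0 N).filter (fun n => n ≡ a [MOD D]),
        (∑ d ∈ sqf D R, if d ∣ n then lam D R d else 0) ^ 2 := by
    have h2 : (((Finset.Ioc R N).filter (fun p => p.Prime ∧ p ≡ a [MOD D])).card : ℝ)
        = ∑ n ∈ (Finset.Ioc R N).filter (fun p => p.Prime ∧ p ≡ a [MOD D]),
        (∑ d ∈ sqf D R, if d ∣ n then lam D R d else 0) ^ 2 := by
      rw [Finset.card_eq_sum_ones]
      push_cast
      apply Finset.sum_congr rfl
      intro p hp
      rw [Finset.mem_filter, Finset.mem_Ioc] at hp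
      obtain ⟨⟨hp1, hp2⟩, hp3, hp4⟩ := hp
      have : ∑ d ∈ sqf D R, (if d ∣ p then lam D R d else 0) = 1 := by
        rw [Finset.sum_eq_single 1]
        · simp [lam_one hR]
        · intro d hd hd1
          rw [if_neg]
          intro hdp
          rcases (Nat.dvd_prime hp3).1 hdp with h | h
          · exact hd1 h
          · have := (mem_sqf.1 hd).1.2
            omega
        · intro h
          exact absurd (one_mem_sqf hR) h
      rw [this]; norm_num
    rw [h2]
    apply Finset.sum_le_sum_of_subset_of_nonneg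
    · intro p hp
      rw [Finset.mem_filter, Finset.mem_Ioc] at hp ⊢
      exact ⟨⟨by omega, hp.1.2⟩, hp.2.2⟩
    · intro i _ _; positivity
  refine h1.trans ?_
  have h3 : ∑ n ∈ (Finset.Ioc 0 N).filter (fun n => n ≡ a [MOD D]),
        (∑ d ∈ sqf D R, if d ∣ n then lam D R d else 0) ^ 2
      = ∑ d ∈ sqf D R, ∑ e ∈ sqf D R, lam D R d * lam D R e *
        (((Finset.Ioc 0 N).filter (fun n => n ≡ a [MOD D] ∧ Nat.lcm d e ∣ n)).card : ℝ) := by
    have h4 : ∀ n, (∑ d ∈ sqf D R, if d ∣ n then lam D R d else 0) ^ 2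
        = ∑ d ∈ sqf D R, ∑ e ∈ sqf D R, (if Nat.lcm d e ∣ n then lam D R d * lam D R e else 0) := by
      intro n
      rw [sq, Finset.sum_mul_sum]
      apply Finset.sum_congr rfl; intro d _
      apply Finset.sum_congr rfl; intro e _
      by_cases h5 : d ∣ n <;> by_cases h6 : e ∣ n <;> simp [h5, h6, Nat.lcm_dvd_iff]
    simp_rw [h4]
    rw [Finset.sum_comm]
    apply Finset.sum_congr rfl; intro d _
    rw [Finset.sum_comm]
    apply Finset.sum_congr rfl; intro e _
    rw [← Finset.sum_filter, Finset.filter_filter, Finset.sum_const, nsmul_eq_mul]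
    ring
  rw [h3]
  have h5 : ∀ d ∈ sqf D R, ∀ e ∈ sqf D R, lam D R d * lam D R e *
        (((Finset.Ioc 0 N).filter (fun n => n ≡ a [MOD D] ∧ Nat.lcm d e ∣ n)).card : ℝ)
      ≤ (N : ℝ) / D * (lam D R d * lam D R e / (Nat.lcm d e : ℝ)) + |lam D R d| * |lam D R e| := by
    intro d hd e he
    have hdD := (mem_sqf.1 hd).2.2
    have heD := (mem_sqf.1 he).2.2
    have hl0 : 0 < Nat.lcm d e := Nat.lcm_pos (mem_sqf.1 hd).1.1 (mem_sqf.1 he).1.1
    have hcop : Nat.Coprime D (Nat.lcm d e) := by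
      apply Nat.Coprime.coprime_dvd_right (Nat.lcm_dvd_mul d e)
      exact Nat.Coprime.mul_right hdD.symm heD.symm
    have h6 := abs_card_modEq_dvd_sub N D (Nat.lcm d e) a hD hl0 hcop
    set c : ℝ := (((Finset.Ioc 0 N).filter (fun n => n ≡ a [MOD D] ∧ Nat.lcm d e ∣ n)).card : ℝ)
    have h7 : lam D R d * lam D R e * c
        = (N : ℝ) / D * (lam D R d * lam D R e / (Nat.lcm d e : ℝ))
          + lam D R d * lam D R e * (c - (N : ℝ) / (D * (Nat.lcm d e : ℝ))) := by
      have : (D : ℝ) ≠ 0 := by positivity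
      have : (Nat.lcm d e : ℝ) ≠ 0 := by positivity
      field_simp
      ring
    rw [h7]
    have h8 : lam D R d * lam D R e * (c - (N : ℝ) / (D * (Nat.lcm d e : ℝ)))
        ≤ |lam D R d| * |lam D R e| := by
      calc lam D R d * lam D R e * (c - (N : ℝ) / (D * (Nat.lcm d e : ℝ)))
          ≤ |lam D R d * lam D R e * (c - (N : ℝ) / (D * (Nat.lcm d e : ℝ)))| := le_abs_self _
        _ = |lam D R d| * |lam D R e| * |c - (N : ℝ) / (D * (Nat.lcm d e : ℝ))| := by
            rw [abs_mul, abs_mul]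
        _ ≤ |lam D R d| * |lam D R e| * 1 := by gcongr
        _ = |lam D R d| * |lam D R e| := by ring
    linarith
  calc _ ≤ ∑ d ∈ sqf D R, ∑ e ∈ sqf D R,
        ((N : ℝ) / D * (lam D R d * lam D R e / (Nat.lcm d e : ℝ)) + |lam D R d| * |lam D R e|) :=
        Finset.sum_le_sum (fun d hd => Finset.sum_le_sum (fun e he => h5 d hd e he))
    _ = (N : ℝ) / D * (∑ d ∈ sqf D R, ∑ e ∈ sqf D R, lam D R d * lam D R e / (Nat.lcm d e : ℝ))
        + (∑ d ∈ sqf D R, |lam D R d|) * (∑ d ∈ sqf D R, |lam D R d|) := by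
        simp_rw [Finset.sum_add_distrib]
        rw [Finset.sum_mul_sum]
        simp_rw [Finset.mul_sum]
    _ ≤ (N : ℝ) / (D * Gsum D R) + (R : ℝ) ^ 6 := by
        rw [main_sum hR]
        have h8 := sum_abs_lam_le (D := D) hR
        have h9 : 0 ≤ ∑ d ∈ sqf D R, |lam D R d| := Finset.sum_nonneg (fun _ _ => abs_nonneg _)
        have h10 : (∑ d ∈ sqf D R, |lam D R d|) * (∑ d ∈ sqf D R, |lam D R d|) ≤ (R : ℝ) ^ 6 := by
          calc _ ≤ (R : ℝ) ^ 3 * (R : ℝ) ^ 3 := by gcongr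
            _ = (R : ℝ) ^ 6 := by ring
        have h11 : (N : ℝ) / D * (Gsum D R)⁻¹ = (N : ℝ) / (D * Gsum D R) := by
          rw [← div_eq_mul_inv, div_div]
        rw [h11]
        linarith

end Pool.Agent.Work.MP_92f640_nt
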