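import Mathlib
import Pool.Agent.Work.MP_92f640_nt.Sieve

/-!
# Lower bound for the Selberg sum
-/

namespace Pool.Agent.Work.MP_92f640_nt

open Finset

/-- `n ↦ 1/n` as a monoid homomorphism -/
noncomputable def invHom : ℕ →* ℝ where
  toFun n := ((n : ℝ))⁻¹
  map_one' := by simp
  map_mul' a b := by push_cast; rw [mul_inv]

theorem prod_inv_eq (m : ℕ) (hm : 0 < m) :
    ∏ p ∈ m.primeFactors with p.Prime, (1 - invHom p)⁻¹ = (m : ℝ) / Nat.totient m := by
  have h1 : m.primeFactors.filter (fun p => p.Prime) = m.primeFactors := by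
    apply Finset.filter_true_of_mem
    intro p hp; exact Nat.prime_of_mem_primeFactors hp
  rw [h1]
  have h2 := Nat.totient_eq_mul_prod_factors m
  have h3 : ((Nat.totient m : ℚ) : ℝ) = ((m * ∏ p ∈ m.primeFactors, (1 - (p : ℚ)⁻¹) : ℚ) : ℝ) := by
    rw [h2]
  push_cast at h3
  have hφ : (0 : ℝ) < Nat.totient m := by exact_mod_cast Nat.totient_pos.2 hm
  have hm' : (0 : ℝ) < m := by exact_mod_cast hm
  rw [Finset.prod_inv_distrib]
  have h4 : ∏ p ∈ m.primeFactors, (1 - invHom p) = ∏ p ∈ m.primeFactors, (1 - ((p : ℝ))⁻¹) := rfl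
  rw [h4]
  have h5 : ∏ p ∈ m.primeFactors, (1 - ((p : ℝ))⁻¹) = (Nat.totient m : ℝ) / m := by
    rw [h3]; field_simp
  rw [h5, inv_div]

theorem sum_inv_le_of_factored {m : ℕ} (hm : 0 < m) (W : Finset ℕ)
    (hW : ∀ w ∈ W, w ≠ 0 ∧ w.primeFactors ⊆ m.primeFactors) :
    ∑ w ∈ W, ((w : ℝ))⁻¹ ≤ (m : ℝ) / Nat.totient m := by
  have h := (EulerProduct.summable_and_hasSum_factoredNumbers_prod_filter_prime_geometric
    (f := invHom) (by
      intro p hp
      have h2 : (1 : ℝ) < p := by exact_mod_cast hp.one_lt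
      change ‖((p : ℝ))⁻¹‖ < 1
      rw [norm_inv, Real.norm_of_nonneg (by positivity)]
      exact inv_lt_one_of_one_lt₀ h2) m.primeFactors).2
  rw [prod_inv_eq m hm] at h
  have hW' : ∀ w ∈ W, w ∈ Nat.factoredNumbers m.primeFactors := by
    intro w hw
    exact Nat.mem_factoredNumbers_iff_primeFactors_subset.2 (hW w hw)
  have h2 : ∑ w ∈ W, ((w : ℝ))⁻¹ = ∑ w ∈ W.attach.map ⟨fun w => (⟨w.1, hW' w.1 w.2⟩ :
      Nat.factoredNumbers m.primeFactors), by
        intro a b hab
        simp only [Subtype.mk.injEq] at hab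
        exact Subtype.ext hab⟩, invHom w := by
    rw [Finset.sum_map]
    simp only [Function.Embedding.coeFn_mk]
    rw [← Finset.sum_attach]
    rfl
  rw [h2]
  apply sum_le_hasSum _ _ h
  intro i _
  change 0 ≤ ((i : ℕ) : ℝ)⁻¹
  positivity

/-- the squarefree kernel of the part of `n` coprime to `D`. -/
def ker' (D n : ℕ) : ℕ := ∏ p ∈ n.primeFactors.filter (fun p => ¬ p ∣ D), p

theorem ker'_dvd (D n : ℕ) : ker' D n ∣ n :=
  (Finset.prod_dvd_prod_of_subset _ _ _ (Finset.filter_subset _ _)).trans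
    (Nat.prod_primeFactors_dvd n)

theorem ker'_primeFactors (D n : ℕ) :
    (ker' D n).primeFactors = n.primeFactors.filter (fun p => ¬ p ∣ D) := by
  unfold ker'
  exact Nat.primeFactors_prod (fun p hp => Nat.prime_of_mem_primeFactors (Finset.mem_filter.1 hp).1)

theorem ker'_mem {D R n : ℕ} (hn : n ∈ Finset.Icc 1 R) : ker' D n ∈ sqf D R := by
  rw [Finset.mem_Icc] at hn
  rw [mem_sqf]
  have hd := ker'_dvd D n
  have hn0 : 0 < n := hn.1
  refine ⟨⟨Nat.pos_of_dvd_of_pos hd hn0, (Nat.le_of_dvd hn0 hd).trans hn.2⟩, ?_, ?_⟩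
  · unfold ker'
    apply Finset.squarefree_prod_of_pairwise_isCoprime
    · intro p hp q hq hpq
      have h1 := Nat.prime_of_mem_primeFactors (Finset.mem_filter.1 hp).1
      have h2 := Nat.prime_of_mem_primeFactors (Finset.mem_filter.1 hq).1
      exact (Nat.coprime_iff_isRelPrime).1 ((Nat.coprime_primes h1 h2).2 hpq)
    · intro p hp
      exact (Nat.prime_of_mem_primeFactors (Finset.mem_filter.1 hp).1).squarefree
  · unfold ker'
    apply Nat.Coprime.prod_left
    intro p hp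
    rw [Finset.mem_filter] at hp
    exact (Nat.Prime.coprime_iff_not_dvd (Nat.prime_of_mem_primeFactors hp.1)).2 hp.2

theorem sum_inv_le_Gsum {D R : ℕ} (hD : 0 < D) :
    ∑ n ∈ Finset.Icc 1 R, ((n : ℝ))⁻¹ ≤ (D : ℝ) / Nat.totient D * Gsum D R := by
  have h1 := Finset.sum_fiberwise_of_maps_to (s := Finset.Icc 1 R) (t := sqf D R)
    (g := ker' D) (fun n hn => ker'_mem hn) (fun n => ((n : ℝ))⁻¹)
  rw [← h1]
  unfold Gsum
  rw [Finset.mul_sum]
  apply Finset.sum_le_sum
  intro d hd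
  have hd' := mem_sqf.1 hd
  have hd0 : 0 < d := hd'.1.1
  have hdR : (0 : ℝ) < d := by exact_mod_cast hd0
  have hcop : Nat.Coprime D d := hd'.2.2.symm
  -- divide by d
  have h2 : ∑ n ∈ (Finset.Icc 1 R).filter (fun n => ker' D n = d), ((n : ℝ))⁻¹
      = ((d : ℝ))⁻¹ * ∑ w ∈ ((Finset.Icc 1 R).filter (fun n => ker' D n = d)).image
        (fun n => n / d), ((w : ℝ))⁻¹ := by
    rw [Finset.sum_image, Finset.mul_sum]
    · apply Finset.sum_congr rfl
      intro n hn
      rw [Finset.mem_filter] at hn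
      have hdn : d ∣ n := hn.2 ▸ ker'_dvd D n
      rw [Nat.cast_div hdn (by positivity)]
      field_simp
    · intro a ha b hb hab
      simp only [Finset.coe_filter, Set.mem_ofPred_eq] at ha hb
      have hda : d ∣ a := ha.2 ▸ ker'_dvd D a
      have hdb : d ∣ b := hb.2 ▸ ker'_dvd D b
      exact (Nat.div_left_inj hda hdb).1 hab
  rw [h2]
  have h3 := sum_inv_le_of_factored (m := D * d) (by positivity)
    (((Finset.Icc 1 R).filter (fun n => ker' D n = d)).image (fun n => n / d)) (by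
      intro w hw
      rw [Finset.mem_image] at hw
      obtain ⟨n, hn, rfl⟩ := hw
      rw [Finset.mem_filter, Finset.mem_Icc] at hn
      have hdn : d ∣ n := hn.2 ▸ ker'_dvd D n
      have hn0 : 0 < n := hn.1.1
      have hq0 : n / d ≠ 0 := by
        have := Nat.div_pos (Nat.le_of_dvd hn0 hdn) hd0
        omega
      refine ⟨hq0, ?_⟩
      intro p hp
      have hpp := Nat.prime_of_mem_primeFactors hp
      have hpn : p ∣ n := (Nat.dvd_of_mem_primeFactors hp).trans (Nat.div_dvd_of_dvd hdn)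
      rw [Nat.mem_primeFactors]
      refine ⟨hpp, ?_, by positivity⟩
      by_cases hpD : p ∣ D
      · exact hpD.mul_right d
      · have : p ∈ (ker' D n).primeFactors := by
          rw [ker'_primeFactors, Finset.mem_filter, Nat.mem_primeFactors]
          exact ⟨⟨hpp, hpn, by omega⟩, hpD⟩
        rw [hn.2] at this
        exact (Nat.dvd_of_mem_primeFactors this).mul_left D)
  rw [Nat.totient_mul hcop] at h3
  push_cast at h3
  have hφD : (0 : ℝ) < Nat.totient D := by exact_mod_cast Nat.totient_pos.2 hD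
  have hφd : (0 : ℝ) < Nat.totient d := by exact_mod_cast Nat.totient_pos.2 hd0
  calc ((d : ℝ))⁻¹ * ∑ w ∈ ((Finset.Icc 1 R).filter (fun n => ker' D n = d)).image
        (fun n => n / d), ((w : ℝ))⁻¹
      ≤ ((d : ℝ))⁻¹ * ((D : ℝ) * d / (Nat.totient D * Nat.totient d)) := by gcongr
    _ = (D : ℝ) / Nat.totient D * ((Nat.totient d : ℝ))⁻¹ := by field_simp

theorem log_le_sum_inv (R : ℕ) : Real.log (R + 1) ≤ ∑ n ∈ Finset.Icc 1 R, ((n : ℝ))⁻¹ := by
  have h := log_add_one_le_harmonic R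
  rw [harmonic_eq_sum_Icc] at h
  push_cast at h
  exact_mod_cast h

theorem Gsum_ge {D R : ℕ} (hD : 0 < D) :
    (Nat.totient D : ℝ) / D * Real.log (R + 1) ≤ Gsum D R := by
  have h1 := log_le_sum_inv R
  have h2 := sum_inv_le_Gsum (R := R) hD
  have hφD : (0 : ℝ) < Nat.totient D := by exact_mod_cast Nat.totient_pos.2 hD
  have hD' : (0 : ℝ) < D := by exact_mod_cast hD
  calc (Nat.totient D : ℝ) / D * Real.log (R + 1)
      ≤ (Nat.totient D : ℝ) / D * ((D : ℝ) / Nat.totient D * Gsum D R) := by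
        gcongr
        exact h1.trans h2
    _ = Gsum D R := by field_simp

end Pool.Agent.Work.MP_92f640_nt
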