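import Mathlib
import Pool.Agent.Work.MP_92f640_nt.Gbound

/-!
# Brun-Titchmarsh with constant 32
-/

namespace Pool.Agent.Work.MP_92f640_nt

open Finset

/-- The number of primes `p ≤ N` with `p ≡ a mod D` is at most `32 N / (φ(D) log N)` if
`D ^ 2 ≤ N` and `2 ≤ N`. -/
theorem brun_titchmarsh {D N : ℕ} (a : ℕ) (hD : 0 < D) (hN : 2 ≤ N) (hDN : D ^ 2 ≤ N) :
    (((Finset.Ioc 0 N).filter (fun p => p.Prime ∧ p ≡ a [MOD D])).card : ℝ)
      ≤ 32 * (N : ℝ) / (Nat.totient D * Real.log N) := by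
  have hNR : (2 : ℝ) ≤ N := by exact_mod_cast hN
  have hN0 : (0 : ℝ) < N := by linarith
  have hN1 : (1 : ℝ) ≤ N := by linarith
  have hlog : 0 < Real.log N := Real.log_pos (by linarith)
  set R : ℕ := ⌊(N : ℝ) ^ ((1 : ℝ) / 24)⌋₊ with hRdef
  have hx1 : (1 : ℝ) ≤ (N : ℝ) ^ ((1 : ℝ) / 24) := Real.one_le_rpow hN1 (by norm_num)
  have hR1 : 1 ≤ R := Nat.le_floor (by exact_mod_cast hx1)
  have hRle : (R : ℝ) ≤ (N : ℝ) ^ ((1 : ℝ) / 24) := Nat.floor_le (by positivity)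
  have hRlt : (N : ℝ) ^ ((1 : ℝ) / 24) < R + 1 := Nat.lt_floor_add_one _
  have hlogR : Real.log N / 24 ≤ Real.log (R + 1) := by
    have h1 := Real.log_le_log (by positivity) hRlt.le
    rw [Real.log_rpow hN0] at h1
    linarith
  have hR6 : (R : ℝ) ^ 6 ≤ (N : ℝ) ^ ((1 : ℝ) / 4) := by
    calc (R : ℝ) ^ 6 ≤ ((N : ℝ) ^ ((1 : ℝ) / 24)) ^ 6 := by gcongr
      _ = (N : ℝ) ^ ((1 : ℝ) / 4) := by
        rw [← Real.rpow_natCast, ← Real.rpow_mul hN0.le]; norm_num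
  have hRq : (R : ℝ) ≤ (N : ℝ) ^ ((1 : ℝ) / 4) := by
    refine hRle.trans (Real.rpow_le_rpow_of_exponent_le hN1 (by norm_num))
  have hφ : (0 : ℝ) < Nat.totient D := by exact_mod_cast Nat.totient_pos.2 hD
  have hD0 : (0 : ℝ) < D := by exact_mod_cast hD
  have hφD : (Nat.totient D : ℝ) ≤ D := by exact_mod_cast Nat.totient_le D
  have hDle : (D : ℝ) ≤ (N : ℝ) ^ ((1 : ℝ) / 2) := by
    have h1 : (D : ℝ) ^ 2 ≤ N := by exact_mod_cast hDN
    rw [← Real.sqrt_eq_rpow]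
    exact Real.le_sqrt_of_sq_le h1
  -- small term
  have hsmall : (N : ℝ) ^ ((1 : ℝ) / 4) ≤ 4 * ((N : ℝ) / (Nat.totient D * Real.log N)) := by
    have h1 : Real.log N ≤ (N : ℝ) ^ ((1 : ℝ) / 4) / (1 / 4) :=
      Real.log_le_rpow_div hN0.le (by norm_num)
    have h2 : (Nat.totient D : ℝ) * Real.log N
        ≤ (N : ℝ) ^ ((1 : ℝ) / 2) * ((N : ℝ) ^ ((1 : ℝ) / 4) * 4) := by
      gcongr
      · exact hφD.trans hDle
      · linarith
    have h3 : (N : ℝ) ^ ((1 : ℝ) / 4) * ((N : ℝ) ^ ((1 : ℝ) / 2) * ((N : ℝ) ^ ((1 : ℝ) / 4) * 4))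
        = 4 * N := by
      have : (N : ℝ) ^ ((1 : ℝ) / 4) * (N : ℝ) ^ ((1 : ℝ) / 2) * (N : ℝ) ^ ((1 : ℝ) / 4) = N := by
        rw [← Real.rpow_add hN0, ← Real.rpow_add hN0]
        norm_num
      linear_combination 4 * this
    rw [← mul_div_assoc, le_div_iff₀ (by positivity)]
    calc _ ≤ (N : ℝ) ^ ((1 : ℝ) / 4) *
        ((N : ℝ) ^ ((1 : ℝ) / 2) * ((N : ℝ) ^ ((1 : ℝ) / 4) * 4)) := by gcongr
      _ = 4 * N := h3
  -- splitting
  have hsplit : (((Finset.Ioc 0 N).filter (fun p => p.Prime ∧ p ≡ a [MOD D])).card : ℝ)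
      ≤ R + (((Finset.Ioc R N).filter (fun p => p.Prime ∧ p ≡ a [MOD D])).card : ℝ) := by
    have hsub : (Finset.Ioc 0 N).filter (fun p => p.Prime ∧ p ≡ a [MOD D])
        ⊆ Finset.Ioc 0 R ∪ (Finset.Ioc R N).filter (fun p => p.Prime ∧ p ≡ a [MOD D]) := by
      intro p hp
      rw [Finset.mem_filter, Finset.mem_Ioc] at hp
      rw [Finset.mem_union, Finset.mem_filter, Finset.mem_Ioc, Finset.mem_Ioc]
      by_cases h : p ≤ R
      · exact Or.inl ⟨hp.1.1, h⟩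
      · exact Or.inr ⟨⟨by omega, hp.1.2⟩, hp.2⟩
    have h1 := (Finset.card_le_card hsub).trans (Finset.card_union_le _ _)
    rw [Nat.card_Ioc, Nat.sub_zero] at h1
    exact_mod_cast h1
  have hsieve := sieve_bound (D := D) (R := R) (N := N) (a := a) hD hR1
  have hG := Gsum_ge (D := D) (R := R) hD
  have hGlow : (Nat.totient D : ℝ) * Real.log N / 24 ≤ D * Gsum D R := by
    have h1 : (Nat.totient D : ℝ) / D * (Real.log N / 24) ≤ Gsum D R := by
      refine le_trans ?_ hG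
      gcongr
    calc (Nat.totient D : ℝ) * Real.log N / 24
        = D * ((Nat.totient D : ℝ) / D * (Real.log N / 24)) := by field_simp
      _ ≤ D * Gsum D R := by gcongr
  have hmain : (N : ℝ) / (D * Gsum D R) ≤ 24 * ((N : ℝ) / (Nat.totient D * Real.log N)) := by
    calc (N : ℝ) / (D * Gsum D R) ≤ N / ((Nat.totient D : ℝ) * Real.log N / 24) := by
          gcongr
      _ = 24 * ((N : ℝ) / (Nat.totient D * Real.log N)) := by field_simp
  calc (((Finset.Ioc 0 N).filter (fun p => p.Prime ∧ p ≡ a [MOD D])).card : ℝ)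
      ≤ R + ((N : ℝ) / (D * Gsum D R) + (R : ℝ) ^ 6) := by linarith
    _ ≤ 32 * ((N : ℝ) / (Nat.totient D * Real.log N)) := by linarith
    _ = 32 * (N : ℝ) / (Nat.totient D * Real.log N) := by ring

end Pool.Agent.Work.MP_92f640_nt
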