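import Mathlib
import Pool.Agent.Work.MP_92f640_nt.Defs
import Pool.Agent.Work.MP_92f640_nt.BT

/-!
# From Goldbach representations to a lower bound for a cost function on primes
-/

namespace Pool.Agent.Work.MP_92f640_nt

open Finset

/-- primes `≤ N` -/
def primesTo (N : ℕ) : Finset ℕ := (Finset.Ioc 0 N).filter Nat.Prime

theorem mem_primesTo {N p : ℕ} : p ∈ primesTo N ↔ p ≤ N ∧ p.Prime := by
  unfold primesTo
  rw [Finset.mem_filter, Finset.mem_Ioc]
  constructor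
  · rintro ⟨⟨_, h2⟩, h3⟩; exact ⟨h2, h3⟩
  · rintro ⟨h1, h2⟩; exact ⟨⟨h2.pos, h1⟩, h2⟩

/-- pairs of primes `≤ N` whose sum is `≤ N` and congruent to `r` modulo `M`. -/
def pairs (N M r : ℕ) : Finset (ℕ × ℕ) :=
  (primesTo N ×ˢ primesTo N).filter (fun x => x.1 + x.2 ≤ N ∧ x.1 + x.2 ≡ r [MOD M])

theorem mem_pairs {N M r : ℕ} {x : ℕ × ℕ} : x ∈ pairs N M r ↔
    (x.1 ∈ primesTo N ∧ x.2 ∈ primesTo N) ∧ x.1 + x.2 ≤ N ∧ x.1 + x.2 ≡ r [MOD M] := by
  unfold pairs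
  rw [Finset.mem_filter, Finset.mem_product]

theorem goldbachCount_eq {N M r n : ℕ} (hn : n ≤ N) (hr : n ≡ r [MOD M]) :
    goldbachCount n = ((pairs N M r).filter (fun x => x.1 + x.2 = n)).card := by
  unfold goldbachCount
  refine Finset.card_bij (fun p _ => (p, n - p)) ?_ ?_ ?_
  · intro p hp
    rw [Finset.mem_filter, Finset.mem_range] at hp
    obtain ⟨h1, h2, h3⟩ := hp
    rw [Finset.mem_filter, mem_pairs, mem_primesTo, mem_primesTo]
    have h4 : p + (n - p) = n := by omega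
    simp only
    rw [h4]
    exact ⟨⟨⟨⟨by omega, h2⟩, ⟨by omega, h3⟩⟩, hn, hr⟩, rfl⟩
  · intro a _ b _ hab
    exact (Prod.mk.inj hab).1
  · rintro ⟨a, b⟩ hx
    rw [Finset.mem_filter, mem_pairs, mem_primesTo, mem_primesTo] at hx
    obtain ⟨⟨⟨⟨h1, h2⟩, ⟨h3, h4⟩⟩, h5, h6⟩, h7⟩ := hx
    simp only at h1 h2 h3 h4 h5 h6 h7
    refine ⟨a, ?_, ?_⟩
    · rw [Finset.mem_filter, Finset.mem_range]
      refine ⟨by omega, h2, ?_⟩
      rw [show n - a = b by omega]
      exact h4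
    · rw [show n - a = b by omega]

theorem sum_goldbachCount_le {N M r : ℕ} (S : Finset ℕ)
    (hS : ∀ n ∈ S, n ≤ N ∧ n ≡ r [MOD M]) :
    ∑ n ∈ S, goldbachCount n ≤ (pairs N M r).card := by
  rw [Finset.sum_congr rfl (fun n hn => goldbachCount_eq (hS n hn).1 (hS n hn).2)]
  have h := Finset.sum_card_fiberwise_eq_card_filter (pairs N M r) S (fun x => x.1 + x.2)
  rw [h]
  exact Finset.card_filter_le _ _

/-- Upper bound for the number of pairs in terms of the cost. -/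
theorem card_pairs_le {N M r : ℕ} (c : ℕ → ℝ) (hc0 : ∀ n, 0 ≤ c n) (hM : 0 < M)
    (hc : ∀ a b, Nat.Coprime a M → Nat.Coprime b M → a + b ≡ r [MOD M] → 1 ≤ c a + c b)
    (hN : 2 ≤ N) (hMN : M ^ 2 ≤ N) :
    ((pairs N M r).card : ℝ) ≤ 2 * ((∑ p ∈ primesTo N, c p) *
      (32 * (N : ℝ) / (Nat.totient M * Real.log N))) + 2 * ((M : ℝ) * N) := by
  classical
  -- the indicator of dividing M
  set e : ℕ → ℝ := fun p => if p ∣ M then 1 else 0 with he
  have he0 : ∀ p, 0 ≤ e p := by intro p; simp only [he]; split_ifs <;> norm_num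
  have hpt : ∀ x ∈ pairs N M r, (1 : ℝ) ≤ (c x.1 + e x.1) + (c x.2 + e x.2) := by
    intro x hx
    rw [mem_pairs, mem_primesTo, mem_primesTo] at hx
    obtain ⟨⟨⟨_, h2⟩, ⟨_, h4⟩⟩, _, h6⟩ := hx
    by_cases h7 : x.1 ∣ M
    · have : e x.1 = 1 := by simp [he, h7]
      have := hc0 x.1; have := hc0 x.2; have := he0 x.2
      linarith
    · by_cases h8 : x.2 ∣ M
      · have : e x.2 = 1 := by simp [he, h8]
        have := hc0 x.1; have := hc0 x.2; have := he0 x.1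
        linarith
      · have h9 := hc x.1 x.2 ((Nat.Prime.coprime_iff_not_dvd h2).2 h7)
          ((Nat.Prime.coprime_iff_not_dvd h4).2 h8) h6
        have := he0 x.1; have := he0 x.2
        linarith
  have h1 : ((pairs N M r).card : ℝ) ≤ ∑ x ∈ pairs N M r, ((c x.1 + e x.1) + (c x.2 + e x.2)) := by
    have := Finset.card_nsmul_le_sum (pairs N M r) (fun x => (c x.1 + e x.1) + (c x.2 + e x.2)) 1 hpt
    rw [nsmul_eq_mul, mul_one] at this
    exact this
  have hswap : ∑ x ∈ pairs N M r, (c x.2 + e x.2) = ∑ x ∈ pairs N M r, (c x.1 + e x.1) := by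
    refine Finset.sum_bij (fun x _ => (x.2, x.1)) ?_ ?_ ?_ ?_
    · intro x hx
      rw [mem_pairs] at hx ⊢
      obtain ⟨⟨h1, h2⟩, h3, h4⟩ := hx
      simp only
      rw [add_comm x.2 x.1]
      exact ⟨⟨h2, h1⟩, h3, h4⟩
    · intro a _ b _ hab
      have := Prod.mk.inj hab
      exact Prod.ext this.2 this.1
    · intro x hx
      refine ⟨(x.2, x.1), ?_, rfl⟩
      rw [mem_pairs] at hx ⊢
      obtain ⟨⟨h1, h2⟩, h3, h4⟩ := hx
      simp only
      rw [add_comm x.2 x.1]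
      exact ⟨⟨h2, h1⟩, h3, h4⟩
    · intro x _; rfl
  have hc1 : ∑ x ∈ pairs N M r, c x.1 ≤ (∑ p ∈ primesTo N, c p) *
      (32 * (N : ℝ) / (Nat.totient M * Real.log N)) := by
    have h2 : ∑ x ∈ pairs N M r, c x.1 ≤ ∑ x ∈ (primesTo N ×ˢ primesTo N).filter
        (fun x => x.1 + x.2 ≡ r [MOD M]), c x.1 := by
      apply Finset.sum_le_sum_of_subset_of_nonneg
      · intro x hx
        rw [mem_pairs] at hx
        rw [Finset.mem_filter, Finset.mem_product]
        exact ⟨hx.1, hx.2.2⟩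
      · intro i _ _; exact hc0 _
    refine h2.trans ?_
    rw [Finset.sum_filter, Finset.sum_product, Finset.sum_mul]
    apply Finset.sum_le_sum
    intro p hp
    rw [← Finset.sum_filter]
    simp only
    rw [Finset.sum_const, nsmul_eq_mul, mul_comm]
    apply mul_le_mul_of_nonneg_left _ (hc0 p)
    have h3 := brun_titchmarsh (D := M) (N := N) (r + (M - 1) * p) hM hN hMN
    refine le_trans ?_ h3
    have h4 : (primesTo N).filter (fun p2 => p + p2 ≡ r [MOD M]) ⊆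
        (Finset.Ioc 0 N).filter (fun p2 => p2.Prime ∧ p2 ≡ r + (M - 1) * p [MOD M]) := by
      intro p2 hp2
      rw [Finset.mem_filter, mem_primesTo] at hp2
      rw [Finset.mem_filter, Finset.mem_Ioc]
      refine ⟨⟨hp2.1.2.pos, hp2.1.1⟩, hp2.1.2, ?_⟩
      have h5 := hp2.2.add_right ((M - 1) * p)
      have h6 : p + p2 + (M - 1) * p = p2 + M * p := by
        obtain ⟨k, rfl⟩ : ∃ k, M = k + 1 := ⟨M - 1, by omega⟩
        simp only [Nat.add_sub_cancel]
        ring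
      rw [h6] at h5
      have h7 : p2 + M * p ≡ p2 [MOD M] := by
        unfold Nat.ModEq
        rw [Nat.add_mul_mod_self_left]
      exact h7.symm.trans h5
    exact_mod_cast Finset.card_le_card h4
  have he1 : ∑ x ∈ pairs N M r, e x.1 ≤ (M : ℝ) * N := by
    have h2 : ∑ x ∈ pairs N M r, e x.1 = (((pairs N M r).filter (fun x => x.1 ∣ M)).card : ℝ) := by
      simp only [he]
      rw [← Finset.sum_filter, Finset.card_eq_sum_ones]
      push_cast; rfl
    rw [h2]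
    have h3 : (pairs N M r).filter (fun x => x.1 ∣ M) ⊆ (Finset.Ioc 0 M) ×ˢ (Finset.Ioc 0 N) := by
      intro x hx
      rw [Finset.mem_filter, mem_pairs, mem_primesTo, mem_primesTo] at hx
      rw [Finset.mem_product, Finset.mem_Ioc, Finset.mem_Ioc]
      exact ⟨⟨hx.1.1.1.2.pos, Nat.le_of_dvd hM hx.2⟩, ⟨hx.1.1.2.2.pos, hx.1.1.2.1⟩⟩
    have h4 := Finset.card_le_card h3
    rw [Finset.card_product, Nat.card_Ioc, Nat.card_Ioc, Nat.sub_zero, Nat.sub_zero] at h4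
    exact_mod_cast h4
  calc ((pairs N M r).card : ℝ) ≤ _ := h1
    _ = 2 * ∑ x ∈ pairs N M r, (c x.1 + e x.1) := by
        rw [Finset.sum_add_distrib, hswap]; ring
    _ = 2 * (∑ x ∈ pairs N M r, c x.1) + 2 * (∑ x ∈ pairs N M r, e x.1) := by
        rw [Finset.sum_add_distrib]; ring
    _ ≤ _ := by linarith

/-- the number of `n ∈ (N/2, N]` in a residue class -/
theorem card_class_ge {N M r : ℕ} (hM : 0 < M) :
    (N : ℝ) / (2 * M) - 2 ≤ (((Finset.Ioc 0 N).filter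
      (fun n => N < 2 * n ∧ n ≡ r [MOD M])).card : ℝ) := by
  have h1 := abs_card_modEq_sub N M r hM
  have h2 := abs_card_modEq_sub (N / 2) M r hM
  rw [abs_le] at h1 h2
  have h3 : (Finset.Ioc 0 N).filter (fun n => n ≡ r [MOD M])
      = (Finset.Ioc 0 (N / 2)).filter (fun n => n ≡ r [MOD M]) ∪
        (Finset.Ioc 0 N).filter (fun n => N < 2 * n ∧ n ≡ r [MOD M]) := by
    ext n
    simp only [Finset.mem_union, Finset.mem_filter, Finset.mem_Ioc]
    constructor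
    · rintro ⟨⟨h4, h5⟩, h6⟩
      by_cases h7 : N < 2 * n
      · exact Or.inr ⟨⟨h4, h5⟩, h7, h6⟩
      · exact Or.inl ⟨⟨h4, by omega⟩, h6⟩
    · rintro (⟨⟨h4, h5⟩, h6⟩ | ⟨⟨h4, h5⟩, _, h6⟩)
      · exact ⟨⟨h4, by omega⟩, h6⟩
      · exact ⟨⟨h4, h5⟩, h6⟩
  have h4 := Finset.card_union_le ((Finset.Ioc 0 (N / 2)).filter (fun n => n ≡ r [MOD M]))
    ((Finset.Ioc 0 N).filter (fun n => N < 2 * n ∧ n ≡ r [MOD M]))
  rw [← h3] at h4
  have h5 : (((Finset.Ioc 0 N).filter (fun n => n ≡ r [MOD M])).card : ℝ)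
      ≤ (((Finset.Ioc 0 (N / 2)).filter (fun n => n ≡ r [MOD M])).card : ℝ)
        + (((Finset.Ioc 0 N).filter (fun n => N < 2 * n ∧ n ≡ r [MOD M])).card : ℝ) := by
    exact_mod_cast h4
  have hMR : (0 : ℝ) < M := by exact_mod_cast hM
  have h6 : ((N / 2 : ℕ) : ℝ) / M ≤ (N : ℝ) / (2 * M) := by
    rw [div_le_div_iff₀ (by positivity) (by positivity)]
    have h7 : ((N / 2 : ℕ) : ℝ) * 2 ≤ N := by
      have : N / 2 * 2 ≤ N := Nat.div_mul_le_self N 2
      exact_mod_cast this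
    nlinarith
  have h7 : (N : ℝ) / M = 2 * ((N : ℝ) / (2 * M)) := by field_simp
  linarith [h1.1, h2.2]

theorem cost_lower_bound {δ : ℝ} (hδ : 0 < δ) {N D M r : ℕ} (c : ℕ → ℝ) (hc0 : ∀ n, 0 ≤ c n)
    (hDe : Even D) (hD : 0 < D) (hDM : D ∣ M) (hM : 0 < M) (hM3 : M ≤ 3 * D) (hDr : D ∣ r)
    (hc : ∀ a b, Nat.Coprime a M → Nat.Coprime b M → a + b ≡ r [MOD M] → 1 ≤ c a + c b)
    (hMN : M ^ 4 ≤ N) (hN : (24576 / δ) ^ 4 ≤ N) (hN1 : 1000 ≤ N)
    (hexc : ((exceptions δ N D).card : ℝ) ≤ (N : ℝ) / (8 * D)) :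
    δ / 12288 * ((Nat.totient M : ℝ) / M) * ((N : ℝ) / Real.log N) ≤ ∑ p ∈ primesTo N, c p := by
  classical
  have hNR : (1000 : ℝ) ≤ N := by exact_mod_cast hN1
  have hN0 : (0 : ℝ) < N := by linarith
  have hN1' : (1 : ℝ) ≤ N := by linarith
  have hlog : 0 < Real.log N := Real.log_pos (by linarith)
  have hDR : (0 : ℝ) < D := by exact_mod_cast hD
  have hMR : (0 : ℝ) < M := by exact_mod_cast hM
  have hφ : (0 : ℝ) < Nat.totient M := by exact_mod_cast Nat.totient_pos.2 hM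
  have hDM' : D ≤ M := Nat.le_of_dvd hM hDM
  have hDMR : (D : ℝ) ≤ M := by exact_mod_cast hDM'
  have hM3R : (M : ℝ) ≤ 3 * D := by exact_mod_cast hM3
  have hM4 : (M : ℝ) ^ 4 ≤ N := by exact_mod_cast hMN
  -- good numbers
  set S : Finset ℕ := ((Finset.Ioc 0 N).filter (fun n => N < 2 * n ∧ n ≡ r [MOD M])) \
    exceptions δ N D with hS
  have hcardS : (N : ℝ) / (48 * D) ≤ S.card := by
    have h1 := card_class_ge (N := N) (r := r) hM
    have h2 : ((Finset.Ioc 0 N).filter (fun n => N < 2 * n ∧ n ≡ r [MOD M])).card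
        - (exceptions δ N D).card ≤ S.card := Finset.le_card_sdiff _ _
    have h3 : (((Finset.Ioc 0 N).filter (fun n => N < 2 * n ∧ n ≡ r [MOD M])).card : ℝ)
        ≤ S.card + (exceptions δ N D).card := by
      have : ((Finset.Ioc 0 N).filter (fun n => N < 2 * n ∧ n ≡ r [MOD M])).card
        ≤ S.card + (exceptions δ N D).card := by omega
      exact_mod_cast this
    have h4 : (N : ℝ) / (6 * D) ≤ (N : ℝ) / (2 * M) := by
      apply div_le_div_of_nonneg_left hN0.le (by positivity)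
      linarith
    -- 96 D ≤ N
    have h5 : 96 * (D : ℝ) ≤ N := by
      by_cases h6 : (D : ℝ) ≤ 10
      · linarith
      · push Not at h6
        have h7 : (D : ℝ) ^ 4 ≤ N := le_trans (by gcongr) hM4
        have h8 : (10 : ℝ) ^ 3 ≤ (D : ℝ) ^ 3 := by gcongr
        have h9 : 96 * (D : ℝ) ≤ (D : ℝ) ^ 4 := by
          have : (D : ℝ) ^ 4 = (D : ℝ) ^ 3 * D := by ring
          rw [this]
          gcongr
          linarith
        linarith
    have h6 : (2 : ℝ) ≤ (N : ℝ) / (48 * D) := by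
      rw [le_div_iff₀ (by positivity)]; linarith
    have h7 : (N : ℝ) / (6 * D) = (N : ℝ) / (48 * D) + (N : ℝ) / (48 * D) + (N : ℝ) / (8 * D) := by
      field_simp; norm_num
    linarith
  -- each good number has many representations
  have hgood : ∀ n ∈ S, δ * (N / 2) / (Real.log N) ^ 2 ≤ (goldbachCount n : ℝ) := by
    intro n hn
    rw [hS, Finset.mem_sdiff, Finset.mem_filter, Finset.mem_Ioc] at hn
    obtain ⟨⟨⟨h1, h2⟩, h3, h4⟩, h5⟩ := hn
    have hDn : D ∣ n := by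
      have h6 : n ≡ r [MOD D] := h4.of_dvd hDM
      exact (Nat.modEq_zero_iff_dvd).1 (h6.trans ((Nat.modEq_zero_iff_dvd).2 hDr))
    have hne : Even n := hDe.trans_dvd hDn
    have hnR : (n : ℝ) ≤ N := by exact_mod_cast h2
    have hnR2 : (N : ℝ) / 2 < n := by
      have : (N : ℝ) < 2 * n := by exact_mod_cast h3
      linarith
    have hnb : ¬ Bad δ n := by
      intro hb
      apply h5
      rw [mem_exceptions]
      refine ⟨⟨h1, ?_⟩, hnR2, hne, hDn, hb⟩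
      rw [Nat.floor_natCast]; exact h2
    unfold Bad at hnb
    push Not at hnb
    refine le_trans ?_ hnb
    have hn0 : (0 : ℝ) < n := by linarith
    have hlogn : 0 < Real.log n := Real.log_pos (by linarith)
    have hlogle : Real.log n ≤ Real.log N := Real.log_le_log hn0 hnR
    gcongr
  have hlow : (N : ℝ) / (48 * D) * (δ * (N / 2) / (Real.log N) ^ 2)
      ≤ ((pairs N M r).card : ℝ) := by
    have h1 : (∑ n ∈ S, goldbachCount n) ≤ (pairs N M r).card := by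
      apply sum_goldbachCount_le
      intro n hn
      rw [hS, Finset.mem_sdiff, Finset.mem_filter, Finset.mem_Ioc] at hn
      exact ⟨hn.1.1.2, hn.1.2.2⟩
    have h2 : (S.card : ℝ) * (δ * (N / 2) / (Real.log N) ^ 2) ≤ ∑ n ∈ S, (goldbachCount n : ℝ) := by
      have := Finset.card_nsmul_le_sum S (fun n => (goldbachCount n : ℝ)) _ hgood
      rwa [nsmul_eq_mul] at this
    have h3 : (∑ n ∈ S, (goldbachCount n : ℝ)) ≤ ((pairs N M r).card : ℝ) := by exact_mod_cast h1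
    calc _ ≤ (S.card : ℝ) * (δ * (N / 2) / (Real.log N) ^ 2) := by gcongr
      _ ≤ _ := h2.trans h3
  have hMN2 : M ^ 2 ≤ N := by
    calc M ^ 2 ≤ M ^ 4 := Nat.pow_le_pow_right hM (by norm_num)
      _ ≤ N := hMN
  have hup := card_pairs_le (N := N) (M := M) (r := r) c hc0 hM hc (by omega) hMN2
  set C : ℝ := ∑ p ∈ primesTo N, c p with hC
  -- error term
  have herr : 384 * ((M : ℝ) * D) * (Real.log N) ^ 2 ≤ δ * N := by
    have h1 : Real.log N ≤ (N : ℝ) ^ ((1 : ℝ) / 8) / (1 / 8) :=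
      Real.log_le_rpow_div hN0.le (by norm_num)
    have h2 : (Real.log N) ^ 2 ≤ 64 * (N : ℝ) ^ ((1 : ℝ) / 4) := by
      calc (Real.log N) ^ 2 ≤ ((N : ℝ) ^ ((1 : ℝ) / 8) / (1 / 8)) ^ 2 := by gcongr
        _ = 64 * ((N : ℝ) ^ ((1 : ℝ) / 8)) ^ 2 := by ring
        _ = 64 * (N : ℝ) ^ ((1 : ℝ) / 4) := by
          rw [← Real.rpow_natCast, ← Real.rpow_mul hN0.le]; norm_num
    have h3 : (M : ℝ) * D ≤ (N : ℝ) ^ ((1 : ℝ) / 2) := by
      have h4 : (M : ℝ) ^ 2 ≤ (N : ℝ) ^ ((1 : ℝ) / 2) := by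
        rw [← Real.sqrt_eq_rpow]
        apply Real.le_sqrt_of_sq_le
        have h5 : ((M : ℝ) ^ 2) ^ 2 = (M : ℝ) ^ 4 := by ring
        rw [h5]
        exact hM4
      calc (M : ℝ) * D ≤ M * M := by gcongr
        _ = (M : ℝ) ^ 2 := by ring
        _ ≤ _ := h4
    have h5 : 24576 / δ ≤ (N : ℝ) ^ ((1 : ℝ) / 4) := by
      have h6 : ((24576 / δ) ^ 4) ^ ((1 : ℝ) / 4) ≤ (N : ℝ) ^ ((1 : ℝ) / 4) := by
        gcongr
      rwa [← Real.rpow_natCast, ← Real.rpow_mul (by positivity),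
        show ((4 : ℕ) : ℝ) * (1 / 4) = 1 by norm_num, Real.rpow_one] at h6
    have h7 : 24576 ≤ δ * (N : ℝ) ^ ((1 : ℝ) / 4) := by
      rw [div_le_iff₀ hδ] at h5; linarith
    have h8 : (N : ℝ) ^ ((1 : ℝ) / 2) * (N : ℝ) ^ ((1 : ℝ) / 4) * (N : ℝ) ^ ((1 : ℝ) / 4) = N := by
      rw [← Real.rpow_add hN0, ← Real.rpow_add hN0]; norm_num
    calc 384 * ((M : ℝ) * D) * (Real.log N) ^ 2
        ≤ 384 * (N : ℝ) ^ ((1 : ℝ) / 2) * (64 * (N : ℝ) ^ ((1 : ℝ) / 4)) := by gcongr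
      _ = 24576 * ((N : ℝ) ^ ((1 : ℝ) / 2) * (N : ℝ) ^ ((1 : ℝ) / 4)) := by ring
      _ ≤ (δ * (N : ℝ) ^ ((1 : ℝ) / 4)) * ((N : ℝ) ^ ((1 : ℝ) / 2) * (N : ℝ) ^ ((1 : ℝ) / 4)) := by
          gcongr
      _ = δ * ((N : ℝ) ^ ((1 : ℝ) / 2) * (N : ℝ) ^ ((1 : ℝ) / 4) * (N : ℝ) ^ ((1 : ℝ) / 4)) := by
          ring
      _ = δ * N := by rw [h8]
  -- combine
  have hcomb : (N : ℝ) / (48 * D) * (δ * (N / 2) / (Real.log N) ^ 2)
      ≤ 2 * (C * (32 * (N : ℝ) / (Nat.totient M * Real.log N))) + 2 * ((M : ℝ) * N) :=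
    hlow.trans hup
  have hE : 2 * ((M : ℝ) * N) ≤ (N : ℝ) / (96 * D) * (δ * (N / 2) / (Real.log N) ^ 2) := by
    have : (N : ℝ) / (96 * D) * (δ * (N / 2) / (Real.log N) ^ 2)
        = (N * (δ * N)) / (192 * D * (Real.log N) ^ 2) := by
      field_simp; norm_num
    rw [this, le_div_iff₀ (by positivity)]
    calc 2 * ((M : ℝ) * N) * (192 * D * (Real.log N) ^ 2)
        = N * (384 * ((M : ℝ) * D) * (Real.log N) ^ 2) := by ring
      _ ≤ N * (δ * N) := by gcongr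
  have hhalf : (N : ℝ) / (48 * D) * (δ * (N / 2) / (Real.log N) ^ 2)
      = 2 * ((N : ℝ) / (96 * D) * (δ * (N / 2) / (Real.log N) ^ 2)) := by
    field_simp; norm_num
  have hfin : (N : ℝ) / (96 * D) * (δ * (N / 2) / (Real.log N) ^ 2)
      ≤ 2 * (C * (32 * (N : ℝ) / (Nat.totient M * Real.log N))) := by
    linarith
  have hfin2 : δ / 12288 * ((Nat.totient M : ℝ) / D) * ((N : ℝ) / Real.log N) ≤ C := by
    have h1 : 2 * (C * (32 * (N : ℝ) / (Nat.totient M * Real.log N)))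
        = C * (64 * (N : ℝ) / (Nat.totient M * Real.log N)) := by ring
    rw [h1, ← div_le_iff₀ (by positivity)] at hfin
    refine le_trans (le_of_eq ?_) hfin
    field_simp
    norm_num
  refine le_trans ?_ hfin2
  gcongr

end Pool.Agent.Work.MP_92f640_nt
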