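import Mathlib
import Pool.Agent.Work.MP_92f640_nt.Cost
import Pool.Agent.Work.MP_92f640_nt.Bridge
import Pool.Agent.Work.MP_92f640_nt.Chars

/-!
# Assembly
-/

namespace Pool.Agent.Work.MP_92f640_nt

open Finset

/-- totient comparison -/
theorem totient_ratio {q M : ℕ} (hq : 0 < q) (hM : 0 < M) (hqM : q ∣ M) (hM2 : M ≤ 2 * q) :
    (Nat.totient q : ℝ) / q / 2 ≤ (Nat.totient M : ℝ) / M := by
  have h1 : Nat.totient q ≤ Nat.totient M :=
    Nat.le_of_dvd (Nat.totient_pos.2 hM) (Nat.totient_dvd_of_dvd hqM)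
  have h2 : (Nat.totient q : ℝ) ≤ Nat.totient M := by exact_mod_cast h1
  have h3 : (M : ℝ) ≤ 2 * q := by exact_mod_cast hM2
  have h4 : (0 : ℝ) < M := by exact_mod_cast hM
  have h5 : (0 : ℝ) < q := by exact_mod_cast hq
  rw [div_div, div_le_div_iff₀ (by positivity) h4]
  have h6 : (0 : ℝ) ≤ Nat.totient q := by positivity
  nlinarith

theorem count_lower {q : ℕ} [NeZero q] (χ : DirichletCharacter ℂ q) (hquad : χ.IsQuadratic)
    (hcond : χ.Odd ∨ (χ.IsPrimitive ∧ (4 ∣ q ∨ (3 ∣ q ∧ ¬ 9 ∣ q))))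
    {δ : ℝ} (hδ : 0 < δ) {N : ℕ} (hq2 : 2 ≤ q) (hN4 : (2 * q) ^ 4 ≤ N)
    (hN : (24576 / δ) ^ 4 ≤ N) (hN1 : 1000 ≤ N)
    (hexc : ∀ D : ℕ, 0 < D → D ≤ 2 * q →
      ((exceptions δ N D).card : ℝ) ≤ (N : ℝ) / (8 * D)) :
    δ / 24576 * ((Nat.totient q : ℝ) / q) * ((N : ℝ) / Real.log N)
      ≤ ((splitPrimes (reChar χ) 0 N).card : ℝ) := by
  classical
  obtain ⟨D, M, r, hDe, hD, hDM, hM, hM3, hDr, hqM, hM2, hrel⟩ := exists_signClass χ hcond
  set c : ℕ → ℝ := fun p => if reChar χ p = 1 then 1 else 0 with hc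
  have hc0 : ∀ n, 0 ≤ c n := by intro n; simp only [hc]; split_ifs <;> norm_num
  have hMq : 2 ≤ M := hq2.trans (Nat.le_of_dvd hM hqM)
  have hne0 : ∀ a : ℕ, Nat.Coprime a M → a ≠ 0 := by
    rintro a ha rfl
    rw [Nat.coprime_zero_left] at ha
    omega
  have hval : ∀ a : ℕ, Nat.Coprime a M → χ (a : ZMod q) = 1 ∨ χ (a : ZMod q) = -1 := by
    intro a ha
    have h1 : Nat.Coprime a q := Nat.Coprime.coprime_dvd_right hqM ha
    have h2 : IsUnit (a : ZMod q) := (ZMod.isUnit_iff_coprime a q).2 h1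
    have h3 : χ (a : ZMod q) ≠ 0 := by
      intro h
      have h4 := h2.map χ
      rw [h] at h4
      exact not_isUnit_zero h4
    rcases hquad (a : ZMod q) with h | h | h
    · exact absurd h h3
    · exact Or.inl h
    · exact Or.inr h
  have hcs : ∀ a b, Nat.Coprime a M → Nat.Coprime b M → a + b ≡ r [MOD M] → 1 ≤ c a + c b := by
    intro a b ha hb hab
    have h1 := hrel a b ha hb hab
    simp only [hc]
    rw [reChar_apply χ (hne0 a ha), reChar_apply χ (hne0 b hb), h1]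
    rcases hval a ha with h | h
    · rw [h]; norm_num
    · rw [h]; norm_num
  have hDM' : D ≤ M := Nat.le_of_dvd hM hDM
  have hM4 : M ^ 4 ≤ N := (Nat.pow_le_pow_left hM2 4).trans hN4
  have h1 := cost_lower_bound hδ c hc0 hDe hD hDM hM hM3 hDr hcs hM4 hN hN1
    (hexc D hD (hDM'.trans hM2))
  have h2 : ∑ p ∈ primesTo N, c p = ((splitPrimes (reChar χ) 0 N).card : ℝ) := by
    simp only [hc]
    rw [← Finset.sum_filter, Finset.sum_const, nsmul_eq_mul, mul_one]
    congr 2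
    ext p
    rw [Finset.mem_filter, mem_primesTo, mem_splitPrimes]
    constructor
    · rintro ⟨⟨h3, h4⟩, h5⟩; exact ⟨⟨h4.pos, h3⟩, h4, h5⟩
    · rintro ⟨⟨_, h3⟩, h4, h5⟩; exact ⟨⟨h3, h4⟩, h5⟩
  rw [h2] at h1
  refine le_trans ?_ h1
  have h3 := totient_ratio (by omega : 0 < q) hM hqM hM2
  have hNR : (1000 : ℝ) ≤ N := by exact_mod_cast hN1
  have hlog : 0 < Real.log N := Real.log_pos (by linarith)
  calc δ / 24576 * ((Nat.totient q : ℝ) / q) * ((N : ℝ) / Real.log N)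
      = δ / 12288 * ((Nat.totient q : ℝ) / q / 2) * ((N : ℝ) / Real.log N) := by ring
    _ ≤ δ / 12288 * ((Nat.totient M : ℝ) / M) * ((N : ℝ) / Real.log N) := by gcongr

theorem main_bounds {δ ε x₀ : ℝ} (hδ : 0 < δ) (hε : 0 < ε)
    (H : ∀ x : ℝ, x₀ ≤ x → ∀ d : ℕ, 1 ≤ d → (d : ℝ) ≤ x / 4 → (d : ℝ) ≤ x ^ ε →
      ((exceptions δ x d).card : ℝ) ≤ x / (8 * (d : ℝ))) :
    ∃ c : ℝ, 0 < c ∧ ∃ q₀ : ℕ, ∀ q : ℕ, q₀ ≤ q → ∀ [NeZero q] (χ : DirichletCharacter ℂ q),
      χ.IsQuadratic → (χ.Odd ∨ (χ.IsPrimitive ∧ (4 ∣ q ∨ (3 ∣ q ∧ ¬ 9 ∣ q)))) →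
      c / Real.log q ≤ (DirichletCharacter.LFunction χ 1).re ∧
      ∀ β : ℝ, β < 1 → DirichletCharacter.LFunction χ β = 0 →
        c * ((Nat.totient q : ℝ) / (q * Real.log q)) ≤ 1 - β := by
  set c₀ : ℝ := δ / 24576 with hc₀
  have hc₀pos : 0 < c₀ := by positivity
  set m : ℕ := max 3 ⌈1 / ε⌉₊ with hm
  have hm3 : 3 ≤ m := le_max_left _ _
  have hmε : 1 ≤ (m : ℝ) * ε := by
    have h1 : (1 / ε) ≤ (⌈1 / ε⌉₊ : ℝ) := Nat.le_ceil _
    have h2 : ((⌈1 / ε⌉₊ : ℕ) : ℝ) ≤ m := by exact_mod_cast le_max_right _ _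
    have h3 : 1 / ε ≤ m := h1.trans h2
    rwa [div_le_iff₀ hε] at h3
  have hmR : (3 : ℝ) ≤ m := by exact_mod_cast hm3
  refine ⟨min (1 / 2) (c₀ / (256 * m)), by positivity,
    max 1000 (max ⌈x₀⌉₊ (max ⌈(24576 / δ) ^ 4⌉₊ ⌈3200 / c₀⌉₊)), ?_⟩
  intro q hq _ χ hquad hcond
  have hq1000 : 1000 ≤ q := (le_max_left _ _).trans hq
  have hqx : x₀ ≤ q := by
    have h1 : ⌈x₀⌉₊ ≤ q := ((le_max_left _ _).trans (le_max_right _ _)).trans hq
    exact (Nat.le_ceil x₀).trans (by exact_mod_cast h1)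
  have hqδ : (24576 / δ) ^ 4 ≤ q := by
    have h1 : ⌈(24576 / δ) ^ 4⌉₊ ≤ q :=
      (((le_max_left _ _).trans (le_max_right _ _)).trans (le_max_right _ _)).trans hq
    exact (Nat.le_ceil _).trans (by exact_mod_cast h1)
  have hqc : 3200 / c₀ ≤ q := by
    have h1 : ⌈3200 / c₀⌉₊ ≤ q :=
      (((le_max_right _ _).trans (le_max_right _ _)).trans (le_max_right _ _)).trans hq
    exact (Nat.le_ceil _).trans (by exact_mod_cast h1)
  have hqR : (1000 : ℝ) ≤ q := by exact_mod_cast hq1000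
  have hq0 : (0 : ℝ) < q := by linarith
  have hq1 : (1 : ℝ) ≤ q := by linarith
  have hqn : 0 < q := by omega
  have hφ : (0 : ℝ) < Nat.totient q := by exact_mod_cast Nat.totient_pos.2 hqn
  have hφ1 : (1 : ℝ) ≤ Nat.totient q := by exact_mod_cast Nat.totient_pos.2 hqn
  have hφq : (Nat.totient q : ℝ) ≤ q := by exact_mod_cast Nat.totient_le q
  have hlogq : 1 ≤ Real.log q := by
    rw [← Real.log_exp 1]
    apply Real.log_le_log (Real.exp_pos 1)
    have := Real.exp_one_lt_d9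
    linarith
  have hne := ne_one_of_cond χ hcond
  have hf := reChar_isRChar χ hquad hne
  -- the parameters
  set w : ℕ := q ^ (2 * m) with hw
  set z : ℕ := w ^ 2 with hz
  have hwR : (w : ℝ) = ((q : ℝ) ^ m) ^ 2 := by rw [hw]; push_cast; ring
  have hqm : (q : ℝ) ^ 3 ≤ (q : ℝ) ^ m := pow_le_pow_right₀ hq1 hm3
  have hqw : q ≤ w := by
    rw [hw]; exact Nat.le_self_pow (by omega) q
  have hq2w : (q : ℝ) ^ 2 ≤ w := by
    rw [hw]; push_cast
    exact pow_le_pow_right₀ hq1 (by omega)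
  have hw3 : 3 ≤ w := by omega
  have hw0 : (0 : ℝ) < w := by
    have : 0 < w := by omega
    exact_mod_cast this
  have hlogw : Real.log w = 2 * m * Real.log q := by
    rw [hw]; push_cast; rw [Real.log_pow]; push_cast; ring
  set c : ℝ := c₀ * ((Nat.totient q : ℝ) / q) with hc
  have hcpos : 0 < c := by positivity
  have hcq : c₀ / q ≤ c := by
    rw [hc, div_eq_mul_inv, div_eq_mul_inv]
    have : 0 < (q : ℝ)⁻¹ := by positivity
    nlinarith [mul_pos hc₀pos this]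
  -- every N in the range
  have hrange : ∀ t : ℕ, z ^ 2 ≤ t → q ^ (8 * m) ≤ t := by
    intro t ht
    have : z ^ 2 = q ^ (8 * m) := by rw [hz, hw]; ring
    rwa [this] at ht
  have hq8 : q ^ 8 ≤ q ^ (8 * m) := Nat.pow_le_pow_right hqn (by omega)
  have hcount : ∀ t : ℕ, z ^ 2 ≤ t → t ≤ z ^ 4 → c * ((t : ℝ) / Real.log t) ≤
      (splitPrimes (reChar χ) 0 t).card := by
    intro t ht _
    have ht8 := hrange t ht
    have ht1 : q ^ 8 ≤ t := hq8.trans ht8
    have hqt : q ≤ t := (Nat.le_self_pow (by norm_num) q).trans ht1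
    have hqtR : (q : ℝ) ≤ t := by exact_mod_cast hqt
    apply count_lower χ hquad hcond hδ (by omega) _ (hqδ.trans hqtR) (by omega)
    · intro D hD hD2
      have hD2R : (D : ℝ) ≤ 2 * q := by exact_mod_cast hD2
      have hq2t : (q : ℝ) ^ 2 ≤ t := by
        have : q ^ 2 ≤ t := (Nat.pow_le_pow_right hqn (by norm_num)).trans ht1
        exact_mod_cast this
      apply H t (hqx.trans hqtR) D hD
      · nlinarith
      · have h1 : ((q : ℝ) ^ (8 * m)) ≤ t := by exact_mod_cast ht8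
        have h2 : ((q : ℝ) ^ (8 * m)) ^ ε ≤ (t : ℝ) ^ ε := by gcongr
        have h3 : (q : ℝ) ^ (2 : ℝ) ≤ ((q : ℝ) ^ (8 * m)) ^ ε := by
          rw [← Real.rpow_natCast, ← Real.rpow_mul hq0.le]
          apply Real.rpow_le_rpow_of_exponent_le hq1
          push_cast
          nlinarith
        have h4 : (D : ℝ) ≤ (q : ℝ) ^ (2 : ℝ) := by
          rw [Real.rpow_two]; nlinarith
        linarith
    · calc (2 * q) ^ 4 ≤ (q * q) ^ 4 := Nat.pow_le_pow_left (Nat.mul_le_mul_right q (by omega)) 4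
        _ = q ^ 8 := by ring
        _ ≤ t := ht1
  have hsmall : ∀ t : ℕ, z ^ 2 ≤ t → t ≤ z ^ 4 → (z : ℝ) ≤ c / 2 * ((t : ℝ) / Real.log t) := by
    intro t ht _
    have htz : ((z : ℝ)) ^ 2 ≤ t := by exact_mod_cast ht
    have hzR : (z : ℝ) = (w : ℝ) ^ 2 := by rw [hz]; push_cast; ring
    have htw : (w : ℝ) ^ 4 ≤ t := by
      have h5 : (w : ℝ) ^ 4 = (z : ℝ) ^ 2 := by rw [hzR]; ring
      rw [h5]; exact htz
    have hw1 : (1 : ℝ) < w := by
      have : (3 : ℝ) ≤ w := by exact_mod_cast hw3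
      linarith
    have ht0 : (0 : ℝ) < t := lt_of_lt_of_le (by positivity) htw
    have ht1 : (1 : ℝ) < t := lt_of_lt_of_le (one_lt_pow₀ hw1 (by norm_num)) htw
    have hlogt : 0 < Real.log t := Real.log_pos ht1
    have h1 : Real.log t ≤ (t : ℝ) ^ ((1 : ℝ) / 4) / (1 / 4) :=
      Real.log_le_rpow_div ht0.le (by norm_num)
    have h2 : (w : ℝ) ^ 3 ≤ (t : ℝ) ^ ((3 : ℝ) / 4) := by
      have h3 : ((w : ℝ) ^ 4) ^ ((3 : ℝ) / 4) ≤ (t : ℝ) ^ ((3 : ℝ) / 4) := by gcongr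
      rw [← Real.rpow_natCast, ← Real.rpow_mul hw0.le] at h3
      rw [← Real.rpow_natCast]
      convert h3 using 2
      norm_num
    have h3 : (w : ℝ) ^ 3 / 4 ≤ (t : ℝ) / Real.log t := by
      rw [le_div_iff₀ hlogt]
      have h4 : (t : ℝ) ^ ((3 : ℝ) / 4) * (t : ℝ) ^ ((1 : ℝ) / 4) = t := by
        rw [← Real.rpow_add ht0]; norm_num
      calc (w : ℝ) ^ 3 / 4 * Real.log t
          ≤ (t : ℝ) ^ ((3 : ℝ) / 4) / 4 * ((t : ℝ) ^ ((1 : ℝ) / 4) / (1 / 4)) := by gcongr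
        _ = (t : ℝ) ^ ((3 : ℝ) / 4) * (t : ℝ) ^ ((1 : ℝ) / 4) := by ring
        _ = t := h4
    have h4 : 8 ≤ c * w := by
      calc (8 : ℝ) ≤ c₀ * q := by
            rw [div_le_iff₀ hc₀pos] at hqc
            linarith
        _ = c₀ / q * (q : ℝ) ^ 2 := by field_simp
        _ ≤ c * w := by gcongr
    rw [hzR]
    calc (w : ℝ) ^ 2 ≤ c * w / 8 * (w : ℝ) ^ 2 := by
          have : 0 < (w : ℝ) ^ 2 := by positivity
          nlinarith
      _ = c / 2 * ((w : ℝ) ^ 3 / 4) := by ring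
      _ ≤ c / 2 * ((t : ℝ) / Real.log t) := by gcongr
  have hz2 : 2 ≤ z := by
    rw [hz]; nlinarith
  have hP := recip_sum_ge (f := reChar χ) hcpos hz2 hcount hsmall
  have hsm : 200 * (q : ℝ) * Real.log w / w ≤ c / 8 := by
    have h1 : Real.log w ≤ 2 * (q : ℝ) ^ m := by
      rw [hwR, Real.log_pow]
      push_cast
      have := Real.log_le_self (x := (q : ℝ) ^ m) (by positivity)
      linarith
    calc 200 * (q : ℝ) * Real.log w / w ≤ 200 * (q : ℝ) * (2 * (q : ℝ) ^ m) / w := by gcongr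
      _ = 400 * q / (q : ℝ) ^ m := by
          rw [hwR]
          have : (q : ℝ) ^ m ≠ 0 := by positivity
          field_simp
          norm_num
      _ ≤ 400 * q / (q : ℝ) ^ 3 := by gcongr
      _ = 400 / (q : ℝ) ^ 2 := by field_simp
      _ ≤ c₀ / q / 8 := by
          rw [div_le_iff₀ hc₀pos] at hqc
          rw [div_div, div_le_div_iff₀ (by positivity) (by positivity)]
          nlinarith
      _ ≤ c / 8 := by gcongr
  have hL := reChar_one χ hquad hne (w := w) (by omega)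
  constructor
  · -- value at one
    have hcop : ∀ n, ¬ Nat.Coprime n q → reChar χ n = 0 := by
      intro n hn
      rcases Nat.eq_zero_or_pos n with h | h
      · subst h; simp
      · rw [reChar_apply χ h.ne', MulChar.map_nonunit]
        · simp
        · rw [ZMod.isUnit_iff_coprime]; exact hn
    have hUS := hf.US_ge (z := z) hqn (hqw.trans (by rw [hz]; nlinarith)) hcop
    have hU1 := hf.one_le_US 1 (N := z) (by omega)
    have hb := hf.L_bound (G := max 1 ((q : ℝ) / Nat.totient q / 2)) hcpos hw3 hL hP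
      (max_le hU1 hUS) (le_max_left _ _) hsm
    rw [hlogw] at hb
    have h1 : c₀ / 2 ≤ c * max 1 ((q : ℝ) / Nat.totient q / 2) := by
      calc c₀ / 2 = c * ((q : ℝ) / Nat.totient q / 2) := by rw [hc]; field_simp
        _ ≤ _ := by
          apply mul_le_mul_of_nonneg_left (le_max_right _ _) hcpos.le
    have h2 : c₀ / (256 * m) / Real.log q ≤ (DirichletCharacter.LFunction χ 1).re := by
      rw [div_div, div_le_iff₀ (by positivity)]
      nlinarith
    refine le_trans ?_ h2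
    apply div_le_div_of_nonneg_right (min_le_right _ _) (by linarith)
  · intro β hβ1 h0
    have hr1 : (Nat.totient q : ℝ) / (q * Real.log q) ≤ 1 := by
      rw [div_le_one (by positivity)]
      nlinarith
    have hr0 : 0 < (Nat.totient q : ℝ) / (q * Real.log q) := by positivity
    by_cases hβ0 : 0 < β
    · have h0' := reChar_zero χ hquad hne hβ0 h0 (w := w) (by omega)
      have hb := hf.zero_bound hcpos hβ0 hβ1 hw3 hL h0' hP hsm
      rw [hlogw] at hb
      have h2 : c₀ / (128 * m) * ((Nat.totient q : ℝ) / (q * Real.log q)) ≤ 1 - β := by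
        have h3 : c₀ / (128 * m) * ((Nat.totient q : ℝ) / (q * Real.log q))
            = (c / 64) / (2 * m * Real.log q) := by
          rw [hc]; field_simp; norm_num
        rw [h3, div_le_iff₀ (by positivity)]
        linarith
      refine le_trans ?_ h2
      apply mul_le_mul_of_nonneg_right _ hr0.le
      refine (min_le_right _ _).trans ?_
      apply div_le_div_of_nonneg_left hc₀pos.le (by positivity)
      linarith
    · push Not at hβ0
      have h1 : min (1 / 2) (c₀ / (256 * (m : ℝ))) ≤ 1 / 2 := min_le_left _ _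
      calc min (1 / 2) (c₀ / (256 * (m : ℝ))) * ((Nat.totient q : ℝ) / (q * Real.log q))
          ≤ 1 / 2 * 1 := by gcongr
        _ ≤ 1 - β := by linarith

end Pool.Agent.Work.MP_92f640_nt
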