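import Mathlib
import Pool.Agent.Work.MP_92f640_nt.Final

/-!
# Repulsion for complex characters
-/

namespace Pool.Agent.Work.MP_92f640_nt

open Finset Filter Topology

theorem LFunction_one_real {q : ℕ} [NeZero q] (χ : DirichletCharacter ℂ q)
    (hquad : χ.IsQuadratic) (hne : χ ≠ 1) :
    DirichletCharacter.LFunction χ 1 = ((DirichletCharacter.LFunction χ 1).re : ℂ) := by
  apply Complex.ext
  · simp
  · have h1 := tendsto_LFunction χ hne (s := (1 : ℂ)) (by simp)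
    have h2 := (Complex.continuous_im.tendsto _).comp h1
    have h3 : (Complex.im ∘ fun N : ℕ => ∑ n ∈ Finset.Ioc 0 N, χ (n : ZMod q) * (n : ℂ) ^ (-(1 : ℂ)))
        = fun _ => 0 := by
      funext N
      simp only [Function.comp_apply]
      rw [Complex.im_sum]
      apply Finset.sum_eq_zero
      intro n _
      have h4 : ((n : ℂ)) ^ (-(1 : ℂ)) = ((((n : ℝ))⁻¹ : ℝ) : ℂ) := by
        rw [Complex.cpow_neg_one]; push_cast; rfl
      rw [h4, quad_eq_re χ hquad, ← Complex.ofReal_mul, Complex.ofReal_im]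
    rw [h3] at h2
    have h5 := tendsto_nhds_unique h2 tendsto_const_nhds
    rw [h5]; simp

theorem norm_sum_lower {q : ℕ} [NeZero q] (χ : DirichletCharacter ℂ q)
    (hcond : χ.Odd ∨ (χ.IsPrimitive ∧ (4 ∣ q ∨ (3 ∣ q ∧ ¬ 9 ∣ q)))) (w : ℂ)
    {δ : ℝ} (hδ : 0 < δ) {N : ℕ} (hq2 : 2 ≤ q) (hN4 : (2 * q) ^ 4 ≤ N)
    (hN : (24576 / δ) ^ 4 ≤ N) (hN1 : 1000 ≤ N)
    (hexc : ∀ D : ℕ, 0 < D → D ≤ 2 * q →
      ((exceptions δ N D).card : ℝ) ≤ (N : ℝ) / (8 * D)) :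
    δ / 12288 * ((Nat.totient q : ℝ) / q) * ((N : ℝ) / Real.log N)
      ≤ ∑ p ∈ (Finset.range (N + 1)).filter Nat.Prime, ‖w - χ (p : ZMod q)‖ := by
  obtain ⟨D, M, r, hDe, hD, hDM, hM, hM3, hDr, hqM, hM2, hrel⟩ := exists_signClass χ hcond
  set c : ℕ → ℝ := fun p => ‖w - χ (p : ZMod q)‖ / 2 with hc
  have hc0 : ∀ n, 0 ≤ c n := by intro n; simp only [hc]; positivity
  have hcs : ∀ a b, Nat.Coprime a M → Nat.Coprime b M → a + b ≡ r [MOD M] → 1 ≤ c a + c b := by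
    intro a b ha hb hab
    have h1 := hrel a b ha hb hab
    have h2 : IsUnit (a : ZMod q) :=
      (ZMod.isUnit_iff_coprime a q).2 (Nat.Coprime.coprime_dvd_right hqM ha)
    have h3 : ‖χ (a : ZMod q)‖ = 1 := by
      obtain ⟨u, hu⟩ := h2
      rw [← hu]
      exact DirichletCharacter.unit_norm_eq_one χ u
    simp only [hc]
    rw [h1]
    have h4 : (2 : ℝ) ≤ ‖w - χ (a : ZMod q)‖ + ‖w - -χ (a : ZMod q)‖ := by
      calc (2 : ℝ) = ‖(2 : ℂ) * χ (a : ZMod q)‖ := by rw [norm_mul, h3]; simp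
        _ = ‖(w - -χ (a : ZMod q)) - (w - χ (a : ZMod q))‖ := by congr 1; ring
        _ ≤ ‖w - -χ (a : ZMod q)‖ + ‖w - χ (a : ZMod q)‖ := norm_sub_le _ _
        _ = _ := by ring
    linarith
  have hDM' : D ≤ M := Nat.le_of_dvd hM hDM
  have hM4 : M ^ 4 ≤ N := (Nat.pow_le_pow_left hM2 4).trans hN4
  have h1 := cost_lower_bound hδ c hc0 hDe hD hDM hM hM3 hDr hcs hM4 hN hN1
    (hexc D hD (hDM'.trans hM2))
  have h2 : ∑ p ∈ primesTo N, c p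
      = (∑ p ∈ (Finset.range (N + 1)).filter Nat.Prime, ‖w - χ (p : ZMod q)‖) / 2 := by
    simp only [hc]
    rw [← Finset.sum_div]
    congr 2
    ext p
    rw [mem_primesTo, Finset.mem_filter, Finset.mem_range]
    constructor
    · rintro ⟨h3, h4⟩; exact ⟨by omega, h4⟩
    · rintro ⟨h3, h4⟩; exact ⟨by omega, h4⟩
  rw [h2] at h1
  have h3 := totient_ratio (by omega : 0 < q) hM hqM hM2
  have hNR : (1000 : ℝ) ≤ N := by exact_mod_cast hN1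
  have hlog : 0 < Real.log N := Real.log_pos (by linarith)
  have h4 : δ / 12288 * ((Nat.totient q : ℝ) / q / 2) * ((N : ℝ) / Real.log N)
      ≤ δ / 12288 * ((Nat.totient M : ℝ) / M) * ((N : ℝ) / Real.log N) := by gcongr
  have h5 : δ / 12288 * ((Nat.totient q : ℝ) / q) * ((N : ℝ) / Real.log N)
      = 2 * (δ / 12288 * ((Nat.totient q : ℝ) / q / 2) * ((N : ℝ) / Real.log N)) := by ring
  rw [h5]
  linarith

theorem repulsion_bounds {δ ε x₀ : ℝ} (hδ : 0 < δ) (hε : 0 < ε)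
    (H : ∀ x : ℝ, x₀ ≤ x → ∀ d : ℕ, 1 ≤ d → (d : ℝ) ≤ x / 4 → (d : ℝ) ≤ x ^ ε →
      ((exceptions δ x d).card : ℝ) ≤ x / (8 * (d : ℝ))) :
    ∃ c : ℝ, 0 < c ∧ ∃ A q₀ : ℕ, ∀ q : ℕ, q₀ ≤ q → ∀ [NeZero q] (χ : DirichletCharacter ℂ q),
      (χ.Odd ∨ (χ.IsPrimitive ∧ (4 ∣ q ∨ (3 ∣ q ∧ ¬ 9 ∣ q)))) →
      ∀ w : ℂ, ∀ N : ℕ, q ^ A ≤ N →
        c * ((Nat.totient q : ℝ) / q) * ((N : ℝ) / Real.log N)
          ≤ ∑ p ∈ (Finset.range (N + 1)).filter Nat.Prime, ‖w - χ (p : ZMod q)‖ := by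
  set m : ℕ := max 8 ⌈2 / ε⌉₊ with hm
  have hm8 : 8 ≤ m := le_max_left _ _
  have hmε : 2 ≤ (m : ℝ) * ε := by
    have h1 : (2 / ε) ≤ (⌈2 / ε⌉₊ : ℝ) := Nat.le_ceil _
    have h2 : ((⌈2 / ε⌉₊ : ℕ) : ℝ) ≤ m := by exact_mod_cast le_max_right _ _
    have h3 : 2 / ε ≤ m := h1.trans h2
    rwa [div_le_iff₀ hε] at h3
  refine ⟨δ / 12288, by positivity, m, max 1000 (max ⌈x₀⌉₊ ⌈(24576 / δ) ^ 4⌉₊), ?_⟩
  intro q hq _ χ hcond w N hN
  have hq1000 : 1000 ≤ q := (le_max_left _ _).trans hq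
  have hqx : x₀ ≤ q := by
    have h1 : ⌈x₀⌉₊ ≤ q := ((le_max_left _ _).trans (le_max_right _ _)).trans hq
    exact (Nat.le_ceil x₀).trans (by exact_mod_cast h1)
  have hqδ : (24576 / δ) ^ 4 ≤ q := by
    have h1 : ⌈(24576 / δ) ^ 4⌉₊ ≤ q := ((le_max_right _ _).trans (le_max_right _ _)).trans hq
    exact (Nat.le_ceil _).trans (by exact_mod_cast h1)
  have hqR : (1000 : ℝ) ≤ q := by exact_mod_cast hq1000
  have hq0 : (0 : ℝ) < q := by linarith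
  have hq1 : (1 : ℝ) ≤ q := by linarith
  have hqn : 0 < q := by omega
  have hq8 : q ^ 8 ≤ N := (Nat.pow_le_pow_right hqn hm8).trans hN
  have hqN : q ≤ N := (Nat.le_self_pow (by norm_num) q).trans hq8
  have hqNR : (q : ℝ) ≤ N := by exact_mod_cast hqN
  apply norm_sum_lower χ hcond w hδ (by omega) _ (hqδ.trans hqNR) (by omega)
  · intro D hD hD2
    have hD2R : (D : ℝ) ≤ 2 * q := by exact_mod_cast hD2
    have hq2t : (q : ℝ) ^ 2 ≤ N := by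
      have : q ^ 2 ≤ N := (Nat.pow_le_pow_right hqn (by norm_num)).trans hq8
      exact_mod_cast this
    apply H N (hqx.trans hqNR) D hD
    · nlinarith
    · have h1 : ((q : ℝ) ^ m) ≤ N := by exact_mod_cast hN
      have h2 : ((q : ℝ) ^ m) ^ ε ≤ (N : ℝ) ^ ε := by gcongr
      have h3 : (q : ℝ) ^ (2 : ℝ) ≤ ((q : ℝ) ^ m) ^ ε := by
        rw [← Real.rpow_natCast, ← Real.rpow_mul hq0.le]
        apply Real.rpow_le_rpow_of_exponent_le hq1
        exact hmε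
      have h4 : (D : ℝ) ≤ (q : ℝ) ^ (2 : ℝ) := by
        rw [Real.rpow_two]; nlinarith
      linarith
  · calc (2 * q) ^ 4 ≤ (q * q) ^ 4 := Nat.pow_le_pow_left (Nat.mul_le_mul_right q (by omega)) 4
      _ = q ^ 8 := by ring
      _ ≤ N := hq8

end Pool.Agent.Work.MP_92f640_nt
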