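import Mathlib
import Pool.Agent.Work.MP_92f640_nt.Cost
import Pool.Agent.Work.MP_92f640_nt.Final

/-!
# Primes do not concentrate on sets of residues `R` with `s ∉ R + R`
-/

namespace Pool.Agent.Work.MP_92f640_nt

open Finset

/-- Parameters for a residue `s` of order at most three. -/
theorem exists_params {q : ℕ} (hq : 0 < q) (s : ZMod q)
    (hev : ∃ n : ℕ, Even n ∧ (n : ZMod q) = s)
    (hord : s = 0 ∨ 2 * s = 0 ∨ 3 * s = 0) :
    ∃ D M r : ℕ, Even D ∧ 0 < D ∧ D ∣ M ∧ 0 < M ∧ M ≤ 3 * D ∧ D ∣ r ∧ q ∣ M ∧ M ≤ 2 * q ∧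
      (r : ZMod q) = s := by
  by_cases hs0 : s = 0
  · subst hs0
    exact ⟨2 * q, 2 * q, 0, even_two_mul q, by positivity, dvd_rfl, by positivity, by omega,
      dvd_zero _, Dvd.intro_left 2 rfl, le_refl _, by simp⟩
  obtain ⟨n, hn, hns⟩ := hev
  have hqn : ¬ q ∣ n := by
    intro h
    apply hs0
    rw [← hns]
    exact (ZMod.natCast_eq_zero_iff n q).2 h
  have hor : (q ∣ 2 * n) ∨ (q ∣ 3 * n) := by
    rcases hord with h | h | h
    · exact absurd h hs0
    · left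
      rw [← ZMod.natCast_eq_zero_iff]
      push_cast; rw [hns]; exact h
    · right
      rw [← ZMod.natCast_eq_zero_iff]
      push_cast; rw [hns]; exact h
  rcases Nat.even_or_odd q with hqe | hqo
  · -- q even, M = q, r = n
    rcases hor with h2 | h3
    · obtain ⟨e, he⟩ := hqe
      have he0 : 0 < e := by omega
      have hen : e ∣ n := by
        have h4 : 2 * e ∣ 2 * n := by rwa [show 2 * e = q by omega]
        exact Nat.dvd_of_mul_dvd_mul_left (by norm_num) h4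
      have hee : Even e := by
        obtain ⟨t, ht⟩ := hen
        by_contra h
        have h5 : Even (e * t) := ht ▸ hn
        rw [Nat.even_mul] at h5
        rcases h5 with h5 | h5
        · exact h h5
        · obtain ⟨u, hu⟩ := h5
          apply hqn
          exact ⟨u, by rw [ht, hu, he]; ring⟩
      exact ⟨e, q, n, hee, he0, ⟨2, by omega⟩, hq, by omega, hen, dvd_rfl, by omega, hns⟩
    · have h3q : 3 ∣ q := by
        by_contra h
        have hc : Nat.Coprime q 3 := ((Nat.Prime.coprime_iff_not_dvd Nat.prime_three).2 h).symm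
        exact hqn (hc.dvd_of_dvd_mul_left h3)
      obtain ⟨e, he⟩ := h3q
      have he0 : 0 < e := by omega
      have hen : e ∣ n := by
        have h4 : 3 * e ∣ 3 * n := by rwa [show 3 * e = q by omega]
        exact Nat.dvd_of_mul_dvd_mul_left (by norm_num) h4
      have hee : Even e := by
        rw [he, Nat.even_mul] at hqe
        rcases hqe with h | h
        · exact absurd h (by decide)
        · exact h
      exact ⟨e, q, n, hee, he0, ⟨3, by omega⟩, hq, by omega, hen, dvd_rfl, by omega, hns⟩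
  · -- q odd
    have hc2 : Nat.Coprime q 2 := by simpa using hqo
    have h3 : q ∣ 3 * n := by
      rcases hor with h | h
      · exact absurd (hc2.dvd_of_dvd_mul_left h) hqn
      · exact h
    have h3q : 3 ∣ q := by
      by_contra h
      have hc : Nat.Coprime q 3 := ((Nat.Prime.coprime_iff_not_dvd Nat.prime_three).2 h).symm
      exact hqn (hc.dvd_of_dvd_mul_left h3)
    obtain ⟨e, he⟩ := h3q
    have he0 : 0 < e := by omega
    have hen : e ∣ n := by
      have h4 : 3 * e ∣ 3 * n := by rwa [show 3 * e = q by omega]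
      exact Nat.dvd_of_mul_dvd_mul_left (by norm_num) h4
    have hce : Nat.Coprime 2 e := by
      have : e ∣ q := ⟨3, by omega⟩
      exact (Nat.Coprime.coprime_dvd_left this hc2).symm
    have h2en : 2 * e ∣ n := hce.mul_dvd_of_dvd_of_dvd hn.two_dvd hen
    exact ⟨2 * e, 2 * q, n, even_two_mul e, by positivity, ⟨3, by omega⟩, by positivity,
      by omega, h2en, Dvd.intro_left 2 rfl, le_refl _, hns⟩

theorem nonconc_lower {q : ℕ} {s : ZMod q}
    (hev : ∃ n : ℕ, Even n ∧ (n : ZMod q) = s)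
    (hord : s = 0 ∨ 2 * s = 0 ∨ 3 * s = 0) (R : Set (ZMod q)) [DecidablePred (· ∈ R)]
    (hR : ∀ a ∈ R, ∀ b ∈ R, a + b ≠ s)
    {δ : ℝ} (hδ : 0 < δ) {N : ℕ} (hq2 : 2 ≤ q) (hN4 : (2 * q) ^ 4 ≤ N)
    (hN : (24576 / δ) ^ 4 ≤ N) (hN1 : 1000 ≤ N)
    (hexc : ∀ D : ℕ, 0 < D → D ≤ 2 * q →
      ((exceptions δ N D).card : ℝ) ≤ (N : ℝ) / (8 * D)) :
    δ / 24576 * ((Nat.totient q : ℝ) / q) * ((N : ℝ) / Real.log N)
      ≤ (((Finset.range (N + 1)).filter (fun p : ℕ => p.Prime ∧ (p : ZMod q) ∉ R)).card : ℝ) := by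
  classical
  obtain ⟨D, M, r, hDe, hD, hDM, hM, hM3, hDr, hqM, hM2, hrs⟩ :=
    exists_params (by omega : 0 < q) s hev hord
  set c : ℕ → ℝ := fun p => if (p : ZMod q) ∈ R then 0 else 1 with hc
  have hc0 : ∀ n, 0 ≤ c n := by intro n; simp only [hc]; split_ifs <;> norm_num
  have hcs : ∀ a b, Nat.Coprime a M → Nat.Coprime b M → a + b ≡ r [MOD M] → 1 ≤ c a + c b := by
    intro a b _ _ hab
    have h1 : ((a + b : ℕ) : ZMod q) = s := by
      rw [← hrs, ZMod.natCast_eq_natCast_iff]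
      exact hab.of_dvd hqM
    push_cast at h1
    simp only [hc]
    by_cases ha : (a : ZMod q) ∈ R
    · by_cases hb : (b : ZMod q) ∈ R
      · exact absurd h1 (hR _ ha _ hb)
      · rw [if_pos ha, if_neg hb]; norm_num
    · rw [if_neg ha]
      split_ifs <;> norm_num
  have hDM' : D ≤ M := Nat.le_of_dvd hM hDM
  have hM4 : M ^ 4 ≤ N := (Nat.pow_le_pow_left hM2 4).trans hN4
  have h1 := cost_lower_bound hδ c hc0 hDe hD hDM hM hM3 hDr hcs hM4 hN hN1
    (hexc D hD (hDM'.trans hM2))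
  have h2 : ∑ p ∈ primesTo N, c p = (((Finset.range (N + 1)).filter
      (fun p : ℕ => p.Prime ∧ (p : ZMod q) ∉ R)).card : ℝ) := by
    have h3 : ∀ p, c p = if (p : ZMod q) ∉ R then 1 else 0 := by
      intro p; simp only [hc]; by_cases h : (p : ZMod q) ∈ R <;> simp [h]
    rw [Finset.sum_congr rfl (fun p _ => h3 p), ← Finset.sum_filter, Finset.sum_const,
      nsmul_eq_mul, mul_one]
    congr 2
    ext p
    rw [Finset.mem_filter, mem_primesTo, Finset.mem_filter, Finset.mem_range]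
    constructor
    · rintro ⟨⟨h3, h4⟩, h5⟩; exact ⟨by omega, h4, h5⟩
    · rintro ⟨h3, h4, h5⟩; exact ⟨⟨by omega, h4⟩, h5⟩
  rw [h2] at h1
  refine le_trans ?_ h1
  have h3 := totient_ratio (by omega : 0 < q) hM hqM hM2
  have hNR : (1000 : ℝ) ≤ N := by exact_mod_cast hN1
  have hlog : 0 < Real.log N := Real.log_pos (by linarith)
  calc δ / 24576 * ((Nat.totient q : ℝ) / q) * ((N : ℝ) / Real.log N)
      = δ / 12288 * ((Nat.totient q : ℝ) / q / 2) * ((N : ℝ) / Real.log N) := by ring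
    _ ≤ δ / 12288 * ((Nat.totient M : ℝ) / M) * ((N : ℝ) / Real.log N) := by gcongr

open Classical in
theorem nonconc_bounds {δ ε x₀ : ℝ} (hδ : 0 < δ) (hε : 0 < ε)
    (H : ∀ x : ℝ, x₀ ≤ x → ∀ d : ℕ, 1 ≤ d → (d : ℝ) ≤ x / 4 → (d : ℝ) ≤ x ^ ε →
      ((exceptions δ x d).card : ℝ) ≤ x / (8 * (d : ℝ))) :
    ∃ c : ℝ, 0 < c ∧ ∃ A q₀ : ℕ, ∀ q : ℕ, q₀ ≤ q → ∀ s : ZMod q,
      (∃ n : ℕ, Even n ∧ (n : ZMod q) = s) → (s = 0 ∨ 2 * s = 0 ∨ 3 * s = 0) →
      ∀ R : Set (ZMod q), (∀ a ∈ R, ∀ b ∈ R, a + b ≠ s) → ∀ N : ℕ, q ^ A ≤ N →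
        c * ((Nat.totient q : ℝ) / q) * ((N : ℝ) / Real.log N)
          ≤ (((Finset.range (N + 1)).filter
              (fun p : ℕ => p.Prime ∧ (p : ZMod q) ∉ R)).card : ℝ) := by
  set m : ℕ := max 8 ⌈2 / ε⌉₊ with hm
  have hm8 : 8 ≤ m := le_max_left _ _
  have hmε : 2 ≤ (m : ℝ) * ε := by
    have h1 : (2 / ε) ≤ (⌈2 / ε⌉₊ : ℝ) := Nat.le_ceil _
    have h2 : ((⌈2 / ε⌉₊ : ℕ) : ℝ) ≤ m := by exact_mod_cast le_max_right _ _
    have h3 : 2 / ε ≤ m := h1.trans h2
    rwa [div_le_iff₀ hε] at h3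
  refine ⟨δ / 24576, by positivity, m, max 1000 (max ⌈x₀⌉₊ ⌈(24576 / δ) ^ 4⌉₊), ?_⟩
  intro q hq s hev hord R hR N hN
  have hq1000 : 1000 ≤ q := (le_max_left _ _).trans hq
  have hqx : x₀ ≤ q := by
    have h1 : ⌈x₀⌉₊ ≤ q := ((le_max_left _ _).trans (le_max_right _ _)).trans hq
    exact (Nat.le_ceil x₀).trans (by exact_mod_cast h1)
  have hqδ : (24576 / δ) ^ 4 ≤ q := by
    have h1 : ⌈(24576 / δ) ^ 4⌉₊ ≤ q := ((le_max_right _ _).trans (le_max_right _ _)).trans hq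
    exact (Nat.le_ceil _).trans (by exact_mod_cast h1)
  have hqR : (1000 : ℝ) ≤ q := by exact_mod_cast hq1000
  have hq0 : (0 : ℝ) < q := by linarith
  have hq1 : (1 : ℝ) ≤ q := by linarith
  have hqn : 0 < q := by omega
  have hq8 : q ^ 8 ≤ N := (Nat.pow_le_pow_right hqn hm8).trans hN
  have hqN : q ≤ N := (Nat.le_self_pow (by norm_num) q).trans hq8
  have hqNR : (q : ℝ) ≤ N := by exact_mod_cast hqN
  apply nonconc_lower hev hord R hR hδ (by omega) _ (hqδ.trans hqNR) (by omega)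
  · intro D hD hD2
    have hD2R : (D : ℝ) ≤ 2 * q := by exact_mod_cast hD2
    have hq2t : (q : ℝ) ^ 2 ≤ N := by
      have : q ^ 2 ≤ N := (Nat.pow_le_pow_right hqn (by norm_num)).trans hq8
      exact_mod_cast this
    apply H N (hqx.trans hqNR) D hD
    · nlinarith
    · have h1 : ((q : ℝ) ^ m) ≤ N := by exact_mod_cast hN
      have h2 : ((q : ℝ) ^ m) ^ ε ≤ (N : ℝ) ^ ε := by gcongr
      have h3 : (q : ℝ) ^ (2 : ℝ) ≤ ((q : ℝ) ^ m) ^ ε := by
        rw [← Real.rpow_natCast, ← Real.rpow_mul hq0.le]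
        apply Real.rpow_le_rpow_of_exponent_le hq1
        exact hmε
      have h4 : (D : ℝ) ≤ (q : ℝ) ^ (2 : ℝ) := by
        rw [Real.rpow_two]; nlinarith
      linarith
  · calc (2 * q) ^ 4 ≤ (q * q) ^ 4 := Nat.pow_le_pow_left (Nat.mul_le_mul_right q (by omega)) 4
      _ = q ^ 8 := by ring
      _ ≤ N := hq8

end Pool.Agent.Work.MP_92f640_nt
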