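import Mathlib
import Pool.Agent.Work.MP_92f640_nt.Defs
import Pool.Agent.Work.MP_92f640_nt.Final

/-!
# Q1 for small moduli repels real zeros: `1 - β ≥ c φ(q) / (q log q)`

for all real characters `χ` modulo `q` that are odd, and for all real primitive characters `χ`
modulo `q` (of either parity) with `gcd(q, 6) > 1`.
-/

namespace Pool.Agent.Results.MP_92f640_nt.ZeroBound

open Pool.Agent.Work.MP_92f640_nt

/-- Let `ε > 0` and assume the assertion of Q1 for the moduli `q ≤ x ^ ε` only. Then there are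
`c > 0` and `q₀` such that every real zero `β < 1` of `L(s, χ)` satisfies
`1 - β ≥ c φ(q) / (q log q)`, for every real character `χ` modulo `q ≥ q₀` which is odd, or which is
primitive (even or odd) with `gcd(q, 6) > 1`. -/
theorem result {ε : ℝ} (hε : 0 < ε) (h : Q1UpTo ε) :
    ∃ c : ℝ, 0 < c ∧ ∃ q₀ : ℕ, ∀ (q : ℕ) [NeZero q] (χ : DirichletCharacter ℂ q), q₀ ≤ q →
      χ.IsQuadratic → (χ.Odd ∨ (χ.IsPrimitive ∧ ¬ Nat.Coprime q 6)) →
      ∀ β : ℝ, β < 1 → DirichletCharacter.LFunction χ (β : ℂ) = 0 →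
        c * (Nat.totient q : ℝ) / ((q : ℝ) * Real.log q) ≤ 1 - β := by
  obtain ⟨δ, hδ, x₀, H⟩ := h
  obtain ⟨c, hc, q₀, hq₀⟩ := main_bounds hδ hε H
  refine ⟨c, hc, q₀, ?_⟩
  intro q _ χ hq hquad hcond β hβ h0
  have h1 := (hq₀ q hq χ hquad (cond_of_not_coprime_six χ hquad hcond)).2 β hβ h0
  rwa [← mul_div_assoc] at h1

end Pool.Agent.Results.MP_92f640_nt.ZeroBound
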